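import Pool.Agent.GPC.Defs

/-!
# GPC: module ALG (the algebraic core)
-/

open scoped BigOperators

namespace Pool.Agent.GPC.ALG

theorem mono_add_single {N : ℕ} {R : Type} [CommRing R] (x : Fin N → R) (γ : Fin N →₀ ℕ)
    (ν : Fin N) : mono x (γ + Finsupp.single ν 1) = x ν * mono x γ := by
  unfold mono
  have h : ∀ i, x i ^ (γ + Finsupp.single ν 1 : Fin N →₀ ℕ) i =
      x i ^ γ i * (if i = ν then x i else 1) := by
    intro i
    by_cases hi : i = ν
    · subst hi
      simp [pow_succ]
    · have : (Finsupp.single ν 1 : Fin N →₀ ℕ) i = 0 := by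
        rw [Finsupp.single_apply, if_neg (Ne.symm hi)]
      simp [this, hi]
  simp_rw [h]
  rw [Finset.prod_mul_distrib, Finset.prod_ite_eq' Finset.univ ν, if_pos (Finset.mem_univ ν),
    mul_comm]

theorem mono_map {N : ℕ} {R S : Type} [CommRing R] [CommRing S] (f : R →+* S) (x : Fin N → R)
    (γ : Fin N →₀ ℕ) : f (mono x γ) = mono (fun i => f (x i)) γ := by
  unfold mono
  rw [map_prod]
  exact Finset.prod_congr rfl (fun i _ => map_pow _ _ _)

theorem mono_X {n : ℕ} {K : Type} [CommRing K] (α : Fin n →₀ ℕ) :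
    mono (fun i => (MvPolynomial.X i : MvPolynomial (Fin n) K)) α =
      MvPolynomial.monomial α 1 := by
  unfold mono
  rw [MvPolynomial.monomial_eq, Finsupp.prod_fintype _ _ (fun i => pow_zero _)]
  simp

/-- The entries of the system. -/
noncomputable def lam {n : ℕ} {F : Type} [CommRing F] (𝒜 : Finset (Fin n →₀ ℕ))
    (l : (Fin n →₀ ℕ) → Polynomial F) : MvPolynomial (Option (Fin n)) F :=
  ∑ α ∈ 𝒜, Polynomial.aeval (MvPolynomial.X none) (l α) *
    mono (fun j => MvPolynomial.X (some j)) α

theorem aeval_lam {n : ℕ} {F : Type} [CommRing F] {A : Type} [CommRing A] [Algebra F A]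
    (𝒜 : Finset (Fin n →₀ ℕ)) (l : (Fin n →₀ ℕ) → Polynomial F) (t : A) (φ : Fin n → A) :
    MvPolynomial.aeval (pt t φ) (lam 𝒜 l) = ∑ α ∈ 𝒜, Polynomial.aeval t (l α) * mono φ α := by
  unfold lam
  rw [map_sum]
  refine Finset.sum_congr rfl (fun α _ => ?_)
  rw [map_mul]
  congr 1
  · rw [← Polynomial.aeval_algHom_apply, MvPolynomial.aeval_X]
    rfl
  · have := mono_map (MvPolynomial.aeval (pt t φ) :
      MvPolynomial (Option (Fin n)) F →ₐ[F] A).toRingHom
      (fun j => (MvPolynomial.X (some j) : MvPolynomial (Option (Fin n)) F)) α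
    refine this.trans ?_
    congr 1
    funext j
    simp [pt]

/-- The map `F[T, X] → K[X]` which sends `T` to `t`. -/
noncomputable def Phi {n : ℕ} {K : Type} [Field K] (F : Subfield K) (t : K) :
    MvPolynomial (Option (Fin n)) F →ₐ[F] MvPolynomial (Fin n) K :=
  MvPolynomial.aeval (pt (MvPolynomial.C t) (fun j => MvPolynomial.X j))

theorem Phi_eq {n : ℕ} {K : Type} [Field K] (F : Subfield K) (t : K)
    (a : MvPolynomial (Option (Fin n)) F) :
    Phi F t a = MvPolynomial.map (Polynomial.aeval t : Polynomial F →ₐ[F] K).toRingHom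
      (MvPolynomial.optionEquivRight F (Fin n) a) := by
  induction a using MvPolynomial.induction_on with
  | C a =>
    rw [MvPolynomial.optionEquivRight_C]
    unfold Phi
    rw [MvPolynomial.aeval_C, MvPolynomial.map_C]
    simp only [AlgHom.toRingHom_eq_coe, RingHom.coe_coe, Polynomial.aeval_C]
    rfl
  | add p q hp hq => rw [map_add, map_add, map_add, hp, hq]
  | mul_X p i hp =>
    rw [map_mul, map_mul, map_mul, hp]
    congr 1
    unfold Phi
    rw [MvPolynomial.aeval_X]
    cases i with
    | none =>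
      rw [MvPolynomial.optionEquivRight_X_none, MvPolynomial.map_C]
      simp [pt]
    | some j =>
      rw [MvPolynomial.optionEquivRight_X_some, MvPolynomial.map_X]
      simp [pt]

theorem coeff_Phi {n : ℕ} {K : Type} [Field K] (F : Subfield K) (t : K)
    (a : MvPolynomial (Option (Fin n)) F) (m : Fin n →₀ ℕ) :
    MvPolynomial.coeff m (Phi F t a) =
      Polynomial.aeval t (MvPolynomial.coeff m (MvPolynomial.optionEquivRight F (Fin n) a)) := by
  rw [Phi_eq, MvPolynomial.coeff_map]
  rfl

theorem thm (h1 : Stmt_AlgA) (h2 : Stmt_Grow) (h3 : Stmt_Minor) : Stmt_Alg := by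
  classical
  intro K _ F t ht N n x 𝒜 c hc q
  obtain ⟨b, β, hb, hdeg, hind, hspan⟩ := h1 K F t ht N x
  obtain ⟨e, he⟩ := h2 b N q (fun e => (hb e).1) (fun e => (hb e).2.1) (fun e => (hb e).2.2)
  have key : ∀ i : Fin (b e) × Fin N, ∃ (d : Polynomial F) (P : Fin (b (e+1)) → Polynomial F),
      d ≠ 0 ∧ Polynomial.aeval t d * (x i.2 * mono x (β e i.1)) =
        ∑ k, Polynomial.aeval t (P k) * mono x (β (e+1) k) := by
    intro i
    obtain ⟨d, P, hd, hP⟩ := hspan (e+1) (β e i.1 + Finsupp.single i.2 1) (by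
      have h := hdeg e i.1
      simp only [Finsupp.add_apply, Finset.sum_add_distrib]
      have : ∑ ν, (Finsupp.single i.2 1 : Fin N →₀ ℕ) ν = 1 := by
        simp [Finsupp.single_apply]
      omega)
    exact ⟨d, P, hd, by rw [← hP, mono_add_single]⟩
  choose d0 P hd0 hP using key
  have hdt : ∀ d : Polynomial F, d ≠ 0 → Polynomial.aeval t d ≠ 0 := fun d hd h =>
    hd ((transcendental_iff.1 ht) d h)
  -- the common denominator
  set D : Fin (b e) × Fin N → Polynomial F := fun i => ∏ j ∈ Finset.univ.erase i, d0 j with hD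
  set d : Polynomial F := ∏ j, d0 j with hd
  have hDd : ∀ i, D i * d0 i = d := fun i => Finset.prod_erase_mul _ _ (Finset.mem_univ i)
  have hdne : d ≠ 0 := Finset.prod_ne_zero_iff.2 (fun i _ => hd0 i)
  have hDP : ∀ i, ∑ k, Polynomial.aeval t (D i * P i k) * mono x (β (e+1) k) =
      Polynomial.aeval t d * (x i.2 * mono x (β e i.1)) := by
    intro i
    rw [← hDd i, map_mul, mul_assoc, hP i, Finset.mul_sum]
    refine Finset.sum_congr rfl (fun k _ => ?_)
    rw [map_mul, mul_assoc]
  -- the coefficients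
  set l : Fin (b e) → Fin (b (e+1)) → (Fin n →₀ ℕ) → Polynomial F := fun g k α =>
    ∑ ν, Polynomial.C (c α ν) * (D (g, ν) * P (g, ν) k) with hl
  have hlsum : ∀ g α, ∑ k, Polynomial.aeval t (l g k α) * mono x (β (e+1) k) =
      Polynomial.aeval t d * mono x (β e g) * ∑ ν, (c α ν : K) * x ν := by
    intro g α
    have : ∀ k, Polynomial.aeval t (l g k α) * mono x (β (e+1) k) =
        ∑ ν, (c α ν : K) * (Polynomial.aeval t (D (g, ν) * P (g, ν) k) * mono x (β (e+1) k)) := by
      intro k
      simp only [hl]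
      rw [map_sum, Finset.sum_mul]
      refine Finset.sum_congr rfl (fun ν _ => ?_)
      rw [map_mul, Polynomial.aeval_C, mul_assoc]
      rfl
    simp_rw [this]
    rw [Finset.sum_comm, Finset.mul_sum]
    refine Finset.sum_congr rfl (fun ν _ => ?_)
    rw [← Finset.mul_sum, hDP (g, ν)]
    ring
  -- the key identity, in an arbitrary K-algebra
  have hid : ∀ (A : Type) [CommRing A] [Algebra K A] [Algebra F A]
      (_ : ∀ r : F, algebraMap F A r = algebraMap K A (algebraMap F K r))
      (φ : Fin n → A) (g : Fin (b e)),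
      ∑ k, MvPolynomial.aeval (pt (algebraMap K A t) φ) (lam 𝒜 (l g k)) *
        algebraMap K A (mono x (β (e+1) k)) =
      algebraMap K A (Polynomial.aeval t d) * algebraMap K A (mono x (β e g)) *
        ∑ α ∈ 𝒜, algebraMap K A (∑ ν, (c α ν : K) * x ν) * mono φ α := by
    intro A _ _ _ hFA φ g
    have := IsScalarTower.of_algebraMap_eq hFA
    simp_rw [aeval_lam, Finset.sum_mul]
    rw [Finset.sum_comm, Finset.mul_sum]
    refine Finset.sum_congr rfl (fun α _ => ?_)
    have h := congrArg (algebraMap K A) (hlsum g α)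
    rw [map_sum, map_mul, map_mul] at h
    rw [← mul_assoc, ← h, Finset.sum_mul]
    refine Finset.sum_congr rfl (fun k _ => ?_)
    rw [map_mul, ← Polynomial.aeval_algebraMap_apply]
    ring
  -- rows are independent
  have hrow : ∀ a : Fin (b e) → MvPolynomial (Option (Fin n)) F,
      (∀ k, ∑ g, a g * (Matrix.of fun g k => lam 𝒜 (l g k)) g k = 0) → a = 0 := by
    intro a ha
    -- L is not zero
    set L : MvPolynomial (Fin n) K := ∑ α ∈ 𝒜, MvPolynomial.C (∑ ν, (c α ν : K) * x ν) *
      mono (fun i => (MvPolynomial.X i : MvPolynomial (Fin n) K)) α with hLdef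
    have hL : L ≠ 0 := by
      obtain ⟨α, hα, hne⟩ := hc
      intro h0
      apply hne
      have h := congrArg (MvPolynomial.coeff α) h0
      rw [hLdef, MvPolynomial.coeff_sum, MvPolynomial.coeff_zero] at h
      rw [← h]
      symm
      rw [Finset.sum_eq_single α]
      · rw [mono_X, MvPolynomial.C_mul_monomial, MvPolynomial.coeff_monomial, if_pos rfl, mul_one]
      · intro γ _ hγ
        rw [mono_X, MvPolynomial.C_mul_monomial, MvPolynomial.coeff_monomial, if_neg hγ]
      · intro h'
        exact absurd hα h'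
    have hsum : ∑ g, Phi F t (a g) * MvPolynomial.C (mono x (β e g)) = 0 := by
      have h0 : ∑ g, Phi F t (a g) * (∑ k, Phi F t (lam 𝒜 (l g k)) *
          MvPolynomial.C (mono x (β (e+1) k))) = 0 := by
        simp_rw [Finset.mul_sum]
        rw [Finset.sum_comm]
        refine Finset.sum_eq_zero (fun k _ => ?_)
        have h := congrArg (Phi F t) (ha k)
        rw [map_sum, map_zero] at h
        simp_rw [← mul_assoc]
        rw [← Finset.sum_mul]
        have h' : ∑ g, Phi F t (a g) * Phi F t (lam 𝒜 (l g k)) = 0 := by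
          rw [← h]
          refine Finset.sum_congr rfl (fun g _ => ?_)
          rw [map_mul]
          rfl
        rw [h', zero_mul]
      have h1' : ∀ g, ∑ k, Phi F t (lam 𝒜 (l g k)) * MvPolynomial.C (mono x (β (e+1) k)) =
          MvPolynomial.C (Polynomial.aeval t d) * MvPolynomial.C (mono x (β e g)) * L :=
        fun g => hid (MvPolynomial (Fin n) K) (fun r => rfl) (fun j => MvPolynomial.X j) g
      simp_rw [h1'] at h0
      have h2' : (MvPolynomial.C (Polynomial.aeval t d) * L) *
          ∑ g, Phi F t (a g) * MvPolynomial.C (mono x (β e g)) = 0 := by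
        rw [← h0, Finset.mul_sum]
        refine Finset.sum_congr rfl (fun g _ => ?_)
        ring
      rcases mul_eq_zero.1 h2' with h | h
      · exfalso
        rcases mul_eq_zero.1 h with h | h
        · exact hdt d hdne (MvPolynomial.C_eq_zero.1 h)
        · exact hL h
      · exact h
    have hco : ∀ m : Fin n →₀ ℕ, ∀ g,
        MvPolynomial.coeff m (MvPolynomial.optionEquivRight F (Fin n) (a g)) = 0 := by
      intro m
      apply hind e
      have h := congrArg (MvPolynomial.coeff m) hsum
      rw [MvPolynomial.coeff_sum, MvPolynomial.coeff_zero] at h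
      rw [← h]
      refine Finset.sum_congr rfl (fun g _ => ?_)
      rw [mul_comm (Phi F t (a g)), MvPolynomial.coeff_C_mul, coeff_Phi, mul_comm]
    funext g
    have hz : MvPolynomial.optionEquivRight F (Fin n) (a g) = 0 := by
      ext1 m
      rw [hco m g, MvPolynomial.coeff_zero]
    exact (map_eq_zero_iff _ (MvPolynomial.optionEquivRight F (Fin n)).injective).1 hz
  obtain ⟨p, hp⟩ := h3 (MvPolynomial (Option (Fin n)) F) (b e) (b (e+1))
    (Matrix.of fun g k => lam 𝒜 (l g k)) hrow
  refine ⟨b e, b (e+1), β (e+1), Matrix.of fun g k => lam 𝒜 (l g k), p, (hb (e+1)).1,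
    (hb e).2.1, he, hind (e+1), ?_, hp⟩
  intro φ hφ g
  have h := hid K (fun r => rfl) φ g
  simp only [Algebra.algebraMap_self, RingHom.id_apply] at h
  rw [hφ, mul_zero] at h
  exact h

end Pool.Agent.GPC.ALG
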