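import Pool.Agent.GPC.Defs

open scoped BigOperators

namespace Pool.Agent.GPC.ALGA

open Pool.Agent.GPC

/-- exponents of degree at most `e` -/
abbrev De (N e : ℕ) : Type := {γ : Fin N →₀ ℕ // ∑ ν, γ ν ≤ e}

lemma le_of_mem {N e : ℕ} (γ : De N e) (ν : Fin N) : γ.1 ν ≤ e :=
  (Finset.single_le_sum (f := fun ν => γ.1 ν) (fun _ _ => Nat.zero_le _)
    (Finset.mem_univ ν)).trans γ.2

/-- the injection into a finite type -/
def toFun {N e : ℕ} (γ : De N e) : Fin N → Fin (e + 1) :=
  fun ν => ⟨γ.1 ν, Nat.lt_succ_of_le (le_of_mem γ ν)⟩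

lemma toFun_inj (N e : ℕ) : Function.Injective (toFun (N := N) (e := e)) := by
  intro γ γ' h
  apply Subtype.ext
  ext ν
  have := congrFun h ν
  simpa [toFun] using this

instance (N e : ℕ) : Finite (De N e) := Finite.of_injective _ (toFun_inj N e)

noncomputable instance (N e : ℕ) : Fintype (De N e) := Fintype.ofFinite _

lemma card_De (N e : ℕ) : Fintype.card (De N e) ≤ (e + 1) ^ N := by
  have := Fintype.card_le_of_injective _ (toFun_inj N e)
  simpa using this

theorem thm : Stmt_AlgA := by
  intro K _ F t ht N x
  classical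
  set E := IntermediateField.adjoin F {t} with hE
  -- the family of monomials
  let v : ∀ e, De N e → K := fun e γ => mono x γ.1
  let W : ℕ → Submodule E K := fun e => Submodule.span E (Set.range (v e))
  have hbasis : ∀ e, ∃ β : Fin (Module.finrank E (W e)) → De N e,
      LinearIndependent E (fun k => v e (β k)) ∧
      Submodule.span E (Set.range fun k => v e (β k)) = W e := by
    intro e
    obtain ⟨κ, a, ha, hspan, hli⟩ := exists_linearIndependent' E (v e)
    have : Finite κ := Finite.of_injective a ha
    have : Fintype κ := Fintype.ofFinite κ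
    have hcard : Module.finrank E (W e) = Fintype.card κ := by
      change Module.finrank E (Submodule.span E (Set.range (v e))) = _
      rw [← hspan]
      exact finrank_span_eq_card hli
    have eq : Fin (Module.finrank E (W e)) ≃ κ :=
      (finCongr hcard).trans (Fintype.equivFin κ).symm
    refine ⟨fun k => a (eq k), ?_, ?_⟩
    · exact hli.comp eq eq.injective
    · have : Set.range (fun k => v e (a (eq k))) = Set.range (v e ∘ a) := by
        ext y
        constructor
        · rintro ⟨k, rfl⟩
          exact ⟨eq k, rfl⟩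
        · rintro ⟨k, rfl⟩
          exact ⟨eq.symm k, by simp⟩
      rw [this, hspan]
  choose β hli hspan using hbasis
  have hfin : ∀ e, Module.Finite E (W e) := fun e =>
    Module.Finite.span_of_finite E (Set.finite_range (v e))
  -- transcendence
  have htr : ∀ P : Polynomial F, Polynomial.aeval t P = 0 → P = 0 := by
    intro P hP
    by_contra hne
    exact ht ⟨P, hne, hP⟩
  refine ⟨fun e => Module.finrank E (W e), fun e k => (β e k).1, ?_, ?_, ?_, ?_⟩
  · intro e
    refine ⟨?_, ?_, ?_⟩
    · have h1 : (1 : K) ∈ W e := by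
        have : v e ⟨0, by simp⟩ = 1 := by simp [v, mono]
        rw [← this]
        exact Submodule.subset_span ⟨_, rfl⟩
      have := hfin e
      rw [Nat.pos_iff_ne_zero]
      intro h0
      have h2 : W e = ⊥ := Submodule.finrank_eq_zero.1 h0
      rw [h2, Submodule.mem_bot] at h1
      exact one_ne_zero h1
    · have := hfin (e + 1)
      apply Submodule.finrank_mono
      apply Submodule.span_mono
      rintro y ⟨γ, rfl⟩
      exact ⟨⟨γ.1, γ.2.trans (Nat.le_succ e)⟩, rfl⟩
    · refine le_trans ?_ (card_De N e)
      exact finrank_range_le_card (v e)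
  · intro e k
    exact (β e k).2
  · intro e P hP
    have h := Fintype.linearIndependent_iff.1 (hli e)
      (fun k => ⟨Polynomial.aeval t (P k), by
        rw [hE, IntermediateField.mem_adjoin_simple_iff]
        exact ⟨P k, 1, by simp⟩⟩) (by
          rw [← hP]
          apply Finset.sum_congr rfl
          intro k _
          rfl)
    intro k
    have := congrArg Subtype.val (h k)
    exact htr _ this
  · intro e γ hγ
    have hmem : mono x γ ∈ Submodule.span E (Set.range fun k => v e (β e k)) := by
      rw [hspan e]
      exact Submodule.subset_span ⟨⟨γ, hγ⟩, rfl⟩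
    rw [Submodule.mem_span_range_iff_exists_fun] at hmem
    obtain ⟨c, hc⟩ := hmem
    have hrep : ∀ k, ∃ p q : Polynomial F, q ≠ 0 ∧
        Polynomial.aeval t q * (c k : K) = Polynomial.aeval t p := by
      intro k
      obtain ⟨r, s, hrs⟩ := (IntermediateField.mem_adjoin_simple_iff F (c k : K)).1 (c k).2
      by_cases hs : Polynomial.aeval t s = 0
      · refine ⟨0, 1, one_ne_zero, ?_⟩
        rw [hs, div_zero] at hrs
        simp [hrs]
      · refine ⟨r, s, fun h => hs (by rw [h]; simp), ?_⟩
        rw [hrs]
        field_simp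
    choose p q hq hpq using hrep
    refine ⟨∏ k, q k, fun k => p k * ∏ j ∈ Finset.univ.erase k, q j,
      Finset.prod_ne_zero_iff.2 fun k _ => hq k, ?_⟩
    rw [← hc, Finset.mul_sum]
    apply Finset.sum_congr rfl
    intro k _
    have h1 : (∏ k, q k) = q k * ∏ j ∈ Finset.univ.erase k, q j :=
      (Finset.mul_prod_erase _ _ (Finset.mem_univ k)).symm
    rw [h1, map_mul, map_mul]
    have h2 : c k • v e (β e k) = (c k : K) * mono x (β e k).1 := rfl
    rw [h2]
    linear_combination
      (Polynomial.aeval t (∏ j ∈ Finset.univ.erase k, q j)) * mono x (β e k).1 * hpq k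

end Pool.Agent.GPC.ALGA
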