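import Pool.Agent.GPC.Defs

/-!
# GPC, module CIRC

Uniform lower bound on a circle and uniform factorization for the nonzero elements of a finite
dimensional space of holomorphic functions.
-/

open scoped BigOperators Topology
open Metric

namespace Pool.Agent.GPC.CIRC

noncomputable section

/-- a nonzero holomorphic function has no zeros on a suitable circle -/
theorem exists_radius (F : ℂ → ℂ) (z0 : ℂ) (ρ : ℝ) (hρ : 0 < ρ)
    (hF : DifferentiableOn ℂ F (ball z0 (10 * ρ))) (hne : ∃ z ∈ ball z0 (10 * ρ), F z ≠ 0) :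
    ∃ R, 2 * ρ < R ∧ R < 3 * ρ ∧ ∀ z ∈ sphere z0 R, F z ≠ 0 := by
  have han : AnalyticOnNhd ℂ F (ball z0 (10 * ρ)) := hF.analyticOnNhd isOpen_ball
  have hfin : {z | z ∈ closedBall z0 (3 * ρ) ∧ F z = 0}.Finite := by
    by_contra hinf
    obtain ⟨x, hx, hacc⟩ := Set.Infinite.exists_accPt_of_subset_isCompact
      (K := closedBall z0 (3 * ρ)) hinf (isCompact_closedBall _ _) (fun z hz => hz.1)
    have hx' : x ∈ ball z0 (10 * ρ) := closedBall_subset_ball (by linarith) hx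
    have hfr : ∃ᶠ z in 𝓝[≠] x, F z = 0 := by
      rw [accPt_iff_frequently_nhdsNE] at hacc
      exact hacc.mono fun z hz => hz.2
    have h0 := han.eqOn_zero_of_preconnected_of_frequently_eq_zero
      (convex_ball z0 (10 * ρ)).isPreconnected hx' hfr
    obtain ⟨z, hz, hz'⟩ := hne
    exact hz' (h0 hz)
  have hinf : (Set.Ioo (2 * ρ) (3 * ρ)).Infinite := Set.Ioo_infinite (by linarith)
  have hfin2 : ((fun z => dist z z0) '' {z | z ∈ closedBall z0 (3 * ρ) ∧ F z = 0}).Finite :=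
    hfin.image _
  obtain ⟨R, hR1, hR2⟩ := (hinf.diff hfin2).nonempty
  refine ⟨R, hR1.1, hR1.2, fun z hz h0 => hR2 ⟨z, ⟨?_, h0⟩, mem_sphere.1 hz⟩⟩
  rw [mem_closedBall, mem_sphere.1 hz]
  exact hR1.2.le

/-- bound for the functions in the space -/
theorem exists_bound {ι : Type} [Fintype ι] (g : ι → ℂ → ℂ) (z0 : ℂ) (ρ : ℝ) (hρ : 0 < ρ)
    (hg : ∀ k, DifferentiableOn ℂ (g k) (ball z0 (10 * ρ))) :
    ∃ B : ℝ, 0 < B ∧ ∀ z ∈ closedBall z0 (19 / 2 * ρ), ∀ d : ι → ℂ,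
      ‖∑ k, d k * g k z‖ ≤ ‖d‖ * B := by
  have hc : ContinuousOn (fun z => ∑ k, ‖g k z‖) (closedBall z0 (19 / 2 * ρ)) := by
    apply continuousOn_finset_sum
    intro k _
    exact ((hg k).continuousOn.mono (closedBall_subset_ball (by linarith))).norm
  obtain ⟨B, hB⟩ := (isCompact_closedBall z0 (19 / 2 * ρ)).exists_bound_of_continuousOn hc
  refine ⟨max B 1, by positivity, fun z hz d => ?_⟩
  have h1 := hB z hz
  rw [Real.norm_of_nonneg (Finset.sum_nonneg fun _ _ => norm_nonneg _)] at h1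
  calc ‖∑ k, d k * g k z‖ ≤ ∑ k, ‖d‖ * ‖g k z‖ := by
        refine (norm_sum_le _ _).trans (Finset.sum_le_sum fun k _ => ?_)
        rw [norm_mul]
        exact mul_le_mul_of_nonneg_right (norm_le_pi_norm d k) (norm_nonneg _)
    _ = ‖d‖ * ∑ k, ‖g k z‖ := by rw [Finset.mul_sum]
    _ ≤ ‖d‖ * max B 1 := mul_le_mul_of_nonneg_left (h1.trans (le_max_left _ _)) (norm_nonneg _)

/-- the uniform lower bound on a circle -/
theorem exists_lower {ι : Type} [Fintype ι] (g : ι → ℂ → ℂ) (z0 : ℂ) (ρ : ℝ) (hρ : 0 < ρ)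
    (hg : ∀ k, DifferentiableOn ℂ (g k) (ball z0 (10 * ρ)))
    (hind : ∀ d : ι → ℂ, (∀ z ∈ ball z0 (10 * ρ), ∑ k, d k * g k z = 0) → d = 0) :
    ∃ c : ℝ, 0 < c ∧ ∀ d : ι → ℂ, ‖d‖ = 1 → ∃ R, 2 * ρ < R ∧ R < 3 * ρ ∧
      ∀ z ∈ sphere z0 R, c ≤ ‖∑ k, d k * g k z‖ := by
  obtain ⟨B, hB0, hB⟩ := exists_bound g z0 ρ hρ hg
  have key := (isCompact_sphere (0 : ι → ℂ) 1).induction_on
    (p := fun S => ∃ c : ℝ, 0 < c ∧ ∀ d ∈ S, ∃ R, 2 * ρ < R ∧ R < 3 * ρ ∧
      ∀ z ∈ sphere z0 R, c ≤ ‖∑ k, d k * g k z‖)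
    ⟨1, one_pos, fun d hd => absurd hd (Set.notMem_empty d)⟩
    (fun S T hST ⟨c, hc, h⟩ => ⟨c, hc, fun d hd => h d (hST hd)⟩)
    (fun S T ⟨c, hc, h⟩ ⟨c', hc', h'⟩ => ⟨min c c', lt_min hc hc', fun d hd => by
      rcases hd with hd | hd
      · obtain ⟨R, h1, h2, h3⟩ := h d hd
        exact ⟨R, h1, h2, fun z hz => (min_le_left _ _).trans (h3 z hz)⟩
      · obtain ⟨R, h1, h2, h3⟩ := h' d hd
        exact ⟨R, h1, h2, fun z hz => (min_le_right _ _).trans (h3 z hz)⟩⟩)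
    (fun d hd => by
      have hd1 : ‖d‖ = 1 := by simpa using hd
      have hne : ∃ z ∈ ball z0 (10 * ρ), ∑ k, d k * g k z ≠ 0 := by
        by_contra hcon
        push Not at hcon
        have := hind d hcon
        rw [this, norm_zero] at hd1
        exact zero_ne_one hd1
      have hGd : DifferentiableOn ℂ (fun z => ∑ k, d k * g k z) (ball z0 (10 * ρ)) :=
        DifferentiableOn.fun_sum fun k _ => (hg k).const_mul (d k)
      obtain ⟨R, hR1, hR2, hR3⟩ := exists_radius _ z0 ρ hρ hGd hne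
      have hsub : sphere z0 R ⊆ closedBall z0 (19 / 2 * ρ) := by
        intro z hz
        rw [mem_closedBall, mem_sphere.1 hz]
        linarith
      have hsub' : sphere z0 R ⊆ ball z0 (10 * ρ) :=
        hsub.trans (closedBall_subset_ball (by linarith))
      obtain ⟨z1, hz1, hmin⟩ := (isCompact_sphere z0 R).exists_isMinOn
        (NormedSpace.sphere_nonempty.2 (by linarith)) ((hGd.continuousOn.mono hsub').norm)
      set m := ‖∑ k, d k * g k z1‖ with hm
      have hm0 : 0 < m := norm_pos_iff.2 (hR3 z1 hz1)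
      refine ⟨ball d (m / (2 * B)), mem_nhdsWithin_of_mem_nhds (ball_mem_nhds _ (by positivity)),
        m / 2, by positivity, fun d' hd' => ⟨R, hR1, hR2, fun z hz => ?_⟩⟩
      have h1 : m ≤ ‖∑ k, d k * g k z‖ := hmin hz
      have h2 : ‖∑ k, (d' - d) k * g k z‖ ≤ ‖d' - d‖ * B := hB z (hsub hz) _
      have h3 : ‖d' - d‖ * B ≤ m / 2 := by
        rw [mem_ball, dist_eq_norm] at hd'
        have := mul_le_mul_of_nonneg_right hd'.le hB0.le
        calc ‖d' - d‖ * B ≤ m / (2 * B) * B := this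
          _ = m / 2 := by field_simp
      have h4 : ∑ k, d' k * g k z = ∑ k, d k * g k z + ∑ k, (d' - d) k * g k z := by
        rw [← Finset.sum_add_distrib]
        refine Finset.sum_congr rfl fun k _ => ?_
        rw [Pi.sub_apply]; ring
      rw [h4]
      have h5 := norm_sub_le_norm_add (∑ k, d k * g k z) (∑ k, (d' - d) k * g k z)
      linarith)
  obtain ⟨c, hc, h⟩ := key
  exact ⟨c, hc, fun d hd => h d (by simpa using hd)⟩

/-- a factorization of `F` with `k` zeros taken out -/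
def Fac (F : ℂ → ℂ) (z0 : ℂ) (ρ R : ℝ) (k : ℕ) : Prop :=
  ∃ (w : Fin k → ℂ) (u : ℂ → ℂ), (∀ j, w j ∈ ball z0 R) ∧
    DifferentiableOn ℂ u (ball z0 (10 * ρ)) ∧
    ∀ z ∈ ball z0 (10 * ρ), F z = (∏ j, (z - w j)) * u z

/-- the number of factors is bounded -/
theorem fac_bound (F : ℂ → ℂ) (z0 : ℂ) (ρ R c B : ℝ) (hρ : 0 < ρ) (hR1 : 2 * ρ < R)
    (hR2 : R < 3 * ρ)
    (hB : ∀ z ∈ closedBall z0 (19 / 2 * ρ), ‖F z‖ ≤ B)
    (hc : ∀ z ∈ sphere z0 R, c ≤ ‖F z‖) (k : ℕ) (hk : Fac F z0 ρ R k) :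
    c ≤ B * (12 / 13) ^ k := by
  obtain ⟨w, u, hw, hu, hfac⟩ := hk
  have hρ0 := hρ.ne'
  have hu1 : ∀ z ∈ sphere z0 (19 / 2 * ρ), ‖u z‖ ≤ B / (13 / 2 * ρ) ^ k := by
    intro z hz
    have hz' : z ∈ closedBall z0 (19 / 2 * ρ) := sphere_subset_closedBall hz
    have h1 := hfac z (closedBall_subset_ball (by linarith) hz')
    have h2 : (13 / 2 * ρ) ^ k ≤ ‖∏ j, (z - w j)‖ := by
      rw [norm_prod]
      calc (13 / 2 * ρ) ^ k = ∏ _j : Fin k, (13 / 2 * ρ) := by simp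
        _ ≤ ∏ j, ‖z - w j‖ := by
          apply Finset.prod_le_prod
          · intro j _; positivity
          · intro j _
            have h3 := hw j
            rw [mem_ball, dist_eq_norm] at h3
            rw [mem_sphere, dist_eq_norm] at hz
            have h4 : z - z0 = (z - w j) + (w j - z0) := by ring
            have h5 := norm_add_le (z - w j) (w j - z0)
            rw [← h4, hz] at h5
            linarith
    rw [le_div_iff₀ (by positivity)]
    calc ‖u z‖ * (13 / 2 * ρ) ^ k ≤ ‖u z‖ * ‖∏ j, (z - w j)‖ :=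
          mul_le_mul_of_nonneg_left h2 (norm_nonneg _)
      _ = ‖F z‖ := by rw [h1, norm_mul, mul_comm]
      _ ≤ B := hB z hz'
  have hr0 : (19 / 2 * ρ) ≠ 0 := by positivity
  have hdc : DiffContOnCl ℂ u (ball z0 (19 / 2 * ρ)) := by
    apply DifferentiableOn.diffContOnCl
    rw [closure_ball z0 hr0]
    exact hu.mono (closedBall_subset_ball (by linarith))
  obtain ⟨z1, hz1⟩ : (sphere z0 R).Nonempty := NormedSpace.sphere_nonempty.2 (by linarith)
  have hz1' : z1 ∈ closedBall z0 (19 / 2 * ρ) := by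
    rw [mem_closedBall, mem_sphere.1 hz1]; linarith
  have hmax : ‖u z1‖ ≤ B / (13 / 2 * ρ) ^ k := by
    apply Complex.norm_le_of_forall_mem_frontier_norm_le (isBounded_ball (x := z0) (r := 19 / 2 * ρ))
      hdc
    · intro z hz
      rw [frontier_ball z0 hr0] at hz
      exact hu1 z hz
    · rw [closure_ball z0 hr0]; exact hz1'
  have h1 := hfac z1 (closedBall_subset_ball (by linarith) hz1')
  have h2 : ‖∏ j, (z1 - w j)‖ ≤ (6 * ρ) ^ k := by
    rw [norm_prod]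
    calc ∏ j, ‖z1 - w j‖ ≤ ∏ _j : Fin k, (6 * ρ) := by
          apply Finset.prod_le_prod
          · intro j _; positivity
          · intro j _
            have h3 := hw j
            rw [mem_ball, dist_eq_norm] at h3
            rw [mem_sphere, dist_eq_norm] at hz1
            have h4 : z1 - w j = (z1 - z0) - (w j - z0) := by ring
            have h5 := norm_sub_le (z1 - z0) (w j - z0)
            rw [← h4, hz1] at h5
            linarith
      _ = (6 * ρ) ^ k := by simp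
  calc c ≤ ‖F z1‖ := hc z1 hz1
    _ = ‖∏ j, (z1 - w j)‖ * ‖u z1‖ := by rw [h1, norm_mul]
    _ ≤ (6 * ρ) ^ k * (B / (13 / 2 * ρ) ^ k) :=
        mul_le_mul h2 hmax (norm_nonneg _) (by positivity)
    _ = B * ((6 * ρ) / (13 / 2 * ρ)) ^ k := by rw [div_pow]; ring
    _ = B * (12 / 13) ^ k := by
        congr 2
        field_simp
        norm_num

/-- dividing out one more zero -/
theorem fac_succ (F : ℂ → ℂ) (z0 : ℂ) (ρ R : ℝ) (hR : R < 3 * ρ) (hρ : 0 < ρ) (k : ℕ)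
    (w : Fin k → ℂ) (u : ℂ → ℂ) (hw : ∀ j, w j ∈ ball z0 R)
    (hu : DifferentiableOn ℂ u (ball z0 (10 * ρ)))
    (hfac : ∀ z ∈ ball z0 (10 * ρ), F z = (∏ j, (z - w j)) * u z)
    (a : ℂ) (ha : a ∈ ball z0 R) (hua : u a = 0) : Fac F z0 ρ R (k + 1) := by
  have ha' : a ∈ ball z0 (10 * ρ) := ball_subset_ball (by linarith) ha
  refine ⟨Fin.cons a w, dslope u a, ?_, ?_, ?_⟩
  · intro j
    refine Fin.cases ?_ ?_ j
    · simpa using ha
    · intro i; simpa using hw i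
  · exact (Complex.differentiableOn_dslope (isOpen_ball.mem_nhds ha')).2 hu
  · intro z hz
    rw [hfac z hz, Fin.prod_univ_succ]
    simp only [Fin.cons_zero, Fin.cons_succ]
    have h1 : (z - a) * dslope u a z = u z := by
      have h2 := sub_smul_dslope u a z
      rw [hua, sub_zero, smul_eq_mul] at h2
      exact h2
    rw [← h1]; ring

/-- the complete factorization -/
theorem fac_full (F : ℂ → ℂ) (z0 : ℂ) (ρ R c B : ℝ) (hρ : 0 < ρ) (hR1 : 2 * ρ < R)
    (hR2 : R < 3 * ρ) (hF : DifferentiableOn ℂ F (ball z0 (10 * ρ)))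
    (hB : ∀ z ∈ closedBall z0 (19 / 2 * ρ), ‖F z‖ ≤ B) (hc0 : 0 < c)
    (hc : ∀ z ∈ sphere z0 R, c ≤ ‖F z‖) (Z : ℕ) (hZ : ∀ k, c ≤ B * (12 / 13) ^ k → k ≤ Z) :
    ∃ (k : ℕ) (w : Fin k → ℂ) (u : ℂ → ℂ), k ≤ Z ∧ (∀ j, w j ∈ ball z0 R) ∧
      DifferentiableOn ℂ u (ball z0 (10 * ρ)) ∧ (∀ z ∈ closedBall z0 R, u z ≠ 0) ∧
      ∀ z ∈ ball z0 (10 * ρ), F z = (∏ j, (z - w j)) * u z := by
  classical
  have hle : ∀ k, Fac F z0 ρ R k → k ≤ Z := fun k hk =>
    hZ k (fac_bound F z0 ρ R c B hρ hR1 hR2 hB hc k hk)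
  have h0 : Fac F z0 ρ R 0 := ⟨Fin.elim0, F, fun j => j.elim0, hF, fun z _ => by simp⟩
  have hk := Nat.findGreatest_spec (P := Fac F z0 ρ R) (Nat.zero_le Z) h0
  set k := Nat.findGreatest (Fac F z0 ρ R) Z with hkdef
  have hmax : ¬ Fac F z0 ρ R (k + 1) := by
    intro h
    have := Nat.le_findGreatest (hle _ h) h
    omega
  obtain ⟨w, u, hw, hu, hfac⟩ := hk
  refine ⟨k, w, u, Nat.findGreatest_le Z, hw, hu, fun z hz hz0 => ?_, hfac⟩
  rcases eq_or_lt_of_le (mem_closedBall.1 hz) with h | h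
  · have hz' : z ∈ ball z0 (10 * ρ) := by rw [mem_ball, h]; linarith
    have h1 := hc z (mem_sphere.2 h)
    rw [hfac z hz', hz0, mul_zero, norm_zero] at h1
    linarith
  · exact hmax (fac_succ F z0 ρ R hR2 hρ k w u hw hu hfac z (mem_ball.2 h) hz0)

theorem thm : Stmt_Circ := by
  intro z0 ρ hρ ι _ g hg hind
  obtain ⟨B, hB0, hB⟩ := exists_bound g z0 ρ hρ hg
  obtain ⟨c, hc0, hc⟩ := exists_lower g z0 ρ hρ hg hind
  obtain ⟨Z, hZ⟩ : ∃ Z : ℕ, ∀ k, c ≤ B * (12 / 13) ^ k → k ≤ Z := by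
    obtain ⟨n, hn⟩ := exists_pow_lt_of_lt_one (div_pos hc0 hB0) (show (12 / 13 : ℝ) < 1 by norm_num)
    refine ⟨n, fun k hk => ?_⟩
    by_contra hlt
    push Not at hlt
    have h1 : (12 / 13 : ℝ) ^ k ≤ (12 / 13) ^ n :=
      pow_le_pow_of_le_one (by norm_num) (by norm_num) hlt.le
    have h2 : B * (12 / 13) ^ k < c := by
      calc B * (12 / 13) ^ k ≤ B * (12 / 13) ^ n := mul_le_mul_of_nonneg_left h1 hB0.le
        _ < B * (c / B) := mul_lt_mul_of_pos_left hn hB0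
        _ = c := by field_simp
    linarith
  refine ⟨c, Z, hc0, fun d N hN hk hle => ?_⟩
  set d' : ι → ℂ := fun k => d k / (N : ℂ) with hd'
  have hNC : (N : ℂ) ≠ 0 := by exact_mod_cast hN.ne'
  have hnd' : ∀ k, ‖d' k‖ = ‖d k‖ / N := by
    intro k
    rw [hd']
    simp only [norm_div, Complex.norm_real, Real.norm_of_nonneg hN.le]
  have hd1 : ‖d'‖ = 1 := by
    apply le_antisymm
    · rw [pi_norm_le_iff_of_nonneg zero_le_one]
      intro k
      rw [hnd', div_le_one hN]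
      exact hle k
    · obtain ⟨k, hk⟩ := hk
      have := norm_le_pi_norm d' k
      rw [hnd', hk, div_self hN.ne'] at this
      exact this
  obtain ⟨R, hR1, hR2, hR3⟩ := hc d' hd1
  have hF : DifferentiableOn ℂ (fun z => ∑ k, d' k * g k z) (ball z0 (10 * ρ)) :=
    DifferentiableOn.fun_sum fun k _ => (hg k).const_mul (d' k)
  obtain ⟨k, w, u, hkZ, hw, hu, hu0, hfac⟩ := fac_full (fun z => ∑ k, d' k * g k z) z0 ρ R c B
    hρ hR1 hR2 hF (fun z hz => by have := hB z hz d'; rwa [hd1, one_mul] at this) hc0 hR3 Z hZ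
  have hscale : ∀ z, ∑ k, d k * g k z = (N : ℂ) * ∑ k, d' k * g k z := by
    intro z
    rw [Finset.mul_sum]
    refine Finset.sum_congr rfl fun k _ => ?_
    rw [hd']
    field_simp
  refine ⟨R, k, w, fun z => (N : ℂ) * u z, hR1, hR2, hkZ, hw, hu.const_mul _, ?_, ?_, ?_⟩
  · intro z hz
    exact mul_ne_zero hNC (hu0 z hz)
  · intro z hz
    rw [hscale, hfac z hz]; ring
  · intro z hz
    rw [hscale, norm_mul, Complex.norm_real, Real.norm_of_nonneg hN.le, mul_comm c N]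
    exact mul_le_mul_of_nonneg_left (hR3 z hz) hN.le

end

end Pool.Agent.GPC.CIRC
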