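import Pool.Agent.GPC.Ell

/-!
# GPC: module COVER
-/

open scoped BigOperators Topology
open Metric UpperHalfPlane ModularForm EisensteinSeries Filter

namespace Pool.Agent.GPC.COVER

/-- the open upper half plane -/
def HP : Set ℂ := {z : ℂ | 0 < z.im}

theorem isOpen_HP : IsOpen HP := isOpen_lt continuous_const Complex.continuous_im

theorem cont_E4 : ContinuousOn (fun z => E₄ (ofComplex z)) HP :=
  (UpperHalfPlane.mdifferentiable_iff.1 (ModularFormClass.holo E₄)).continuousOn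

theorem cont_E6 : ContinuousOn (fun z => E₆ (ofComplex z)) HP :=
  (UpperHalfPlane.mdifferentiable_iff.1 (ModularFormClass.holo E₆)).continuousOn

theorem cont_g2 (h : Stmt_GEis) : ContinuousOn g2c HP := by
  have h1 : ContinuousOn (fun z => 4 * (Real.pi : ℂ) ^ 4 / 3 * E₄ (ofComplex z)) HP :=
    continuousOn_const.mul cont_E4
  refine h1.congr fun z _ => ?_
  exact (h (ofComplex z)).1

theorem cont_g3 (h : Stmt_GEis) : ContinuousOn g3c HP := by
  have h1 : ContinuousOn (fun z => 8 * (Real.pi : ℂ) ^ 6 / 27 * E₆ (ofComplex z)) HP :=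
    continuousOn_const.mul cont_E6
  refine h1.congr fun z _ => ?_
  exact (h (ofComplex z)).2

/-- the good open set -/
def Good : Set ℂ := {z : ℂ | 0 < z.im ∧ g2c z ≠ 0 ∧ g3c z ≠ 0}

theorem isOpen_Good (h : Stmt_GEis) : IsOpen Good := by
  have h2 : IsOpen (HP ∩ g2c ⁻¹' {0}ᶜ) :=
    (cont_g2 h).isOpen_inter_preimage isOpen_HP isOpen_compl_singleton
  have h3 : IsOpen (HP ∩ g3c ⁻¹' {0}ᶜ) :=
    (cont_g3 h).isOpen_inter_preimage isOpen_HP isOpen_compl_singleton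
  have : Good = (HP ∩ g2c ⁻¹' {0}ᶜ) ∩ (HP ∩ g3c ⁻¹' {0}ᶜ) := by
    ext z
    simp only [Good, HP, Set.mem_ofPred_eq, Set.mem_inter_iff, Set.mem_preimage,
      Set.mem_compl_iff, Set.mem_singleton_iff]
    tauto
  rw [this]
  exact h2.inter h3

/-- the compact box -/
def SB (M : ℕ) : Set ℂ := {z | |z.re| ≤ 1 / 2 ∧ 1 ≤ ‖z‖ ∧ z.im ≤ M ∧ 1 / 2 ≤ z.im}

theorem isClosed_SB (M : ℕ) : IsClosed (SB M) := by
  have h1 : IsClosed {z : ℂ | |z.re| ≤ 1 / 2} :=
    isClosed_le (continuous_abs.comp Complex.continuous_re) continuous_const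
  have h2 : IsClosed {z : ℂ | 1 ≤ ‖z‖} := isClosed_le continuous_const continuous_norm
  have h3 : IsClosed {z : ℂ | z.im ≤ M} := isClosed_le Complex.continuous_im continuous_const
  have h4 : IsClosed {z : ℂ | 1 / 2 ≤ z.im} := isClosed_le continuous_const Complex.continuous_im
  have : SB M = {z : ℂ | |z.re| ≤ 1 / 2} ∩ {z : ℂ | 1 ≤ ‖z‖} ∩ {z : ℂ | z.im ≤ M} ∩
      {z : ℂ | 1 / 2 ≤ z.im} := by
    ext z
    simp only [SB, Set.mem_ofPred_eq, Set.mem_inter_iff]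
    tauto
  rw [this]
  exact ((h1.inter h2).inter h3).inter h4

theorem isCompact_SB (M : ℕ) : IsCompact (SB M) := by
  refine Metric.isCompact_of_isClosed_isBounded (isClosed_SB M) ?_
  refine (Metric.isBounded_iff_subset_closedBall 0).2 ⟨1 + M, fun z hz => ?_⟩
  rw [mem_closedBall, dist_zero_right]
  obtain ⟨h1, -, h3, h4⟩ := hz
  have h5 := Complex.norm_le_abs_re_add_abs_im z
  have h6 : |z.im| ≤ M := by
    rw [abs_le]
    constructor <;> linarith
  linarith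

theorem KM_eq (M : ℕ) : KM M = (SB M ∩ g2c ⁻¹' {w | 1 ≤ M * ‖w‖}) ∩
    (SB M ∩ g3c ⁻¹' {w | 1 ≤ M * ‖w‖}) := by
  ext z
  simp only [KM, SB, Set.mem_ofPred_eq, Set.mem_inter_iff, Set.mem_preimage]
  constructor
  · rintro ⟨h1, h2, h3, h4, h5, h6⟩
    have h7 : 1 / 2 ≤ z.im := by
      have h8 : ‖z‖ ≤ |z.re| + |z.im| := Complex.norm_le_abs_re_add_abs_im z
      rw [abs_of_pos h1] at h8
      linarith
    exact ⟨⟨⟨h2, h3, h4, h7⟩, h5⟩, ⟨⟨h2, h3, h4, h7⟩, h6⟩⟩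
  · rintro ⟨⟨⟨h2, h3, h4, h7⟩, h5⟩, ⟨-, h6⟩⟩
    exact ⟨by linarith, h2, h3, h4, h5, h6⟩

theorem SB_sub (M : ℕ) : SB M ⊆ HP := by
  intro z hz
  have := hz.2.2.2
  show 0 < z.im
  linarith

theorem isCompact_KM (h : Stmt_GEis) (M : ℕ) : IsCompact (KM M) := by
  have hc : IsClosed {w : ℂ | 1 ≤ (M : ℝ) * ‖w‖} :=
    isClosed_le continuous_const (continuous_const.mul continuous_norm)
  have h2 := ((cont_g2 h).mono (SB_sub M)).preimage_isClosed_of_isClosed (isClosed_SB M) hc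
  have h3 := ((cont_g3 h).mono (SB_sub M)).preimage_isClosed_of_isClosed (isClosed_SB M) hc
  rw [KM_eq]
  refine (isCompact_SB M).of_isClosed_subset (h2.inter h3) ?_
  intro z hz
  exact hz.1.1

theorem KM_sub (M : ℕ) : KM M ⊆ Good := by
  rintro z ⟨h1, -, -, -, h5, h6⟩
  refine ⟨h1, fun h => ?_, fun h => ?_⟩
  · rw [h, norm_zero, mul_zero] at h5
    linarith
  · rw [h, norm_zero, mul_zero] at h6
    linarith

theorem thm (h : Stmt_GEis) : Stmt_Cover := by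
  intro M
  have hex : ∀ z ∈ KM M, ∃ ρ : ℝ, 0 < ρ ∧ ball z (10 * ρ) ⊆ Good := by
    intro z hz
    obtain ⟨ε, hε, hb⟩ := Metric.isOpen_iff.1 (isOpen_Good h) z (KM_sub M hz)
    exact ⟨ε / 10, by positivity, by rwa [mul_div_cancel₀ _ (by norm_num : (10 : ℝ) ≠ 0)]⟩
  choose! ρ hρ hb using hex
  obtain ⟨t, ht, hcov⟩ := (isCompact_KM h M).elim_nhds_subcover (fun z => ball z (ρ z))
    (fun z hz => ball_mem_nhds z (hρ z hz))
  refine ⟨t.card, fun i => (t.equivFin.symm i : ℂ), fun i => ρ (t.equivFin.symm i : ℂ), ?_, ?_⟩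
  · intro i
    have hi : ((t.equivFin.symm i : t) : ℂ) ∈ KM M := ht _ (t.equivFin.symm i).2
    exact ⟨hρ _ hi, fun z hz => hb _ hi hz⟩
  · intro z hz
    obtain ⟨x, hx, hzx⟩ := Set.mem_iUnion₂.1 (hcov hz)
    rw [Set.mem_iUnion]
    refine ⟨t.equivFin ⟨x, hx⟩, ?_⟩
    simp only [Equiv.symm_apply_apply]
    exact ball_subset_closedBall hzx

end Pool.Agent.GPC.COVER
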