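import Pool.Agent.GPC.Defs

/-!
# GPC, module CRAM: Cramer's rule for kernel vectors
-/

open scoped BigOperators Topology
open Matrix

namespace Pool.Agent.GPC

noncomputable section

theorem cram_proof : Stmt_Cram := by
  classical
  intro a b L p hdet
  have hinj : Function.Injective p := by
    intro i j hij
    by_contra hne
    exact hdet (Matrix.det_zero_of_column_eq hne fun k => by simp [hij])
  refine ⟨hinj, ?_⟩
  intro v hv i
  set A := L.submatrix id p with hA
  have hsum : A *ᵥ (fun j => v (p j)) =
      - ∑ k ∈ Finset.univ.filter (fun k => ∀ j, p j ≠ k), v k • (fun i => L i k) := by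
    funext l
    have h1 := congrFun hv l
    simp only [Matrix.mulVec, dotProduct, Pi.zero_apply] at h1
    have h2 : ∑ k, L l k * v k = ∑ k ∈ Finset.univ.filter (fun k => ∀ j, p j ≠ k), L l k * v k +
        ∑ k ∈ Finset.univ.filter (fun k => ¬ ∀ j, p j ≠ k), L l k * v k :=
      (Finset.sum_filter_add_sum_filter_not _ _ _).symm
    have h3 : ∑ k ∈ Finset.univ.filter (fun k => ¬ ∀ j, p j ≠ k), L l k * v k =
        ∑ j, L l (p j) * v (p j) := by
      have h4 : Finset.univ.filter (fun k => ¬ ∀ j, p j ≠ k) =
          Finset.univ.image p := by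
        ext k
        simp
      rw [h4, Finset.sum_image fun x _ y _ h => hinj h]
    rw [h2, h3] at h1
    simp only [Matrix.mulVec, dotProduct, hA, Matrix.submatrix_apply, id_eq, Pi.neg_apply,
      Finset.sum_apply, Pi.smul_apply, smul_eq_mul]
    rw [add_comm] at h1
    rw [eq_neg_of_add_eq_zero_left h1]
    congr 1
    exact Finset.sum_congr rfl fun k _ => mul_comm _ _
  have hcr : A.det * v (p i) = Matrix.cramer A (A *ᵥ (fun j => v (p j))) i := by
    rw [Matrix.cramer_eq_adjugate_mulVec, Matrix.mulVec_mulVec, Matrix.adjugate_mul,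
      Matrix.smul_mulVec, Matrix.one_mulVec]
    rfl
  have h5 : ∀ k, Matrix.cramer A (fun i => L i k) i =
      (L.submatrix id (Function.update p i k)).det := by
    intro k
    rw [Matrix.cramer_apply]
    congr 1
    ext r s
    rw [Matrix.updateCol_apply, Matrix.submatrix_apply]
    by_cases hs : s = i
    · subst hs
      simp
    · simp [hs, hA, Function.update_of_ne hs]
  rw [hsum, map_neg, map_sum] at hcr
  simp only [map_smul, Pi.neg_apply, Finset.sum_apply, Pi.smul_apply, smul_eq_mul, h5] at hcr
  have h6 : v (p i) = (A.det * v (p i)) / A.det := by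
    field_simp
  rw [h6, hcr, neg_div, Finset.sum_div]
  congr 1
  refine Finset.sum_congr rfl fun k _ => ?_
  ring

end

end Pool.Agent.GPC
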