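import Pool.Agent.GPC.Defs

open scoped BigOperators Topology
open Metric

namespace Pool.Agent.GPC.FIB

open Pool.Agent.GPC

theorem thm (hC : Stmt_Circ) : Stmt_Fib := by
  classical
  intro z0 ρ s hρ hs hnc
  obtain ⟨c0, Z, hc0, H⟩ := hC z0 ρ hρ (Fin 2) ![s, fun _ => 1] (by
    intro k
    fin_cases k
    · exact hs
    · exact differentiableOn_const _) (by
    intro d hd
    have h0 : d 0 = 0 := by
      by_contra h0
      obtain ⟨z, hz, hne⟩ := hnc (-(d 1 / d 0))
      apply hne
      have := hd z hz
      simp [Fin.sum_univ_two] at this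
      field_simp
      linear_combination this
    have h1 : d 1 = 0 := by
      have := hd z0 (mem_ball_self (by positivity))
      simpa [Fin.sum_univ_two, h0] using this
    ext k
    fin_cases k
    · exact h0
    · exact h1)
  refine ⟨Z, fun c T hT => ?_⟩
  obtain ⟨R, k, w, u, hR1, hR2, hk, hw, hu, hu0, hfac, hlow⟩ := H ![1, -c] (max 1 ‖c‖)
    (lt_of_lt_of_le one_pos (le_max_left _ _)) (by
      rcases le_total 1 ‖c‖ with h | h
      · exact ⟨1, by simp [max_eq_right h]⟩
      · exact ⟨0, by simp [max_eq_left h]⟩) (by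
      intro k
      fin_cases k
      · simp
      · simp)
  have hsub : T ⊆ Finset.univ.image w := by
    intro z hz
    obtain ⟨hz1, hz2⟩ := hT z hz
    have hzR : z ∈ closedBall z0 R := closedBall_subset_closedBall (by linarith) hz1
    have hz10 : z ∈ ball z0 (10 * ρ) := by
      rw [mem_closedBall] at hz1
      rw [mem_ball]
      linarith
    have h1 := hfac z hz10
    rw [Fin.sum_univ_two] at h1
    simp only [Matrix.cons_val_zero, Matrix.cons_val_one, one_mul, mul_one, hz2] at h1
    have h2 : (∏ j, (z - w j)) * u z = 0 := by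
      rw [← h1]; ring
    rcases mul_eq_zero.1 h2 with h3 | h3
    · obtain ⟨j, -, hj⟩ := Finset.prod_eq_zero_iff.1 h3
      exact Finset.mem_image.2 ⟨j, Finset.mem_univ _, (sub_eq_zero.1 hj).symm⟩
    · exact absurd h3 (hu0 z hzR)
  calc T.card ≤ (Finset.univ.image w).card := Finset.card_le_card hsub
    _ ≤ (Finset.univ : Finset (Fin k)).card := Finset.card_image_le
    _ = k := by simp
    _ ≤ Z := hk

end Pool.Agent.GPC.FIB
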