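import Pool.Agent.GPC.Ell

/-!
# GPC, module FIBER: few models
-/

open scoped BigOperators Topology
open Metric UpperHalfPlane ModularForm EisensteinSeries Filter

namespace Pool.Agent.GPC.FIBER

lemma nonconst {z0 : ℂ} {ρ : ℝ} (h : Indep 3 z0 ρ sc fc) (c : ℂ) :
    ∃ z ∈ ball z0 (10 * ρ), sc z ≠ c := by
  by_contra hcon
  push Not at hcon
  have h1 := h.ind (MvPolynomial.X none - MvPolynomial.C c) (by
    intro z hz
    simp [pt, hcon z hz])
  have h2 := congrArg (MvPolynomial.eval (fun _ => c + 1)) h1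
  simp at h2

lemma data (hP : Stmt_PerM) {M : ℕ} {a b : ℤ} {L : PeriodPair} (hR : Reduced L)
    (hM : IsModel L a b) (hK : L.ω₁ / L.ω₂ ∈ KM M) :
    sc (L.ω₁ / L.ω₂) = -4 * (a : ℂ) ^ 3 / (b : ℂ) ^ 2 ∧
      L.ω₂ ^ 2 = (a : ℂ) / b * hc (L.ω₁ / L.ω₂) := by
  obtain ⟨-, -, -, h2, h3⟩ := hP L hR.1
  set τ := L.ω₁ / L.ω₂ with hτ
  have hw : L.ω₂ ≠ 0 := by
    intro h0
    have := hR.1
    rw [h0] at this
    simp at this
  have hg2 : g2c τ ≠ 0 := by
    intro h0
    have := hK.2.2.2.2.1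
    rw [h0] at this
    simp at this
    linarith
  have hg3 : g3c τ ≠ 0 := by
    intro h0
    have := hK.2.2.2.2.2
    rw [h0] at this
    simp at this
    linarith
  have e2 : g2c τ = L.ω₂ ^ 4 * (-4 * (a : ℂ)) := by
    rw [← hM.1, h2]
    field_simp
  have e3 : g3c τ = L.ω₂ ^ 6 * (-4 * (b : ℂ)) := by
    rw [← hM.2, h3]
    field_simp
  have ha : (a : ℂ) ≠ 0 := by
    intro h0
    apply hg2
    rw [e2, h0]
    ring
  have hb : (b : ℂ) ≠ 0 := by
    intro h0
    apply hg3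
    rw [e3, h0]
    ring
  refine ⟨?_, ?_⟩
  · unfold sc
    rw [e2, e3]
    field_simp
  · unfold hc
    rw [e2, e3]
    field_simp

theorem thm (h1 : Stmt_Cover) (h2 : Stmt_Fib) (h3 : Stmt_Ind3) (h4 : Stmt_PerM) :
    Stmt_Fiber := by
  classical
  intro M
  obtain ⟨k, z0, ρ, hball, hcov⟩ := h1 M
  have hfib : ∀ i, ∃ C : ℕ, ∀ (c : ℂ) (T : Finset ℂ),
      (∀ z ∈ T, z ∈ closedBall (z0 i) (ρ i) ∧ sc z = c) → T.card ≤ C := by
    intro i
    have hi := h3 (z0 i) (ρ i) (hball i).1 (hball i).2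
    exact h2 (z0 i) (ρ i) sc (hball i).1 hi.ds (nonconst hi)
  choose C hC using hfib
  refine ⟨2 * ∑ i, C i, ?_⟩
  intro a b T hT
  have hT' : ∀ v ∈ T, v 0 ∈ KM M ∧ sc (v 0) = -4 * (a : ℂ) ^ 3 / (b : ℂ) ^ 2 ∧
      v 1 ^ 2 = (a : ℂ) / b * hc (v 0) ∧ v = ![v 0, v 1, G2c (v 0)] := by
    intro v hv
    obtain ⟨L, hR, hM, hK, rfl⟩ := hT v hv
    have hd := data h4 hR hM hK
    refine ⟨?_, ?_, ?_, ?_⟩
    · simpa [tvec] using hK
    · simpa [tvec] using hd.1
    · simpa [tvec] using hd.2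
    · funext j
      fin_cases j <;> simp [tvec]
  have hfiber : ∀ τ ∈ T.image (fun v => v 0), (T.filter (fun v => v 0 = τ)).card ≤ 2 := by
    intro τ hτ
    obtain ⟨u, hu, rfl⟩ := Finset.mem_image.mp hτ
    have hsub : T.filter (fun v => v 0 = u 0) ⊆
        {![u 0, u 1, G2c (u 0)], ![u 0, -u 1, G2c (u 0)]} := by
      intro v hv
      rw [Finset.mem_filter] at hv
      obtain ⟨hvT, hv0⟩ := hv
      obtain ⟨-, -, hv1, hv2⟩ := hT' v hvT
      obtain ⟨-, -, hu1, -⟩ := hT' u hu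
      have hsq : v 1 ^ 2 = u 1 ^ 2 := by
        rw [hv1, hu1, hv0]
      rcases sq_eq_sq_iff_eq_or_eq_neg.mp hsq with h | h
      · rw [Finset.mem_insert]
        left
        rw [hv2, h, hv0]
      · rw [Finset.mem_insert, Finset.mem_singleton]
        right
        rw [hv2, h, hv0]
    exact (Finset.card_le_card hsub).trans Finset.card_le_two
  have himg : (T.image (fun v => v 0)).card ≤ ∑ i, C i := by
    have hcover : T.image (fun v => v 0) ⊆ Finset.univ.biUnion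
        (fun i : Fin k => (T.image (fun v => v 0)).filter
          (fun z => z ∈ closedBall (z0 i) (ρ i))) := by
      intro z hz
      obtain ⟨v, hv, hvz⟩ := Finset.mem_image.mp hz
      have hzK : z ∈ KM M := by
        rw [← hvz]
        exact (hT' v hv).1
      have := hcov hzK
      rw [Set.mem_iUnion] at this
      obtain ⟨i, hi⟩ := this
      rw [Finset.mem_biUnion]
      exact ⟨i, Finset.mem_univ _, Finset.mem_filter.mpr ⟨hz, hi⟩⟩
    refine (Finset.card_le_card hcover).trans (Finset.card_biUnion_le.trans ?_)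
    refine Finset.sum_le_sum ?_
    intro i _
    refine hC i (-4 * (a : ℂ) ^ 3 / (b : ℂ) ^ 2) _ ?_
    intro z hz
    rw [Finset.mem_filter] at hz
    refine ⟨hz.2, ?_⟩
    obtain ⟨v, hv, hvz⟩ := Finset.mem_image.mp hz.1
    rw [← hvz]
    exact (hT' v hv).2.1
  calc T.card ≤ 2 * (T.image (fun v => v 0)).card :=
        Finset.card_le_mul_card_image T 2 hfiber
    _ ≤ 2 * ∑ i, C i := Nat.mul_le_mul_left 2 himg

end Pool.Agent.GPC.FIBER
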