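import Pool.Agent.GPC.Ell

/-!
# GPC, module FINAL: assembly of the final statement
-/

open scoped BigOperators Topology
open Metric UpperHalfPlane Filter

namespace Pool.Agent.GPC.FINAL

open Pool.Agent.GPC

noncomputable section

lemma box_card (X : ℕ) : (box X).card = (2 * X ^ 2 + 1) * (2 * X ^ 3 + 1) := by
  unfold box
  rw [Finset.card_product, Int.card_Icc, Int.card_Icc]
  congr 1
  · have : ((X : ℤ) ^ 2 + 1 - -(X : ℤ) ^ 2) = ((2 * X ^ 2 + 1 : ℕ) : ℤ) := by push_cast; ring
    rw [this, Int.toNat_natCast]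
  · have : ((X : ℤ) ^ 3 + 1 - -(X : ℤ) ^ 3) = ((2 * X ^ 3 + 1 : ℕ) : ℤ) := by push_cast; ring
    rw [this, Int.toNat_natCast]

lemma box_ge (X : ℕ) : (X : ℝ) ^ 5 ≤ (box X).card := by
  rw [box_card]
  push_cast
  have hX : (0 : ℝ) ≤ X := Nat.cast_nonneg X
  nlinarith [pow_nonneg hX 2, pow_nonneg hX 3, pow_nonneg hX 5]

lemma box_pos (X : ℕ) : (0 : ℝ) < (box X).card := by
  rw [box_card]; positivity

open Classical in
/-- The tuples in the box one of whose entries is in a given set are few. -/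
lemma card_one_bad {g : ℕ} (X : ℕ) (R : ℤ × ℤ → Prop) (δ : ℝ)
    (hR : (((box X).filter R).card : ℝ) ≤ δ * (box X).card) (i : Fin g) :
    (((Fintype.piFinset fun _ : Fin g => box X).filter (fun p => R (p i))).card : ℝ) ≤
      δ * ((box X).card : ℝ) ^ g := by
  have hsub : (Fintype.piFinset fun _ : Fin g => box X).filter (fun p => R (p i)) ⊆
      Fintype.piFinset (Function.update (fun _ : Fin g => box X) i ((box X).filter R)) := by
    intro p hp
    rw [Finset.mem_filter, Fintype.mem_piFinset] at hp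
    rw [Fintype.mem_piFinset]
    intro j
    by_cases hj : j = i
    · subst hj
      rw [Function.update_self, Finset.mem_filter]
      exact ⟨hp.1 j, hp.2⟩
    · rw [Function.update_of_ne hj]
      exact hp.1 j
  have h1 := Finset.card_le_card hsub
  have h2 : (Fintype.piFinset (Function.update (fun _ : Fin g => box X) i
      ((box X).filter R))).card = ((box X).filter R).card *
        (box X).card ^ (Finset.univ \ {i} : Finset (Fin g)).card := by
    rw [Fintype.card_piFinset]
    have : ∀ j : Fin g, (Function.update (fun _ : Fin g => box X) i ((box X).filter R) j).card =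
        Function.update (fun _ : Fin g => (box X).card) i ((box X).filter R).card j := by
      intro j
      by_cases hj : j = i
      · subst hj; simp
      · simp [Function.update_of_ne hj]
    rw [Finset.prod_congr rfl (fun j _ => this j),
      Finset.prod_update_of_mem (Finset.mem_univ i), Finset.prod_const]
  have h3 : g = (Finset.univ \ {i} : Finset (Fin g)).card + 1 := by
    have := Finset.card_sdiff_add_card_eq_card (Finset.subset_univ ({i} : Finset (Fin g)))
    rw [Finset.card_singleton, Finset.card_univ, Fintype.card_fin] at this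
    omega
  set k := (Finset.univ \ {i} : Finset (Fin g)).card with hk
  calc (((Fintype.piFinset fun _ : Fin g => box X).filter (fun p => R (p i))).card : ℝ)
      ≤ (((box X).filter R).card * (box X).card ^ k : ℕ) := by
        rw [← h2]; exact_mod_cast h1
    _ = (((box X).filter R).card : ℝ) * ((box X).card : ℝ) ^ k := by push_cast; ring
    _ ≤ (δ * (box X).card) * ((box X).card : ℝ) ^ k := by
        apply mul_le_mul_of_nonneg_right hR; positivity
    _ = δ * ((box X).card : ℝ) ^ g := by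
        rw [h3, pow_succ]; ring

open Classical in
lemma card_sub_eq {α : Type} (s : Finset α) (R : α → Prop) :
    Nat.card {x : α // x ∈ s ∧ R x} = (s.filter R).card := by
  apply Nat.subtype_card
  intro x
  rw [Finset.mem_filter]

theorem thm (hI : Stmt_Induc) (hR : Stmt_Region) (hT : Stmt_TransA) (hP : Stmt_PerM) :
    Stmt_Final := by
  classical
  intro g D A
  refine ⟨fun L hL => (hP L hL.1).2.2.1, ?_⟩
  obtain ⟨D1, A1, hT⟩ := hT g D A
  rw [Metric.tendsto_atTop]
  intro ε hε
  set δ : ℝ := ε / (2 * (g + 1)) with hδ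
  have hδ0 : 0 < δ := by positivity
  obtain ⟨M, X0, hR⟩ := hR δ hδ0
  obtain ⟨C, hI⟩ := hI M g D1 A1
  obtain ⟨X1, hX1⟩ := exists_nat_gt (2 * |C| / ε + 2)
  refine ⟨max X0 (max X1 2), fun X hX => ?_⟩
  have hX0 : X0 ≤ X := le_trans (le_max_left _ _) hX
  have hXX1 : X1 ≤ X := le_trans (le_trans (le_max_left _ _) (le_max_right _ _)) hX
  have hX2 : 2 ≤ X := le_trans (le_trans (le_max_right _ _) (le_max_right _ _)) hX
  have hR := hR X hX0
  have hI := hI X hX2
  have hB := box_pos X
  set B : ℝ := ((box X).card : ℝ) with hBdef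
  -- the sets
  set Rset : ℤ × ℤ → Prop := fun p => ∃ L : PeriodPair, Reduced L ∧ IsModel L p.1 p.2 ∧
    L.ω₁ / L.ω₂ ∉ KM M with hRset
  set Iset : (Fin g → ℤ × ℤ) → Prop := fun p => ∃ L : Fin g → PeriodPair,
    (∀ i, Reduced (L i) ∧ IsModel (L i) (p i).1 (p i).2 ∧ (L i).ω₁ / (L i).ω₂ ∈ KM M) ∧
    ¬ Free D1 (X ^ A1) (cvec L) with hIset
  have hR' : (((box X).filter Rset).card : ℝ) ≤ δ * (box X).card := by
    rw [← card_sub_eq]
    exact hR
  set U := Fintype.piFinset fun _ : Fin g => box X with hU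
  have hI' : ((U.filter Iset).card : ℝ) ≤ C * (X : ℝ) ^ (5 * g) / (X : ℝ) ^ 2 := by
    refine le_trans (le_of_eq ?_) hI
    rw [← card_sub_eq]
    congr 1
    apply Nat.card_congr
    apply Equiv.subtypeEquivRight
    intro p
    rw [hU, Fintype.mem_piFinset]
  have hbad : Nat.card {p : Fin g → ℤ × ℤ // (∀ i, p i ∈ box X) ∧ Bad D (X ^ A) p} =
      (U.filter (fun p => Bad D (X ^ A) p)).card := by
    rw [← card_sub_eq]
    apply Nat.card_congr
    apply Equiv.subtypeEquivRight
    intro p
    rw [hU, Fintype.mem_piFinset]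
  have hsub : U.filter (fun p => Bad D (X ^ A) p) ⊆
      (Finset.univ.biUnion fun i : Fin g => U.filter (fun p => Rset (p i))) ∪
        U.filter Iset := by
    intro p hp
    rw [Finset.mem_filter] at hp
    obtain ⟨hpU, L, hL, P, hPs, hPn, hPv⟩ := hp
    rw [Finset.mem_union]
    by_cases h : ∃ i, (L i).ω₁ / (L i).ω₂ ∉ KM M
    · left
      obtain ⟨i, hi⟩ := h
      rw [Finset.mem_biUnion]
      refine ⟨i, Finset.mem_univ i, ?_⟩
      rw [Finset.mem_filter]
      exact ⟨hpU, L i, (hL i).1, (hL i).2, hi⟩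
    · right
      push Not at h
      rw [Finset.mem_filter]
      exact ⟨hpU, L, fun i => ⟨(hL i).1, (hL i).2, h i⟩,
        hT X hX2 L (fun i => (hL i).1) P hPs hPn hPv⟩
  have hcard : ((U.filter (fun p => Bad D (X ^ A) p)).card : ℝ) ≤
      g * (δ * B ^ g) + C * (X : ℝ) ^ (5 * g) / (X : ℝ) ^ 2 := by
    have h1 : (U.filter (fun p => Bad D (X ^ A) p)).card ≤
        ∑ i : Fin g, (U.filter (fun p => Rset (p i))).card + (U.filter Iset).card :=
      le_trans (Finset.card_le_card hsub) (le_trans (Finset.card_union_le _ _)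
        (Nat.add_le_add_right Finset.card_biUnion_le _))
    have h2 : ((∑ i : Fin g, (U.filter (fun p => Rset (p i))).card + (U.filter Iset).card : ℕ)
        : ℝ) ≤ g * (δ * B ^ g) + C * (X : ℝ) ^ (5 * g) / (X : ℝ) ^ 2 := by
      push_cast
      refine add_le_add ?_ hI'
      calc ∑ i : Fin g, ((U.filter (fun p => Rset (p i))).card : ℝ)
          ≤ ∑ _i : Fin g, δ * B ^ g :=
            Finset.sum_le_sum (fun i _ => card_one_bad X Rset δ hR' i)
        _ = g * (δ * B ^ g) := by
            rw [Finset.sum_const, Finset.card_univ, Fintype.card_fin, nsmul_eq_mul]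
    exact le_trans (by exact_mod_cast h1) h2
  rw [Real.dist_eq, sub_zero, hbad]
  have hBg : 0 < B ^ g := by positivity
  rw [abs_of_nonneg (by positivity), div_lt_iff₀ hBg]
  have hXr : (2 : ℝ) ≤ X := by exact_mod_cast hX2
  have hXpos : (0 : ℝ) < X := by linarith
  have hX5 : (X : ℝ) ^ (5 * g) ≤ B ^ g := by
    rw [pow_mul]
    exact pow_le_pow_left₀ (by positivity) (box_ge X) g
  have h4 : C * (X : ℝ) ^ (5 * g) / (X : ℝ) ^ 2 ≤ |C| / (X : ℝ) ^ 2 * B ^ g := by
    have : C * (X : ℝ) ^ (5 * g) ≤ |C| * B ^ g :=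
      mul_le_mul (le_abs_self C) hX5 (by positivity) (abs_nonneg C)
    calc C * (X : ℝ) ^ (5 * g) / (X : ℝ) ^ 2 ≤ |C| * B ^ g / (X : ℝ) ^ 2 := by gcongr
      _ = |C| / (X : ℝ) ^ 2 * B ^ g := by ring
  have h5 : |C| / (X : ℝ) ^ 2 < ε / 2 := by
    have hX1' : 2 * |C| / ε + 2 < X := lt_of_lt_of_le hX1 (by exact_mod_cast hXX1)
    have h6 : 2 * |C| < ε * X := by
      have : 2 * |C| / ε < X := by linarith
      rw [div_lt_iff₀ hε] at this
      linarith
    rw [div_lt_iff₀ (by positivity)]
    nlinarith [mul_pos hε hXpos]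
  have h7 : (g : ℝ) * δ ≤ ε / 2 := by
    rw [hδ]
    have hg : (0 : ℝ) ≤ g := Nat.cast_nonneg g
    rw [mul_div_assoc', div_le_div_iff₀ (by positivity) (by norm_num)]
    nlinarith
  calc ((U.filter (fun p => Bad D (X ^ A) p)).card : ℝ)
      ≤ g * (δ * B ^ g) + C * (X : ℝ) ^ (5 * g) / (X : ℝ) ^ 2 := hcard
    _ ≤ (g * δ) * B ^ g + |C| / (X : ℝ) ^ 2 * B ^ g := by linarith
    _ < ε / 2 * B ^ g + ε / 2 * B ^ g := by
        apply add_lt_add_of_le_of_lt
        · exact mul_le_mul_of_nonneg_right h7 hBg.le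
        · exact mul_lt_mul_of_pos_right h5 hBg
    _ = ε * B ^ g := by ring

end

end Pool.Agent.GPC.FINAL
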