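import Pool.Agent.GPC.Ell

open UpperHalfPlane ModularForm EisensteinSeries

namespace Pool.Agent.GPC.GEIS

lemma G_eq (τ : ℍ) (k : ℕ) :
    (Lt τ).G k = ∑' v : Fin 2 → ℤ, eisSummand (k : ℤ) v τ := by
  have h1 : (Lt τ).G k = ∑' x : ℤ × ℤ, (((x.1 : ℂ) * (τ : ℂ) + (x.2 : ℂ)) ^ k)⁻¹ := by
    unfold PeriodPair.G
    rw [← ((Lt τ).latticeEquivProd.symm.toEquiv).tsum_eq]
    refine tsum_congr fun x => ?_
    have h2 := (Lt τ).latticeEquiv_symm_apply x
    have h3 : (((Lt τ).latticeEquivProd.symm.toEquiv x : (Lt τ).lattice) : ℂ)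
        = (x.1 : ℂ) * (τ : ℂ) + (x.2 : ℂ) := by
      have h4 : (((Lt τ).latticeEquivProd.symm x : (Lt τ).lattice) : ℂ)
        = (x.1 : ℂ) * (τ : ℂ) + (x.2 : ℂ) := by
        rw [h2]
        simp [Lt]
      exact h4
    rw [h3]
  rw [h1, ← (finTwoArrowEquiv ℤ).tsum_eq]
  refine tsum_congr fun v => ?_
  simp [eisSummand, finTwoArrowEquiv]

lemma zeta6 : riemannZeta 6 = (Real.pi : ℂ) ^ 6 / 945 := by
  have h := riemannZeta_two_mul_nat (k := 3) (by norm_num)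
  have hb : bernoulli 6 = 1 / 42 := by decide +kernel
  have h6 : (2 * ((3 : ℕ) : ℂ)) = 6 := by norm_num
  rw [h6] at h
  rw [h]
  norm_num [hb, Nat.factorial]
  ring

lemma E_eq (τ : ℍ) (k : ℕ) (hk : 3 ≤ k) :
    eisensteinSeries (N := 1) 0 (k : ℤ) τ = 2 * E hk τ := by
  have h2 : E hk τ = (1 / 2 : ℂ) • eisensteinSeriesSIF (N := 1) 0 k τ := rfl
  rw [h2, eisensteinSeriesSIF_apply, smul_eq_mul]
  ring

theorem thm : Stmt_GEis := by
  intro τ
  constructor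
  · unfold PeriodPair.g₂
    rw [G_eq, tsum_eisSummand_eq_riemannZeta_mul_eisensteinSeries (by norm_num), E_eq τ 4 (by norm_num)]
    push_cast
    rw [riemannZeta_four]
    ring
  · unfold PeriodPair.g₃
    rw [G_eq, tsum_eisSummand_eq_riemannZeta_mul_eisensteinSeries (by norm_num), E_eq τ 6 (by norm_num)]
    push_cast
    rw [zeta6]
    ring

end Pool.Agent.GPC.GEIS
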