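import Pool.Agent.GPC.Defs

/-!
# GPC, module GROW: a sequence of polynomial growth has a small relative increment
-/

open scoped BigOperators Topology
open Filter

namespace Pool.Agent.GPC

noncomputable section

theorem grow_proof : Stmt_Grow := by
  intro n N q hpos hmono hpoly
  by_contra hcon
  push Not at hcon
  -- `q ≥ 2`
  have hq2 : 2 ≤ q := by
    by_contra hq
    have h0 := hcon 0
    have h1 := hpos 1
    have h2 := hpos 0
    interval_cases q <;> simp at h0 <;> omega
  set c : ℝ := 1 + 1 / ((q : ℝ) - 1) with hc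
  have hq1 : (0 : ℝ) < (q : ℝ) - 1 := by
    have : (2 : ℝ) ≤ q := by exact_mod_cast hq2
    linarith
  have hc1 : 1 < c := by
    have : 0 < 1 / ((q : ℝ) - 1) := by positivity
    linarith
  have hstep : ∀ e, c * n e ≤ n (e + 1) := by
    intro e
    have h1 := hcon e
    have h2 := hmono e
    have h3 : ((n (e + 1) : ℕ) : ℝ) < (q : ℝ) * ((n (e + 1) : ℝ) - n e) := by
      have : ((n (e + 1) : ℕ) : ℝ) < ((q * (n (e + 1) - n e) : ℕ) : ℝ) := by exact_mod_cast h1
      rw [Nat.cast_mul, Nat.cast_sub h2] at this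
      exact this
    have h4 : (q : ℝ) * n e ≤ ((q : ℝ) - 1) * n (e + 1) := by nlinarith
    have h5 : c * n e = ((q : ℝ) * n e) / ((q : ℝ) - 1) := by
      rw [hc]
      field_simp
      ring
    rw [h5, div_le_iff₀ hq1]
    linarith
  have hexp : ∀ e, c ^ e ≤ n e := by
    intro e
    induction e with
    | zero =>
      have := hpos 0
      rw [pow_zero]
      exact_mod_cast this
    | succ e ih =>
      rw [pow_succ, mul_comm]
      exact (mul_le_mul_of_nonneg_left ih (by linarith)).trans (hstep e)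
  have hle : ∀ e : ℕ, c ^ e ≤ ((e : ℝ) + 1) ^ N := by
    intro e
    refine (hexp e).trans ?_
    exact_mod_cast hpoly e
  have htend : Tendsto (fun m : ℕ => (m : ℝ) ^ N / c ^ m) atTop (𝓝 0) :=
    tendsto_pow_const_div_const_pow_of_one_lt N hc1
  have hev := (htend.eventually (gt_mem_nhds (show (0 : ℝ) < 1 / c by positivity))).and
    (eventually_ge_atTop 1)
  obtain ⟨m, hm, hm1⟩ := hev.exists
  obtain ⟨e, rfl⟩ : ∃ e, m = e + 1 := ⟨m - 1, by omega⟩
  have hcp : 0 < c ^ (e + 1) := by positivity
  rw [div_lt_div_iff₀ hcp (by linarith), one_mul, pow_succ] at hm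
  have h6 := hle e
  push_cast at hm
  have h7 : ((e : ℝ) + 1) ^ N < c ^ e := lt_of_mul_lt_mul_right hm (by linarith)
  linarith

end

end Pool.Agent.GPC
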