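import Pool.Agent.GPC.Ell

/-!
# GPC, module HOM: homogeneity of the lattice functions
-/

open scoped BigOperators Topology
open Metric UpperHalfPlane ModularForm EisensteinSeries Filter

namespace Pool.Agent.GPC.HOM

noncomputable section

/-- multiplication by `c` as a bijection of the lattices -/
def mulEquiv (L L' : PeriodPair) (c : ℂ) (hc : c ≠ 0)
    (h : ∀ z : ℂ, z ∈ L.lattice ↔ c * z ∈ L'.lattice) : L.lattice ≃ L'.lattice where
  toFun l := ⟨c * l, (h l).1 l.2⟩
  invFun l := ⟨c⁻¹ * l, (h _).2 (by rw [mul_inv_cancel_left₀ hc]; exact l.2)⟩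
  left_inv l := by
    ext
    simp only
    rw [inv_mul_cancel_left₀ hc]
  right_inv l := by
    ext
    simp only
    rw [mul_inv_cancel_left₀ hc]

lemma wp (L L' : PeriodPair) (c : ℂ) (hc : c ≠ 0)
    (h : ∀ z : ℂ, z ∈ L.lattice ↔ c * z ∈ L'.lattice) (z : ℂ) :
    L'.weierstrassP (c * z) = (c ^ 2)⁻¹ * L.weierstrassP z := by
  unfold PeriodPair.weierstrassP
  rw [← (mulEquiv L L' c hc h).tsum_eq, ← tsum_mul_left]
  refine tsum_congr fun l => ?_
  have h1 : (((mulEquiv L L' c hc h) l : L'.lattice) : ℂ) = c * l := rfl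
  rw [h1, ← mul_sub, mul_pow, mul_pow]
  simp only [one_div, mul_inv]
  ring

lemma G_hom (L L' : PeriodPair) (c : ℂ) (hc : c ≠ 0)
    (h : ∀ z : ℂ, z ∈ L.lattice ↔ c * z ∈ L'.lattice) (n : ℕ) :
    L'.G n = (c ^ n)⁻¹ * L.G n := by
  unfold PeriodPair.G
  rw [← (mulEquiv L L' c hc h).tsum_eq, ← tsum_mul_left]
  refine tsum_congr fun l => ?_
  have h1 : (((mulEquiv L L' c hc h) l : L'.lattice) : ℂ) = c * l := rfl
  rw [h1, mul_pow, mul_inv]

theorem thm : Stmt_Hom := by
  intro L L' c hc h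
  refine ⟨wp L L' c hc h, ?_, ?_, ?_⟩
  · unfold PeriodPair.g₂
    rw [G_hom L L' c hc h]
    ring
  · unfold PeriodPair.g₃
    rw [G_hom L L' c hc h]
    ring
  · intro z ω
    unfold sper
    rw [← intervalIntegral.integral_const_mul]
    refine intervalIntegral.integral_congr fun t _ => ?_
    rw [show c * z + (t : ℂ) * (c * ω) = c * (z + t * ω) by ring, wp L L' c hc h]
    field_simp

end

end Pool.Agent.GPC.HOM
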