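import Pool.Agent.GPC.Defs

/-!
GPC/ID (helper92): upper bound for interpolation determinants.
-/

open scoped BigOperators Topology
open Metric Filter

namespace Pool.Agent.GPC.ID

noncomputable section

/-- Schwarz lemma for a zero of order `p` -/
theorem schwarz (ρ : ℝ) (hρ : 0 < ρ) (p : ℕ) : ∀ (f : ℂ → ℂ) (B : ℝ),
    DifferentiableOn ℂ f (ball 0 ρ) → (∀ t ∈ ball (0 : ℂ) ρ, ‖f t‖ ≤ B) →
    (∃ C : ℝ, ∀ᶠ t in 𝓝[≠] (0 : ℂ), ‖f t‖ ≤ C * ‖t‖ ^ p) →
    ∀ t ∈ ball (0 : ℂ) ρ, ‖f t‖ ≤ B * (‖t‖ / ρ) ^ p := by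
  induction p with
  | zero =>
    intro f B _ hB _ t ht
    simpa using hB t ht
  | succ p ih =>
    intro f B hf hB hO t ht
    obtain ⟨C, hC⟩ := hO
    have h0 : (0 : ℂ) ∈ ball (0 : ℂ) ρ := by simpa using hρ
    have hnhds : ball (0 : ℂ) ρ ∈ 𝓝 (0 : ℂ) := isOpen_ball.mem_nhds h0
    have hf0 : f 0 = 0 := by
      have hcont : ContinuousAt f 0 := (hf.differentiableAt hnhds).continuousAt
      have h1 : Tendsto f (𝓝[≠] 0) (𝓝 (f 0)) := hcont.tendsto.mono_left nhdsWithin_le_nhds
      have h2 : Tendsto f (𝓝[≠] 0) (𝓝 0) := by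
        rw [tendsto_zero_iff_norm_tendsto_zero]
        have h3 : Tendsto (fun t : ℂ => C * ‖t‖ ^ (p + 1)) (𝓝[≠] 0) (𝓝 0) := by
          have h4 : Tendsto (fun t : ℂ => C * ‖t‖ ^ (p + 1)) (𝓝 0) (𝓝 (C * ‖(0 : ℂ)‖ ^ (p + 1))) :=
            (continuous_const.mul (continuous_norm.pow (p + 1))).tendsto 0
          rw [norm_zero, zero_pow (Nat.succ_ne_zero p), mul_zero] at h4
          exact h4.mono_left nhdsWithin_le_nhds
        exact squeeze_zero' (Eventually.of_forall fun _ => norm_nonneg _) hC h3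
      exact tendsto_nhds_unique h1 h2
    have hg : DifferentiableOn ℂ (dslope f 0) (ball 0 ρ) :=
      (Complex.differentiableOn_dslope hnhds).2 hf
    have hfg : ∀ s : ℂ, f s = s * dslope f 0 s := by
      intro s
      have := sub_smul_dslope f 0 s
      rw [sub_zero, hf0, sub_zero, smul_eq_mul] at this
      exact this.symm
    have hgB : ∀ s ∈ ball (0 : ℂ) ρ, ‖dslope f 0 s‖ ≤ B / ρ := by
      intro s hs
      have hmaps : Set.MapsTo f (ball 0 ρ) (closedBall (f 0) B) := by
        intro u hu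
        rw [hf0, mem_closedBall_zero_iff]
        exact hB u hu
      exact Complex.norm_dslope_le_div_of_mapsTo_ball hf hmaps hs
    have hgO : ∃ C : ℝ, ∀ᶠ t in 𝓝[≠] (0 : ℂ), ‖dslope f 0 t‖ ≤ C * ‖t‖ ^ p := by
      refine ⟨C, ?_⟩
      filter_upwards [hC, self_mem_nhdsWithin] with s hs hs0
      have hs0' : 0 < ‖s‖ := norm_pos_iff.2 hs0
      rw [hfg s, norm_mul, pow_succ] at hs
      have : ‖s‖ * ‖dslope f 0 s‖ ≤ ‖s‖ * (C * ‖s‖ ^ p) := by linarith
      exact le_of_mul_le_mul_left this hs0'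
    have h6 := ih (dslope f 0) (B / ρ) hg hgB hgO t ht
    rw [hfg t, norm_mul]
    calc ‖t‖ * ‖dslope f 0 t‖ ≤ ‖t‖ * (B / ρ * (‖t‖ / ρ) ^ p) := by gcongr
      _ = B * (‖t‖ / ρ) ^ (p + 1) := by rw [pow_succ]; ring

/-- iterated difference quotients -/
def psi (f : ℂ → ℂ) : ℕ → ℂ → ℂ
  | 0 => f
  | j + 1 => dslope (psi f j) 0

theorem psi_diff (f : ℂ → ℂ) (ρ : ℝ) (hρ : 0 < ρ) (hf : DifferentiableOn ℂ f (ball 0 ρ)) (j : ℕ) :
    DifferentiableOn ℂ (psi f j) (ball 0 ρ) := by
  induction j with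
  | zero => exact hf
  | succ j ih =>
    exact (Complex.differentiableOn_dslope (isOpen_ball.mem_nhds (by simpa using hρ))).2 ih

theorem psi_taylor (f : ℂ → ℂ) (p : ℕ) (s : ℂ) :
    f s = ∑ j ∈ Finset.range p, s ^ j * psi f j 0 + s ^ p * psi f p s := by
  induction p with
  | zero => simp [psi]
  | succ p ih =>
    rw [Finset.sum_range_succ]
    have := sub_smul_dslope (psi f p) 0 s
    rw [sub_zero, smul_eq_mul] at this
    have h2 : psi f (p + 1) s = dslope (psi f p) 0 s := rfl
    rw [h2, ih]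
    linear_combination (-(s ^ p)) * this

theorem det_bound (M : ℕ) (A : Matrix (Fin M) (Fin M) ℂ) (x : ℝ) (hx : ∀ i j, ‖A i j‖ ≤ x) :
    ‖A.det‖ ≤ M.factorial * x ^ M := by
  have := Matrix.det_le (abv := NormedField.toAbsoluteValue ℂ) (A := A) (x := x) (fun i j => hx i j)
  rw [Fintype.card_fin, nsmul_eq_mul] at this
  exact this

theorem thm (hRD : Stmt_RankDet) : Stmt_ID := by
  intro M b p hb hp w r R Θ hr hrR z hz h hh hΘ y hy
  have hR : 0 < R := hr.trans hrR
  have hrR' : 1 < R / r := by rw [lt_div_iff₀ hr]; linarith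
  have hRr : 0 < R / r := by positivity
  have hmem : ∀ t ∈ ball (0 : ℂ) (R / r), ∀ l, w + t * (z l - w) ∈ ball w R := by
    intro t ht l
    rw [mem_ball_zero_iff] at ht
    rw [mem_ball, dist_eq_norm, add_sub_cancel_left, norm_mul]
    rcases eq_or_lt_of_le (norm_nonneg (z l - w)) with h1 | h1
    · rw [← h1, mul_zero]; exact hR
    · calc ‖t‖ * ‖z l - w‖ < R / r * ‖z l - w‖ := by gcongr
        _ ≤ R / r * r := by gcongr; exact hz l
        _ = R := by field_simp
  set D : ℂ → Matrix (Fin M) (Fin M) ℂ := fun t =>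
    Matrix.of fun l c => ∑ k, y l k * h c k (w + t * (z l - w)) with hD
  have hDentry : ∀ t ∈ ball (0 : ℂ) (R / r), ∀ l c, ‖D t l c‖ ≤ b * Θ := by
    intro t ht l c
    simp only [hD, Matrix.of_apply]
    refine (norm_sum_le _ _).trans ?_
    have h1 : ∀ k ∈ Finset.univ, ‖y l k * h c k (w + t * (z l - w))‖ ≤ Θ := by
      intro k _
      rw [norm_mul]
      have h2 := hΘ c k _ (hmem t ht l)
      calc ‖y l k‖ * ‖h c k (w + t * (z l - w))‖ ≤ 1 * Θ :=
            mul_le_mul (hy l k) h2 (norm_nonneg _) zero_le_one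
        _ = Θ := one_mul _
    refine (Finset.sum_le_sum h1).trans ?_
    simp
  have hDbound : ∀ t ∈ ball (0 : ℂ) (R / r), ‖(D t).det‖ ≤ M.factorial * (b * Θ) ^ M :=
    fun t ht => det_bound M _ _ (hDentry t ht)
  have hDdiff : DifferentiableOn ℂ (fun t => (D t).det) (ball 0 (R / r)) := by
    have h1 : ∀ l c, DifferentiableOn ℂ (fun t => D t l c) (ball 0 (R / r)) := by
      intro l c
      simp only [hD, Matrix.of_apply]
      refine DifferentiableOn.fun_sum fun k _ => ?_
      refine DifferentiableOn.const_mul ?_ _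
      have h2 : DifferentiableOn ℂ (fun t : ℂ => w + t * (z l - w)) (ball 0 (R / r)) :=
        ((differentiable_id.mul_const _).const_add w).differentiableOn
      exact (hh c k).comp h2 fun t ht => hmem t ht l
    simp only [Matrix.det_apply]
    refine DifferentiableOn.fun_sum fun σ _ => ?_
    refine DifferentiableOn.const_smul ?_ _
    exact DifferentiableOn.fun_finsetProd fun i _ => h1 (σ i) i
  -- Taylor expansion
  have hf0 : ∀ c k, DifferentiableOn ℂ (fun s => h c k (w + s)) (ball 0 R) := by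
    intro c k
    have h2 : DifferentiableOn ℂ (fun s : ℂ => w + s) (ball 0 R) :=
      (differentiable_id.const_add w).differentiableOn
    refine (hh c k).comp h2 fun s hs => ?_
    rw [mem_ball_zero_iff] at hs
    simpa [mem_ball, dist_eq_norm] using hs
  obtain ⟨C, hC⟩ := hRD M b p hb hp
    (fun j => Matrix.of fun l c => ∑ k, (y l k * (z l - w) ^ j) * psi (fun s => h c k (w + s)) j 0)
    (fun t => Matrix.of fun l c => ∑ k, y l k * (z l - w) ^ p *
      psi (fun s => h c k (w + s)) p (t * (z l - w)))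
    (by
      intro j _
      exact ⟨fun k l => y l k * (z l - w) ^ j, fun k c => psi (fun s => h c k (w + s)) j 0,
        fun l c => rfl⟩)
    (by
      intro l c
      simp only [Matrix.of_apply]
      refine tendsto_finsetSum _ fun k _ => ?_
      have h3 : ContinuousAt (psi (fun s => h c k (w + s)) p) 0 :=
        ((psi_diff _ R hR (hf0 c k) p).differentiableAt
          (isOpen_ball.mem_nhds (by simpa using hR))).continuousAt
      have h4 : ContinuousAt (fun t : ℂ => t * (z l - w)) 0 :=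
        (continuous_id.mul continuous_const).continuousAt
      have h5 : ContinuousAt (fun t : ℂ => psi (fun s => h c k (w + s)) p (t * (z l - w))) 0 :=
        ContinuousAt.comp (by simpa using h3) h4
      exact (continuousAt_const.mul h5))
  have hO : ∃ C : ℝ, ∀ᶠ t in 𝓝[≠] (0 : ℂ), ‖(D t).det‖ ≤ C * ‖t‖ ^ p := by
    refine ⟨C, ?_⟩
    have h6 : ∀ᶠ t in 𝓝[≠] (0 : ℂ), _ := nhdsWithin_le_nhds hC
    filter_upwards [h6] with t ht
    have h7 : D t = ∑ j ∈ Finset.range p, t ^ j •
        (Matrix.of fun l c => ∑ k, (y l k * (z l - w) ^ j) * psi (fun s => h c k (w + s)) j 0)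
        + t ^ p • (Matrix.of fun l c => ∑ k, y l k * (z l - w) ^ p *
          psi (fun s => h c k (w + s)) p (t * (z l - w))) := by
      ext l c
      simp only [hD, Matrix.of_apply, Matrix.add_apply, Matrix.smul_apply, smul_eq_mul,
        Matrix.sum_apply]
      have h8 : ∀ k, h c k (w + t * (z l - w)) = ∑ j ∈ Finset.range p, (t * (z l - w)) ^ j *
          psi (fun s => h c k (w + s)) j 0 + (t * (z l - w)) ^ p *
            psi (fun s => h c k (w + s)) p (t * (z l - w)) := fun k =>
        psi_taylor (fun s => h c k (w + s)) p (t * (z l - w))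
      simp_rw [h8, mul_add, Finset.sum_add_distrib, Finset.mul_sum]
      congr 1
      · rw [Finset.sum_comm]
        refine Finset.sum_congr rfl fun j _ => Finset.sum_congr rfl fun k _ => ?_
        rw [mul_pow]
        ring
      · refine Finset.sum_congr rfl fun k _ => ?_
        rw [mul_pow]
        ring
    rw [h7]
    exact ht
  have key := schwarz (R / r) hRr p (fun t => (D t).det) _ hDdiff hDbound hO 1
    (by simpa using hrR')
  have h9 : D 1 = Matrix.of fun l c => ∑ k, y l k * h c k (z l) := by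
    ext l c
    simp [hD]
  rw [h9] at key
  simpa [one_div_div] using key

end

end Pool.Agent.GPC.ID
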