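import Pool.Agent.GPC.Ell

/-!
GPC/IND3 (helper92): algebraic independence of `g₂ ^ 3 / g₃ ^ 2, τ, g₃ / g₂, G2`.
-/

open scoped BigOperators Topology
open Metric UpperHalfPlane ModularForm EisensteinSeries Filter

namespace Pool.Agent.GPC.IND3

noncomputable section

lemma g2_diff (hG : Stmt_GEis) : DifferentiableOn ℂ g2c {z | 0 < z.im} := by
  have h1 : DifferentiableOn ℂ ((E₄ : ℍ → ℂ) ∘ ofComplex) {z | 0 < z.im} :=
    UpperHalfPlane.mdifferentiable_iff.1 E₄.holo'
  refine (h1.const_mul (4 * (Real.pi : ℂ) ^ 4 / 3)).congr fun z _ => ?_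
  exact (hG (ofComplex z)).1

lemma g3_diff (hG : Stmt_GEis) : DifferentiableOn ℂ g3c {z | 0 < z.im} := by
  have h1 : DifferentiableOn ℂ ((E₆ : ℍ → ℂ) ∘ ofComplex) {z | 0 < z.im} :=
    UpperHalfPlane.mdifferentiable_iff.1 E₆.holo'
  refine (h1.const_mul (8 * (Real.pi : ℂ) ^ 6 / 27)).congr fun z _ => ?_
  exact (hG (ofComplex z)).2

lemma G2_diff : DifferentiableOn ℂ G2c {z | 0 < z.im} := by
  have h1 : DifferentiableOn ℂ (E2 ∘ ofComplex) {z | 0 < z.im} :=
    UpperHalfPlane.mdifferentiable_iff.1 E2_mdifferentiable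
  have h0 : (2 * riemannZeta 2 : ℂ) ≠ 0 :=
    mul_ne_zero two_ne_zero (riemannZeta_ne_zero_of_one_le_re (by simp))
  refine (h1.const_mul (2 * riemannZeta 2)).congr fun z _ => ?_
  show G2 (ofComplex z) = 2 * riemannZeta 2 * ((1 / (2 * riemannZeta 2)) • G2) (ofComplex z)
  rw [Pi.smul_apply, smul_eq_mul, one_div, mul_inv_cancel_left₀ h0]

/-- The exponents. -/
def ex (N : ℕ) (m : Option (Fin 3) →₀ ℕ) : Fin 4 →₀ ℕ :=
  Finsupp.equivFunOnFinite.symm ![m (some 0), m (some 2),
    N + 3 * m none - m (some 1), 2 * N + m (some 1) - 2 * m none]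

lemma ex_inj (N : ℕ) (m m' : Option (Fin 3) →₀ ℕ) (hm : m none ≤ N ∧ m (some 1) ≤ N)
    (hm' : m' none ≤ N ∧ m' (some 1) ≤ N) (h : ex N m = ex N m') : m = m' := by
  have h0 := DFunLike.congr_fun h 0
  have h1 := DFunLike.congr_fun h 1
  have h2 := DFunLike.congr_fun h 2
  have h3 := DFunLike.congr_fun h 3
  simp [ex] at h0 h1 h2 h3
  obtain ⟨a1, a2⟩ := hm
  obtain ⟨b1, b2⟩ := hm'
  have e1 : m none = m' none := by omega
  have e2 : m (some 1) = m' (some 1) := by omega
  ext o
  rcases o with _ | j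
  · exact e1
  · fin_cases j
    · exact h0
    · exact e2
    · exact h1

lemma le_deg {σ : Type} (Q : MvPolynomial σ ℂ) (m : σ →₀ ℕ) (hm : m ∈ Q.support) (o : σ) :
    m o ≤ Q.totalDegree := by
  have h1 := MvPolynomial.le_totalDegree hm
  refine le_trans ?_ h1
  by_cases ho : o ∈ m.support
  · exact Finset.single_le_sum (f := fun i => m i) (fun _ _ => Nat.zero_le _) ho
  · rw [Finsupp.notMem_support_iff.1 ho]
    exact Nat.zero_le _

theorem thm (h4 : Stmt_Ind4) (hG : Stmt_GEis) : Stmt_Ind3 := by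
  intro z0 ρ hρ hz
  have hsub : ball z0 (10 * ρ) ⊆ {z : ℂ | 0 < z.im} := fun z h => (hz z h).1
  have d2 : DifferentiableOn ℂ g2c (ball z0 (10 * ρ)) := (g2_diff hG).mono hsub
  have d3 : DifferentiableOn ℂ g3c (ball z0 (10 * ρ)) := (g3_diff hG).mono hsub
  have dG : DifferentiableOn ℂ G2c (ball z0 (10 * ρ)) := G2_diff.mono hsub
  refine ⟨hρ, ?_, ?_, ?_⟩
  · exact (d2.pow 3).div (d3.pow 2) fun z h => pow_ne_zero 2 (hz z h).2.2
  · intro j
    fin_cases j
    · exact differentiableOn_id
    · exact d3.div d2 fun z h => (hz z h).2.1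
    · exact dG
  · intro Q hQ
    by_contra hne
    set N := Q.totalDegree with hN
    set Q' : MvPolynomial (Fin 4) ℂ :=
      ∑ m ∈ Q.support, MvPolynomial.monomial (ex N m) (Q.coeff m) with hQ'
    have hbd : ∀ m ∈ Q.support, m none ≤ N ∧ m (some 1) ≤ N := fun m hm =>
      ⟨le_deg Q m hm none, le_deg Q m hm (some 1)⟩
    have hzero : Q' = 0 := by
      refine h4 z0 (10 * ρ) (by positivity) (fun z h => (hz z h).1) Q' fun z h => ?_
      obtain ⟨-, hg2, hg3⟩ := hz z h
      have h1 := hQ z h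
      rw [MvPolynomial.eval_eq'] at h1
      have h2 : MvPolynomial.eval ![z, G2c z, g2c z, g3c z] Q' =
          g2c z ^ N * g3c z ^ (2 * N) * ∑ m ∈ Q.support, Q.coeff m *
            ∏ i, pt (sc z) (fun j => fc j z) i ^ m i := by
        rw [hQ', map_sum, Finset.mul_sum]
        refine Finset.sum_congr rfl fun m hm => ?_
        obtain ⟨a1, a2⟩ := hbd m hm
        rw [MvPolynomial.eval_monomial, Finsupp.prod_fintype _ _ (fun i => pow_zero _),
          Fin.prod_univ_four, Fintype.prod_option, Fin.prod_univ_three]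
        simp only [ex, Finsupp.equivFunOnFinite_symm_apply_apply, pt, Option.elim_none,
          Option.elim_some, fc, sc, hc, Matrix.cons_val_zero, Matrix.cons_val_one,
          Matrix.cons_val]
        have e1 : g2c z ^ (N + 3 * m none - m (some 1)) * g2c z ^ m (some 1) =
            g2c z ^ N * g2c z ^ (3 * m none) := by
          rw [← pow_add, ← pow_add]
          congr 1
          omega
        have e2 : g3c z ^ (2 * N + m (some 1) - 2 * m none) * g3c z ^ (2 * m none) =
            g3c z ^ (2 * N) * g3c z ^ m (some 1) := by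
          rw [← pow_add, ← pow_add]
          congr 1
          omega
        rw [div_pow, div_pow, ← pow_mul, ← pow_mul]
        have p1 : g2c z ^ m (some 1) ≠ 0 := pow_ne_zero _ hg2
        have p2 : g3c z ^ (2 * m none) ≠ 0 := pow_ne_zero _ hg3
        have e1' : g2c z ^ (N + 3 * m none - m (some 1)) =
            g2c z ^ N * g2c z ^ (3 * m none) / g2c z ^ m (some 1) := by
          rw [eq_div_iff p1, e1]
        have e2' : g3c z ^ (2 * N + m (some 1) - 2 * m none) =
            g3c z ^ (2 * N) * g3c z ^ m (some 1) / g3c z ^ (2 * m none) := by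
          rw [eq_div_iff p2, e2]
        rw [e1', e2']
        field_simp
      rw [h2, h1, mul_zero]
    obtain ⟨m0, hm0⟩ := MvPolynomial.support_nonempty.2 hne
    have hc : MvPolynomial.coeff (ex N m0) Q' = Q.coeff m0 := by
      rw [hQ', MvPolynomial.coeff_sum, Finset.sum_eq_single m0]
      · rw [MvPolynomial.coeff_monomial, if_pos rfl]
      · intro m hm hmne
        rw [MvPolynomial.coeff_monomial, if_neg]
        intro heq
        exact hmne (ex_inj N m m0 (hbd m hm) (hbd m0 hm0) heq)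
      · intro hcon
        exact absurd hm0 hcon
    rw [hzero, MvPolynomial.coeff_zero] at hc
    exact (MvPolynomial.mem_support_iff.1 hm0) hc.symm

end

end Pool.Agent.GPC.IND3
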