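import Pool.Agent.GPC.Ell

/-!
# GPC: IND4, Mahler's theorem on the algebraic independence of `τ, G2, g₂, g₃`
-/

open scoped BigOperators Topology MatrixGroups
open Metric UpperHalfPlane ModularForm EisensteinSeries Filter

namespace Pool.Agent.GPC.IND4

noncomputable section

/-! ### Polynomials -/

theorem aeval_eval {n : ℕ} (f : Fin n → Polynomial ℂ) (Q : MvPolynomial (Fin n) ℂ) (x : ℂ) :
    (MvPolynomial.aeval f Q : Polynomial ℂ).eval x =
      MvPolynomial.eval (fun i => (f i).eval x) Q := by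
  induction Q using MvPolynomial.induction_on with
  | C a => simp
  | add p q hp hq => simp only [map_add, Polynomial.eval_add, hp, hq]
  | mul_X p i hp => simp only [map_mul, Polynomial.eval_mul, hp, MvPolynomial.aeval_X,
      MvPolynomial.eval_X]

theorem zero_of_infinite {n : ℕ} (f : Fin n → Polynomial ℂ) (Q : MvPolynomial (Fin n) ℂ)
    (S : Set ℂ) (hS : S.Infinite)
    (h : ∀ x ∈ S, MvPolynomial.eval (fun i => (f i).eval x) Q = 0) :
    ∀ x, MvPolynomial.eval (fun i => (f i).eval x) Q = 0 := by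
  have h0 : (MvPolynomial.aeval f Q : Polynomial ℂ) = 0 := by
    apply Polynomial.eq_zero_of_infinite_isRoot
    refine hS.mono fun x hx => ?_
    change (MvPolynomial.aeval f Q : Polynomial ℂ).eval x = 0
    rw [aeval_eval, h x hx]
  intro x
  rw [← aeval_eval, h0, Polynomial.eval_zero]

/-- four variables, each a polynomial in `x` -/
theorem zero4 (p0 p1 p2 p3 : Polynomial ℂ) (Q : MvPolynomial (Fin 4) ℂ)
    (S : Set ℂ) (hS : S.Infinite)
    (h : ∀ x ∈ S, MvPolynomial.eval ![p0.eval x, p1.eval x, p2.eval x, p3.eval x] Q = 0) :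
    ∀ x, MvPolynomial.eval ![p0.eval x, p1.eval x, p2.eval x, p3.eval x] Q = 0 := by
  have e : ∀ x : ℂ, (fun i => ((![p0, p1, p2, p3] : Fin 4 → Polynomial ℂ) i).eval x) =
      ![p0.eval x, p1.eval x, p2.eval x, p3.eval x] := by
    intro x
    funext i
    fin_cases i <;> rfl
  have h1 := zero_of_infinite ![p0, p1, p2, p3] Q S hS (fun x hx => by rw [e]; exact h x hx)
  intro x
  have h2 := h1 x
  rwa [e] at h2

theorem infinite_ints : (Set.range (fun n : ℤ => (n : ℂ))).Infinite :=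
  Set.infinite_range_of_injective Int.cast_injective

theorem infinite_compl (y : ℂ) : ({y}ᶜ : Set ℂ).Infinite :=
  (Set.finite_singleton y).infinite_compl

/-- `2 π i` -/
def tpi : ℂ := 2 * Real.pi * Complex.I

theorem tpi_ne : tpi ≠ 0 := by
  unfold tpi
  simp [Real.pi_ne_zero]

/-- the algebraic core: from the values at `γ τ` to all values -/
theorem core (Q : MvPolynomial (Fin 4) ℂ) (τ G A B : ℂ)
    (h : ∀ c k n : ℤ, (c : ℂ) * (τ + k) + 1 ≠ 0 →
      MvPolynomial.eval ![(τ + k) / (c * (τ + k) + 1) + n,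
        (c * (τ + k) + 1) ^ 2 * G - tpi * c * (c * (τ + k) + 1),
        (c * (τ + k) + 1) ^ 4 * A, (c * (τ + k) + 1) ^ 6 * B] Q = 0)
    (hne : ∀ c k : ℤ, (c : ℂ) * (τ + k) + 1 ≠ 0) :
    ∀ x y j : ℂ, j ≠ 0 → MvPolynomial.eval ![x, y, j ^ 4 * A, j ^ 6 * B] Q = 0 := by
  -- translations
  have h1 : ∀ (c k : ℤ) (x : ℂ), MvPolynomial.eval ![x,
        (c * (τ + k) + 1) ^ 2 * G - tpi * c * (c * (τ + k) + 1),
        (c * (τ + k) + 1) ^ 4 * A, (c * (τ + k) + 1) ^ 6 * B] Q = 0 := by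
    intro c k x
    have h2 := zero4 (Polynomial.C ((τ + k) / (c * (τ + k) + 1)) + Polynomial.X)
      (Polynomial.C ((c * (τ + k) + 1) ^ 2 * G - tpi * c * (c * (τ + k) + 1)))
      (Polynomial.C ((c * (τ + k) + 1) ^ 4 * A)) (Polynomial.C ((c * (τ + k) + 1) ^ 6 * B)) Q
      _ infinite_ints (by
        rintro _ ⟨n, rfl⟩
        simpa using h c k n (hne c k)) (x - (τ + k) / (c * (τ + k) + 1))
    simpa using h2
  -- `k` complex
  have h3 : ∀ (c : ℤ) (k x : ℂ), MvPolynomial.eval ![x,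
        (c * (τ + k) + 1) ^ 2 * G - tpi * c * (c * (τ + k) + 1),
        (c * (τ + k) + 1) ^ 4 * A, (c * (τ + k) + 1) ^ 6 * B] Q = 0 := by
    intro c k x
    set J : Polynomial ℂ := Polynomial.C (c : ℂ) * (Polynomial.C τ + Polynomial.X) + 1 with hJ
    have hJe : ∀ y : ℂ, J.eval y = c * (τ + y) + 1 := by
      intro y
      simp [hJ]
    have h2 := zero4 (Polynomial.C x) (J ^ 2 * Polynomial.C G - Polynomial.C (tpi * c) * J)
      (J ^ 4 * Polynomial.C A) (J ^ 6 * Polynomial.C B) Q _ infinite_ints (by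
        rintro _ ⟨n, rfl⟩
        simpa [hJe] using h1 c n x) k
    simpa [hJe] using h2
  -- `c` complex
  have h4 : ∀ c k x : ℂ, MvPolynomial.eval ![x,
        (c * (τ + k) + 1) ^ 2 * G - tpi * c * (c * (τ + k) + 1),
        (c * (τ + k) + 1) ^ 4 * A, (c * (τ + k) + 1) ^ 6 * B] Q = 0 := by
    intro c k x
    set J : Polynomial ℂ := Polynomial.X * Polynomial.C (τ + k) + 1 with hJ
    have hJe : ∀ y : ℂ, J.eval y = y * (τ + k) + 1 := by
      intro y
      simp [hJ]
    have h2 := zero4 (Polynomial.C x)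
      (J ^ 2 * Polynomial.C G - Polynomial.C tpi * Polynomial.X * J)
      (J ^ 4 * Polynomial.C A) (J ^ 6 * Polynomial.C B) Q _ infinite_ints (by
        rintro _ ⟨n, rfl⟩
        simpa [hJe] using h3 n k x) c
    simpa [hJe] using h2
  intro x y j hj
  have h5 := zero4 (Polynomial.C x) Polynomial.X (Polynomial.C (j ^ 4 * A))
    (Polynomial.C (j ^ 6 * B)) Q _ (infinite_compl (j ^ 2 * G)) (by
      intro y hy
      have hy' : y ≠ j ^ 2 * G := hy
      set c : ℂ := (j ^ 2 * G - y) / (tpi * j) with hc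
      have hc0 : c ≠ 0 := by
        rw [hc]
        exact div_ne_zero (sub_ne_zero.mpr hy'.symm) (mul_ne_zero tpi_ne hj)
      have h6 := h4 c ((j - 1) / c - τ) x
      have h7 : c * (τ + ((j - 1) / c - τ)) + 1 = j := by
        field_simp
        ring
      have h8 : tpi * c * j = j ^ 2 * G - y := by
        rw [hc]
        have := tpi_ne
        field_simp
      rw [h7, h8, sub_sub_cancel] at h6
      simpa using h6) y
  simpa using h5

/-! ### The modular transformations -/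

/-- the matrix with lower row `c, 1 + k c` -/
def gm (c k n : ℤ) : SL(2, ℤ) :=
  ⟨!![1 + n * c, k + n * (1 + k * c); c, 1 + k * c], by
    rw [Matrix.det_fin_two_of]
    ring⟩

theorem denom_gm (c k n : ℤ) (τ : ℍ) :
    denom (gm c k n : GL (Fin 2) ℝ) τ = c * (τ + k) + 1 := by
  rw [ModularGroup.denom_apply]
  simp [gm]
  ring

theorem J_ne (c k : ℤ) (τ : ℍ) : (c : ℂ) * (τ + k) + 1 ≠ 0 := by
  rw [← denom_gm c k 0 τ]
  exact denom_ne_zero _ _

theorem coe_gm (c k n : ℤ) (τ : ℍ) :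
    ((gm c k n • τ : ℍ) : ℂ) = (τ + k) / (c * (τ + k) + 1) + n := by
  rw [coe_specialLinearGroup_apply]
  have h := J_ne c k τ
  have h2 : ((c : ℝ) : ℂ) * τ + ((1 + k * c : ℝ) : ℂ) ≠ 0 := by
    intro h0
    apply h
    push_cast at h0
    linear_combination h0
  simp only [gm, Matrix.of_apply, Matrix.cons_val_zero, Matrix.cons_val_one,
    Matrix.cons_val', Matrix.cons_val_fin_one, algebraMap_int_eq, eq_intCast]
  push_cast
  have h3 : (c : ℂ) * τ + (1 + k * c) ≠ 0 := by
    intro h0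
    apply h
    linear_combination h0
  rw [div_add' _ _ _ h, div_eq_div_iff h3 h]
  ring

theorem G2_gm (c k n : ℤ) (τ : ℍ) : G2 (gm c k n • τ) =
    (c * (τ + k) + 1) ^ 2 * G2 τ - tpi * c * (c * (τ + k) + 1) := by
  have h := congr_fun (G2_slash_action (gm c k n)) τ
  rw [SL_slash_apply, denom_gm] at h
  have hJ := J_ne c k τ
  have h2 : D2 (gm c k n) τ = tpi * c / (c * (τ + k) + 1) := by
    unfold D2
    rw [denom_gm]
    rfl
  rw [Pi.sub_apply, h2, zpow_neg] at h
  have h3 : G2 (gm c k n • τ) = (G2 τ - tpi * c / (c * (τ + k) + 1)) *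
      (c * (τ + k) + 1) ^ (2 : ℤ) := by
    rw [← h]
    field_simp
  rw [h3, zpow_ofNat]
  field_simp

theorem E4_gm (c k n : ℤ) (τ : ℍ) : E₄ (gm c k n • τ) = (c * (τ + k) + 1) ^ 4 * E₄ τ := by
  have h := (slash_action_eq'_iff 4 E₄ (gm c k n) τ).mp (by
    rw [SL_slash, SlashInvariantForm.slash_action_eqn]
    exact ⟨gm c k n, rfl⟩)
  rw [h]
  congr 1
  have : (c : ℂ) * (τ + k) + 1 = (gm c k n 1 0 : ℂ) * τ + (gm c k n 1 1 : ℂ) := by
    rw [← denom_gm c k n τ, ModularGroup.denom_apply]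
  rw [this]
  norm_cast

theorem E6_gm (c k n : ℤ) (τ : ℍ) : E₆ (gm c k n • τ) = (c * (τ + k) + 1) ^ 6 * E₆ τ := by
  have h := (slash_action_eq'_iff 6 E₆ (gm c k n) τ).mp (by
    rw [SL_slash, SlashInvariantForm.slash_action_eqn]
    exact ⟨gm c k n, rfl⟩)
  rw [h]
  congr 1
  have : (c : ℂ) * (τ + k) + 1 = (gm c k n 1 0 : ℂ) * τ + (gm c k n 1 1 : ℂ) := by
    rw [← denom_gm c k n τ, ModularGroup.denom_apply]
  rw [this]
  norm_cast

/-! ### Infinitely many values of `g₂ ^ 3 / g₃ ^ 2` -/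

/-- the constants of `g₂, g₃` -/
def al : ℂ := 4 * (Real.pi : ℂ) ^ 4 / 3
/-- the constants of `g₂, g₃` -/
def be : ℂ := 8 * (Real.pi : ℂ) ^ 6 / 27

theorem pi_ne : (Real.pi : ℂ) ≠ 0 := by
  simp [Real.pi_ne_zero]

theorem al_ne : al ≠ 0 := by
  simp [al, Real.pi_ne_zero]

theorem be_ne : be ≠ 0 := by
  simp [be, Real.pi_ne_zero]

theorem tendsto_form {k : ℤ} (f : ModularForm 𝒮ℒ k) :
    Tendsto f atImInfty (𝓝 ((qExpansion 1 f).coeff 0)) := by
  have hanal := ModularFormClass.analyticAt_cuspFunction_zero f one_pos one_mem_strictPeriods_SL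
  have hper := SlashInvariantFormClass.periodic_comp_ofComplex f one_mem_strictPeriods_SL
  rw [qExpansion_coeff_zero one_pos hanal hper, ← cuspFunction_apply_zero one_pos hanal hper]
  exact (hanal.continuousAt.tendsto.comp (qParam_tendsto_atImInfty one_pos)).congr
    (fun τ ↦ SlashInvariantFormClass.eq_cuspFunction f τ one_mem_strictPeriods_SL one_ne_zero)

theorem values_infinite :
    {s : ℂ | ∃ τ : ℍ, be * E₆ τ ≠ 0 ∧ s = (al * E₄ τ) ^ 3 / (be * E₆ τ) ^ 2}.Infinite := by
  intro hfin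
  have h4 : Tendsto (fun τ : ℍ => E₄ τ) atImInfty (𝓝 1) := by
    have := tendsto_form E₄
    rwa [E_qExpansion_coeff_zero _ ⟨2, rfl⟩] at this
  have h6 : Tendsto (fun τ : ℍ => E₆ τ) atImInfty (𝓝 1) := by
    have := tendsto_form E₆
    rwa [E_qExpansion_coeff_zero _ ⟨3, rfl⟩] at this
  have hlim : Tendsto (fun τ : ℍ => (al * E₄ τ) ^ 3 / (be * E₆ τ) ^ 2) atImInfty
      (𝓝 ((al * 1) ^ 3 / (be * 1) ^ 2)) := by
    apply Tendsto.div
    · exact (h4.const_mul al).pow 3
    · exact (h6.const_mul be).pow 2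
    · rw [mul_one]
      exact pow_ne_zero 2 be_ne
  have hne : ∀ᶠ τ in atImInfty, E₆ τ ≠ 0 := h6.eventually_ne one_ne_zero
  set S := {s : ℂ | ∃ τ : ℍ, be * E₆ τ ≠ 0 ∧ s = (al * E₄ τ) ^ 3 / (be * E₆ τ) ^ 2} with hS
  have hnot : (al * 1) ^ 3 / (be * 1) ^ 2 ∉ S := by
    rintro ⟨τ, h1, h2⟩
    have hE6 : E₆ τ ≠ 0 := right_ne_zero_of_mul h1
    have h3 : E₄ τ ^ 3 = E₆ τ ^ 2 := by
      have ha := al_ne
      have hb := be_ne
      rw [mul_one, mul_one, div_eq_div_iff (pow_ne_zero 2 hb) (pow_ne_zero 2 h1)] at h2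
      have h5 : al ^ 3 * be ^ 2 * (E₄ τ ^ 3 - E₆ τ ^ 2) = 0 := by
        linear_combination -h2
      rcases mul_eq_zero.mp h5 with h7 | h7
      · exact absurd h7 (mul_ne_zero (pow_ne_zero 3 ha) (pow_ne_zero 2 hb))
      · exact sub_eq_zero.mp h7
    have h8 := discriminant_eq_E₄_cube_sub_E₆_sq τ
    rw [h3, sub_self, zero_div] at h8
    exact discriminant_ne_zero τ h8
  have hopen : Sᶜ ∈ 𝓝 ((al * 1) ^ 3 / (be * 1) ^ 2) :=
    hfin.isClosed.isOpen_compl.mem_nhds hnot
  have hneBot : (atImInfty : Filter ℍ).NeBot := inferInstance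
  obtain ⟨τ, h1, h2⟩ := ((hlim.eventually hopen).and hne).exists
  exact h1 ⟨τ, mul_ne_zero be_ne h2, rfl⟩

/-! ### Analyticity -/

theorem an_E {k : ℤ} (f : ModularForm 𝒮ℒ k) :
    DifferentiableOn ℂ (fun z => f (ofComplex z)) {z : ℂ | 0 < z.im} :=
  UpperHalfPlane.mdifferentiable_iff.mp (ModularFormClass.holo f)

theorem an_G2 : DifferentiableOn ℂ G2c {z : ℂ | 0 < z.im} := by
  have h1 := UpperHalfPlane.mdifferentiable_iff.mp E2_mdifferentiable
  have hz : riemannZeta 2 ≠ 0 := riemannZeta_ne_zero_of_one_lt_re (by norm_num)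
  have h2 : G2c = fun z => (2 * riemannZeta 2) * (E2 ∘ ofComplex) z := by
    funext z
    unfold G2c
    simp only [Function.comp_apply, E2, Pi.smul_apply, smul_eq_mul]
    field_simp
  rw [h2]
  exact h1.const_mul _

theorem thm (hG : Stmt_GEis) : Stmt_Ind4 := by
  intro z0 ρ hρ hball Q hQ
  have hU : IsOpen {z : ℂ | 0 < z.im} := isOpen_lt continuous_const Complex.continuous_im
  have hUc : IsPreconnected {z : ℂ | 0 < z.im} := (convex_halfSpace_im_gt 0).isPreconnected
  have hg2 : g2c = fun z => al * E₄ (ofComplex z) := by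
    funext z
    exact (hG (ofComplex z)).1
  have hg3 : g3c = fun z => be * E₆ (ofComplex z) := by
    funext z
    exact (hG (ofComplex z)).2
  have han : AnalyticOnNhd ℂ (fun z => MvPolynomial.eval ![z, G2c z, g2c z, g3c z] Q)
      {z : ℂ | 0 < z.im} := by
    intro z hz
    have h0 : AnalyticAt ℂ (fun z : ℂ => z) z := analyticAt_id
    have h1 : AnalyticAt ℂ G2c z := (an_G2.analyticOnNhd hU) z hz
    have h2 : AnalyticAt ℂ g2c z := by
      rw [hg2]
      exact (((an_E E₄).const_mul al).analyticOnNhd hU) z hz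
    have h3 : AnalyticAt ℂ g3c z := by
      rw [hg3]
      exact (((an_E E₆).const_mul be).analyticOnNhd hU) z hz
    have h4 : AnalyticAt ℂ (fun z => MvPolynomial.aeval ![z, G2c z, g2c z, g3c z] Q) z := by
      apply AnalyticAt.aeval_mvPolynomial
      intro i
      fin_cases i
      · exact h0
      · exact h1
      · exact h2
      · exact h3
    simpa [MvPolynomial.aeval_eq_eval] using h4
  have hz0 : z0 ∈ {z : ℂ | 0 < z.im} := hball z0 (mem_ball_self hρ)
  have hzero : ∀ z ∈ {z : ℂ | 0 < z.im},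
      MvPolynomial.eval ![z, G2c z, g2c z, g3c z] Q = 0 := by
    have h1 := han.eqOn_zero_of_preconnected_of_eventuallyEq_zero hUc hz0 (by
      filter_upwards [ball_mem_nhds z0 hρ] with z hz
      exact hQ z hz)
    intro z hz
    exact h1 hz
  have hrel : ∀ τ : ℍ, MvPolynomial.eval ![(τ : ℂ), G2 τ, al * E₄ τ, be * E₆ τ] Q = 0 := by
    intro τ
    have h1 := hzero τ τ.im_pos
    rw [hg2, hg3] at h1
    unfold G2c at h1
    simp only [ofComplex_apply] at h1
    exact h1
  -- the modular group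
  have hcore : ∀ (τ : ℍ) (x y j : ℂ), j ≠ 0 →
      MvPolynomial.eval ![x, y, j ^ 4 * (al * E₄ τ), j ^ 6 * (be * E₆ τ)] Q = 0 := by
    intro τ
    apply core Q τ (G2 τ) (al * E₄ τ) (be * E₆ τ) _ (fun c k => J_ne c k τ)
    intro c k n _
    have h1 := hrel (gm c k n • τ)
    rw [coe_gm, G2_gm, E4_gm, E6_gm] at h1
    rw [mul_left_comm _ al, mul_left_comm _ be]
    exact h1
  -- all values
  have hV : ∀ x y U V : ℂ, V ≠ 0 → MvPolynomial.eval ![x, y, U, V] Q = 0 := by
    intro x y U V hV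
    have hinf : {U : ℂ | MvPolynomial.eval ![x, y, U, V] Q = 0}.Infinite := by
      apply Set.Infinite.of_image (fun U => U ^ 3 / V ^ 2)
      refine values_infinite.mono ?_
      rintro _ ⟨τ, h1, rfl⟩
      obtain ⟨j, hj⟩ := IsAlgClosed.exists_pow_nat_eq (V / (be * E₆ τ)) (n := 6) (by norm_num)
      have hj0 : j ≠ 0 := by
        rintro rfl
        rw [zero_pow (by norm_num)] at hj
        exact div_ne_zero hV h1 hj.symm
      have hjV : j ^ 6 * (be * E₆ τ) = V := by
        rw [hj, div_mul_cancel₀ _ h1]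
      refine ⟨j ^ 4 * (al * E₄ τ), ?_, ?_⟩
      · have h2 := hcore τ x y j hj0
        rw [hjV] at h2
        exact h2
      · simp only
        rw [← hjV]
        field_simp
    have h3 := zero4 (Polynomial.C x) (Polynomial.C y) Polynomial.X (Polynomial.C V) Q _ hinf (by
      intro U hU
      simpa using hU) U
    simpa using h3
  have hall : ∀ x y U V : ℂ, MvPolynomial.eval ![x, y, U, V] Q = 0 := by
    intro x y U V
    have h3 := zero4 (Polynomial.C x) (Polynomial.C y) (Polynomial.C U) Polynomial.X Q _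
      (infinite_compl 0) (by
        intro V hV'
        have := hV x y U V hV'
        simpa using this) V
    simpa using h3
  apply MvPolynomial.funext
  intro v
  rw [map_zero]
  have hv : v = ![v 0, v 1, v 2, v 3] := by
    funext i
    fin_cases i <;> rfl
  rw [hv]
  exact hall _ _ _ _

end

end Pool.Agent.GPC.IND4
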