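import Pool.Agent.GPC.Defs

/-!
# Linearly independent functions have a nonzero interpolation determinant
-/

open scoped BigOperators

namespace Pool.Agent.GPC.INDDET

theorem thm : Stmt_IndDet := by
  intro α ι _ _ T g h
  classical
  let v : T → (ι → ℂ) := fun a i => g i a
  have hspan : Submodule.span ℂ (Set.range v) = ⊤ := by
    by_contra hne
    obtain ⟨φ, hφ0, hφ⟩ := Submodule.exists_dual_map_eq_bot_of_lt_top
      (lt_top_iff_ne_top.2 hne) inferInstance
    apply hφ0
    have h1 : (fun i => φ (Pi.single i 1)) = 0 := by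
      apply h
      intro a ha
      have h2 : φ (v ⟨a, ha⟩) = 0 := by
        have : φ (v ⟨a, ha⟩) ∈ (Submodule.span ℂ (Set.range v)).map φ :=
          ⟨_, Submodule.subset_span ⟨_, rfl⟩, rfl⟩
        rw [hφ] at this
        simpa using this
      rw [← h2, LinearMap.pi_apply_eq_sum_univ φ (v ⟨a, ha⟩)]
      refine Finset.sum_congr rfl fun i _ => ?_
      rw [smul_eq_mul, mul_comm]
      congr 2
      ext j
      simp [Pi.single_apply, eq_comm]
    refine LinearMap.ext fun x => ?_
    rw [LinearMap.pi_apply_eq_sum_univ φ x, LinearMap.zero_apply]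
    refine Finset.sum_eq_zero fun i _ => ?_
    have h3 := congrFun h1 i
    have h4 : (fun j => if i = j then (1 : ℂ) else 0) = Pi.single i 1 := by
      ext j
      simp [Pi.single_apply, eq_comm]
    rw [h4]
    simp only [Pi.zero_apply] at h3
    rw [h3, smul_zero]
  obtain ⟨κ, f, hf, hs, hli⟩ := exists_linearIndependent' ℂ v
  rw [hspan] at hs
  have : Finite κ := Finite.of_injective f hf
  have := Fintype.ofFinite κ
  let B := Module.Basis.mk hli (by rw [hs])
  have hcard : Fintype.card ι = Fintype.card κ := by
    have := Module.finrank_eq_card_basis B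
    rw [← this]
    simp
  let e : ι ≃ κ := Fintype.equivOfCardEq hcard
  refine ⟨fun i => (f (e i) : α), fun i => (f (e i)).2, ?_⟩
  have h3 : LinearIndependent ℂ (Matrix.of fun l c => g c (f (e l) : α)).row :=
    hli.comp e e.injective
  have h4 := (Matrix.linearIndependent_rows_iff_isUnit.1 h3)
  rw [Matrix.isUnit_iff_isUnit_det] at h4
  exact h4.ne_zero

end Pool.Agent.GPC.INDDET
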