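import Pool.Agent.GPC.Ell
import Pool.Agent.FDR.Stmts

/-!
# GPC module INDUC: induction on the number of curves
-/

open scoped BigOperators Topology
open Metric UpperHalfPlane ModularForm EisensteinSeries Filter

namespace Pool.Agent.GPC.INDUC

noncomputable section

open Classical in
/-- A set all of whose finite subsets have at most `C` elements is finite. -/
lemma fin_of_bdd {α : Type} (S : Set α) (C : ℕ)
    (h : ∀ T : Finset α, (∀ v ∈ T, v ∈ S) → T.card ≤ C) :
    ∃ F : Finset α, (∀ v, v ∈ F ↔ v ∈ S) ∧ F.card ≤ C := by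
  have hfin : S.Finite := by
    by_contra hinf
    obtain ⟨t, ht, hc⟩ := Set.Infinite.exists_subset_card_eq hinf (C + 1)
    have := h t (fun v hv => ht (Finset.mem_coe.mpr hv))
    omega
  refine ⟨hfin.toFinset, fun v => hfin.mem_toFinset, h _ fun v hv => hfin.mem_toFinset.mp hv⟩

/-- The vector of constants attached to the coordinate vectors. -/
def mkc {g : ℕ} (w : Fin g → Fin 3 → ℂ) : Option (Fin g × Fin 3) → ℂ :=
  fun o => o.elim (-(2 * Real.pi * Complex.I)) (fun p => w p.1 p.2)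

lemma cvec_eq {g : ℕ} (L : Fin g → PeriodPair) : cvec L = mkc (fun i => tvec (L i)) := rfl

/-- Freeness does not depend on the names of the variables. -/
lemma free_rename {ι κ : Type} (e : ι ≃ κ) (D B : ℕ) (c : κ → ℂ) (h : Free D B (c ∘ e)) :
    Free D B c := by
  intro Q hQ h0
  have h1 : MvPolynomial.rename e.symm Q = 0 := by
    apply h
    · constructor
      · exact (MvPolynomial.totalDegree_rename_le _ _).trans hQ.1
      · intro m
        have : m = Finsupp.mapDomain e.symm (Finsupp.mapDomain e m) := by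
          rw [← Finsupp.mapDomain_comp]
          simp
        rw [this, MvPolynomial.coeff_rename_mapDomain _ e.symm.injective]
        exact hQ.2 _
    · rw [MvPolynomial.aeval_rename]
      have : (c ∘ e) ∘ e.symm = c := by
        funext x
        simp
      rw [this, h0]
  exact (MvPolynomial.rename_injective _ e.symm.injective) (by rw [h1, map_zero])

/-- The equivalence of index sets for the step from `g` to `g + 1`. -/
def idx (g : ℕ) : Option (Fin g × Fin 3) ⊕ Fin 3 → Option (Fin (g + 1) × Fin 3) :=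
  Sum.elim (fun o => o.elim none (fun p => some (p.1.castSucc, p.2)))
    (fun j => some (Fin.last g, j))

lemma idx_bij (g : ℕ) : Function.Bijective (idx g) := by
  constructor
  · rintro (o | j) (o' | j') h
    · rcases o with _ | ⟨i, j⟩ <;> rcases o' with _ | ⟨i', j'⟩ <;> simp [idx] at h ⊢
      exact h
    · rcases o with _ | ⟨i, j⟩ <;> simp [idx] at h
    · rcases o' with _ | ⟨i, j⟩ <;> simp [idx] at h
      exact absurd h.1 (Fin.castSucc_lt_last i).ne'
    · simpa [idx] using h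
  · rintro (_ | ⟨i, j⟩)
    · exact ⟨Sum.inl none, rfl⟩
    · refine Fin.lastCases ?_ (fun i => ?_) i
      · exact ⟨Sum.inr j, rfl⟩
      · exact ⟨Sum.inl (some (i, j)), rfl⟩

lemma free_snoc {g : ℕ} (D B : ℕ) (L : Fin (g + 1) → PeriodPair)
    (h : Free D B (Sum.elim (cvec (fun i : Fin g => L i.castSucc)) (tvec (L (Fin.last g))))) :
    Free D B (cvec L) := by
  apply free_rename (Equiv.ofBijective (idx g) (idx_bij g))
  convert h using 1
  funext x
  rcases x with (_ | ⟨i, j⟩) | j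
  · rfl
  · rfl
  · rfl

/-- `-(2 π i)` is transcendental. -/
lemma base (hpi : Pool.Agent.FDR.Stmt_PiTr) (D B : ℕ) (L : Fin 0 → PeriodPair) :
    Free D B (cvec L) := by
  intro Q _ h0
  by_contra hQ
  have htr : Transcendental ℤ (-(2 * Real.pi * Complex.I) : ℂ) := by
    have h1 : Transcendental ℚ (-(2 * Real.pi * Complex.I) : ℂ) := by
      intro halg
      apply hpi
      have hI : IsAlgebraic ℚ Complex.I :=
        ⟨Polynomial.X ^ 2 + 1, by
          intro h
          have := congrArg (Polynomial.eval 0) h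
          simp at this, by simp⟩
      have h2 : IsAlgebraic ℚ (-(2 * Real.pi * Complex.I) * Complex.I : ℂ) := halg.mul hI
      have h3 : (-(2 * Real.pi * Complex.I) * Complex.I : ℂ) = 2 * (Real.pi : ℂ) := by
        have := Complex.I_mul_I
        linear_combination (-2 * (Real.pi : ℂ)) * this
      rw [h3] at h2
      have h4 : IsAlgebraic ℚ ((2 : ℂ)⁻¹ * (2 * (Real.pi : ℂ))) := by
        refine IsAlgebraic.mul ?_ h2
        have : ((2 : ℂ)⁻¹) = algebraMap ℚ ℂ (2⁻¹) := by simp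
        rw [this]
        exact isAlgebraic_algebraMap _
      rw [inv_mul_cancel_left₀ (by norm_num)] at h4
      have h5 : ((Real.pi : ℝ) : ℂ) = algebraMap ℝ ℂ Real.pi := rfl
      rw [h5] at h4
      exact (isAlgebraic_algebraMap_iff (algebraMap ℝ ℂ).injective).mp h4
    intro h
    exact h1 ((IsFractionRing.isAlgebraic_iff ℤ ℚ ℂ).mp h)
  -- the polynomial in one variable
  let e : Option (Fin 0 × Fin 3) ≃ Unit :=
    { toFun := fun _ => (), invFun := fun _ => none,
      left_inv := by rintro (_ | ⟨i, _⟩)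
                     · rfl
                     · exact i.elim0
      right_inv := fun _ => rfl }
  have hQ' : MvPolynomial.uniqueAlgEquiv ℤ Unit (MvPolynomial.rename e Q) ≠ 0 := by
    intro h
    apply hQ
    have h1 := (MvPolynomial.uniqueAlgEquiv ℤ Unit).injective (by rw [h, map_zero] :
      MvPolynomial.uniqueAlgEquiv ℤ Unit (MvPolynomial.rename e Q) =
        MvPolynomial.uniqueAlgEquiv ℤ Unit 0)
    exact (MvPolynomial.rename_injective _ e.injective) (by rw [h1, map_zero])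
  apply htr
  refine ⟨_, hQ', ?_⟩
  have key : (Polynomial.aeval (-(2 * Real.pi * Complex.I) : ℂ)).comp
      ((MvPolynomial.uniqueAlgEquiv ℤ Unit : MvPolynomial Unit ℤ →ₐ[ℤ] Polynomial ℤ).comp
        (MvPolynomial.rename e)) = MvPolynomial.aeval (cvec L) := by
    apply MvPolynomial.algHom_ext
    rintro (_ | ⟨i, _⟩)
    · have h1 : MvPolynomial.rename e (MvPolynomial.X none : MvPolynomial _ ℤ) =
          MvPolynomial.X () := MvPolynomial.rename_X _ _
      rw [AlgHom.comp_apply, AlgHom.comp_apply, h1, MvPolynomial.aeval_X]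
      change Polynomial.aeval (-(2 * Real.pi * Complex.I) : ℂ)
        (MvPolynomial.eval₂ Polynomial.C (fun _ => Polynomial.X)
          (MvPolynomial.X () : MvPolynomial Unit ℤ)) = _
      rw [MvPolynomial.eval₂_X, Polynomial.aeval_X]
      rfl
    · exact i.elim0
  have := congrArg (fun φ => φ Q) key
  simpa [h0] using this

lemma card_box (X : ℕ) (hX : 1 ≤ X) : ((box X).card : ℝ) ≤ 9 * (X : ℝ) ^ 5 := by
  have h1 : (box X).card = (2 * X ^ 2 + 1) * (2 * X ^ 3 + 1) := by
    unfold box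
    rw [Finset.card_product, Int.card_Icc, Int.card_Icc]
    congr 1
    · have : ((X : ℤ) ^ 2 + 1 - -(X : ℤ) ^ 2) = ((2 * X ^ 2 + 1 : ℕ) : ℤ) := by
        push_cast
        ring
      rw [this, Int.toNat_natCast]
    · have : ((X : ℤ) ^ 3 + 1 - -(X : ℤ) ^ 3) = ((2 * X ^ 3 + 1 : ℕ) : ℤ) := by
        push_cast
        ring
      rw [this, Int.toNat_natCast]
  have h2 : (2 * X ^ 2 + 1) ≤ 3 * X ^ 2 := by
    have : 1 ≤ X ^ 2 := Nat.one_le_pow _ _ hX
    omega
  have h3 : (2 * X ^ 3 + 1) ≤ 3 * X ^ 3 := by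
    have : 1 ≤ X ^ 3 := Nat.one_le_pow _ _ hX
    omega
  have h4 : (box X).card ≤ 9 * X ^ 5 := by
    rw [h1]
    calc (2 * X ^ 2 + 1) * (2 * X ^ 3 + 1) ≤ (3 * X ^ 2) * (3 * X ^ 3) :=
          Nat.mul_le_mul h2 h3
      _ = 9 * X ^ 5 := by ring
  exact_mod_cast h4

open Classical in
/-- The counting step. -/
lemma count_step {g : ℕ} (BX : Finset (ℤ × ℤ)) (P : (Fin (g + 1) → ℤ × ℤ) → Prop)
    (P' : (Fin g → ℤ × ℤ) → Prop) (F : ℤ × ℤ → Finset (Fin 3 → ℂ)) (C3 : ℕ)
    (hF : ∀ q, (F q).card ≤ C3)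
    (G : (Fin g → Fin 3 → ℂ) → Prop) (S : (Fin g → Fin 3 → ℂ) → ℤ × ℤ → Prop) (C1 : ℝ)
    (hC1 : 0 ≤ C1)
    (hS : ∀ w, G w → (Nat.card {q : ℤ × ℤ // q ∈ BX ∧ S w q} : ℝ) ≤ C1)
    (hP : ∀ p, (∀ i, p i ∈ BX) → P p → P' (fun i => p i.castSucc) ∨
      ∃ w : Fin g → Fin 3 → ℂ, (∀ i, w i ∈ F (p i.castSucc)) ∧ G w ∧ S w (p (Fin.last g))) :
    (Nat.card {p : Fin (g + 1) → ℤ × ℤ // (∀ i, p i ∈ BX) ∧ P p} : ℝ) ≤
      (Nat.card {p : Fin g → ℤ × ℤ // (∀ i, p i ∈ BX) ∧ P' p} : ℝ) * BX.card +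
        (BX.card : ℝ) ^ g * (C3 : ℝ) ^ g * C1 := by
  set A : Finset (Fin g → ℤ × ℤ) := Fintype.piFinset (fun _ : Fin g => BX) with hA
  have hAc : A.card = BX.card ^ g := by
    rw [hA, Fintype.card_piFinset]
    simp
  have e1 : Nat.card {p : Fin (g + 1) → ℤ × ℤ // (∀ i, p i ∈ BX) ∧ P p} =
      ((Fintype.piFinset (fun _ : Fin (g + 1) => BX)).filter P).card :=
    Nat.subtype_card _ (fun p => by simp)
  have e2 : Nat.card {p : Fin g → ℤ × ℤ // (∀ i, p i ∈ BX) ∧ P' p} = (A.filter P').card :=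
    Nat.subtype_card _ (fun p => by simp [hA])
  have e3 : ∀ w, Nat.card {q : ℤ × ℤ // q ∈ BX ∧ S w q} = (BX.filter (S w)).card := fun w =>
    Nat.subtype_card _ (fun p => by simp)
  rw [e1, e2]
  let W : (Fin g → ℤ × ℤ) → Finset (Fin g → Fin 3 → ℂ) := fun p' =>
    Fintype.piFinset (fun i => F (p' i))
  have hW : ∀ p', (W p').card ≤ C3 ^ g := by
    intro p'
    simp only [W]
    rw [Fintype.card_piFinset]
    calc ∏ i, (F (p' i)).card ≤ ∏ _i : Fin g, C3 := Finset.prod_le_prod' (fun i _ => hF _)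
      _ = C3 ^ g := by simp
  let U1 : Finset ((Fin g → ℤ × ℤ) × (ℤ × ℤ)) := (A.filter P') ×ˢ BX
  let U2 : Finset ((Fin g → ℤ × ℤ) × (ℤ × ℤ)) := A.biUnion fun p' =>
    ((W p').filter G).biUnion fun w => ({p'} : Finset _) ×ˢ (BX.filter (S w))
  have hsub : ((Fintype.piFinset (fun _ : Fin (g + 1) => BX)).filter P).card ≤
      (U1 ∪ U2).card := by
    apply Finset.card_le_card_of_injOn
      (fun p => ((fun i : Fin g => p i.castSucc), p (Fin.last g)))
    · intro p hp
      have hp1 : ∀ i, p i ∈ BX := by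
        have := (Finset.mem_filter.mp (Finset.mem_coe.mp hp)).1
        exact fun i => Fintype.mem_piFinset.mp this i
      have hp2 : P p := (Finset.mem_filter.mp (Finset.mem_coe.mp hp)).2
      have hpA : (fun i : Fin g => p i.castSucc) ∈ A :=
        Fintype.mem_piFinset.mpr (fun i => hp1 _)
      rw [Finset.mem_coe, Finset.mem_union]
      rcases hP p hp1 hp2 with h | ⟨w, hw, hG, hSw⟩
      · left
        exact Finset.mem_product.mpr ⟨Finset.mem_filter.mpr ⟨hpA, h⟩, hp1 _⟩
      · right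
        refine Finset.mem_biUnion.mpr ⟨_, hpA, Finset.mem_biUnion.mpr ⟨w, ?_, ?_⟩⟩
        · exact Finset.mem_filter.mpr ⟨Fintype.mem_piFinset.mpr hw, hG⟩
        · exact Finset.mem_product.mpr ⟨Finset.mem_singleton_self _,
            Finset.mem_filter.mpr ⟨hp1 _, hSw⟩⟩
    · intro p _ p' _ h
      have h1 := congrArg Prod.fst h
      have h2 := congrArg Prod.snd h
      funext i
      refine Fin.lastCases ?_ (fun i => ?_) i
      · exact h2
      · exact congrFun h1 i
  have hU1 : (U1.card : ℝ) = ((A.filter P').card : ℝ) * BX.card := by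
    simp only [U1]
    rw [Finset.card_product]
    push_cast
    ring
  have hU2 : (U2.card : ℝ) ≤ (BX.card : ℝ) ^ g * (C3 : ℝ) ^ g * C1 := by
    have h1 : U2.card ≤ ∑ p' ∈ A, ∑ w ∈ (W p').filter G, (BX.filter (S w)).card := by
      refine Finset.card_biUnion_le.trans (Finset.sum_le_sum fun p' _ => ?_)
      refine Finset.card_biUnion_le.trans (Finset.sum_le_sum fun w _ => ?_)
      rw [Finset.card_product, Finset.card_singleton, one_mul]
    calc (U2.card : ℝ) ≤ ∑ p' ∈ A, ∑ w ∈ (W p').filter G, ((BX.filter (S w)).card : ℝ) := by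
          exact_mod_cast h1
      _ ≤ ∑ p' ∈ A, ∑ w ∈ (W p').filter G, C1 := by
          refine Finset.sum_le_sum fun p' _ => Finset.sum_le_sum fun w hw => ?_
          have := hS w (Finset.mem_filter.mp hw).2
          rwa [e3 w] at this
      _ ≤ ∑ p' ∈ A, (C3 : ℝ) ^ g * C1 := by
          refine Finset.sum_le_sum fun p' _ => ?_
          rw [Finset.sum_const, nsmul_eq_mul]
          refine mul_le_mul_of_nonneg_right ?_ hC1
          have := (Finset.card_filter_le (W p') G).trans (hW p')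
          exact_mod_cast this
      _ = (BX.card : ℝ) ^ g * (C3 : ℝ) ^ g * C1 := by
          rw [Finset.sum_const, nsmul_eq_mul, hAc]
          push_cast
          ring
  calc (((Fintype.piFinset (fun _ : Fin (g + 1) => BX)).filter P).card : ℝ)
      ≤ ((U1 ∪ U2).card : ℝ) := by exact_mod_cast hsub
    _ ≤ (U1.card : ℝ) + U2.card := by exact_mod_cast Finset.card_union_le _ _
    _ ≤ _ := by
        rw [hU1]
        linarith

/-- INDUC. -/
theorem thm (hStep : Stmt_Step) (hFib : Stmt_Fiber) (hpi : Pool.Agent.FDR.Stmt_PiTr) :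
    Stmt_Induc := by
  intro M g
  induction g with
  | zero =>
    intro D A
    refine ⟨0, fun X _ => ?_⟩
    have : IsEmpty {p : Fin 0 → ℤ × ℤ // (∀ i, p i ∈ box X) ∧ ∃ L : Fin 0 → PeriodPair,
        (∀ i, Reduced (L i) ∧ IsModel (L i) (p i).1 (p i).2 ∧ (L i).ω₁ / (L i).ω₂ ∈ KM M) ∧
        ¬ Free D (X ^ A) (cvec L)} := by
      constructor
      rintro ⟨p, _, L, _, h⟩
      exact h (base hpi _ _ _)
    rw [Nat.card_of_isEmpty]
    simp
  | succ g ih =>
    intro D A
    obtain ⟨D1, A1, C1, hC1⟩ := hStep M (Option (Fin g × Fin 3)) D A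
    obtain ⟨C2, hC2⟩ := ih D1 A1
    obtain ⟨C3, hC3⟩ := hFib M
    -- the finite sets of coordinate vectors
    have hF : ∀ q : ℤ × ℤ, ∃ F : Finset (Fin 3 → ℂ), (∀ v, v ∈ F ↔ v ∈ {v : Fin 3 → ℂ |
        ∃ L : PeriodPair, Reduced L ∧ IsModel L q.1 q.2 ∧ L.ω₁ / L.ω₂ ∈ KM M ∧
          v = tvec L}) ∧ F.card ≤ C3 := by
      intro q
      apply fin_of_bdd
      intro T hT
      exact hC3 q.1 q.2 T (fun v hv => hT v hv)
    choose F hF1 hF2 using hF
    have hC1' : 0 ≤ |C1| := abs_nonneg _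
    refine ⟨9 * |C2| + 9 ^ g * (C3 : ℝ) ^ g * |C1|, fun X hX => ?_⟩
    have hX1 : (1 : ℝ) ≤ X := by
      have : (1 : ℕ) ≤ X := by omega
      exact_mod_cast this
    have hX0 : (0 : ℝ) < X := by linarith
    have hbox := card_box X (by omega)
    have key := count_step (g := g) (box X)
      (fun p => ∃ L : Fin (g + 1) → PeriodPair,
        (∀ i, Reduced (L i) ∧ IsModel (L i) (p i).1 (p i).2 ∧ (L i).ω₁ / (L i).ω₂ ∈ KM M) ∧
        ¬ Free D (X ^ A) (cvec L))
      (fun p => ∃ L : Fin g → PeriodPair,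
        (∀ i, Reduced (L i) ∧ IsModel (L i) (p i).1 (p i).2 ∧ (L i).ω₁ / (L i).ω₂ ∈ KM M) ∧
        ¬ Free D1 (X ^ A1) (cvec L))
      F C3 hF2 (fun w => Free D1 (X ^ A1) (mkc w))
      (fun w q => ∃ L : PeriodPair, Reduced L ∧ IsModel L q.1 q.2 ∧ L.ω₁ / L.ω₂ ∈ KM M ∧
        ¬ Free D (X ^ A) (Sum.elim (mkc w) (tvec L)))
      (|C1| * (X : ℝ) ^ 3) (by positivity)
      (fun w hw => (hC1 X hX (mkc w) hw).trans
        (mul_le_mul_of_nonneg_right (le_abs_self _) (by positivity)))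
      (by
        rintro p hp ⟨L, hL, hnf⟩
        by_cases hfr : Free D1 (X ^ A1) (cvec (fun i : Fin g => L i.castSucc))
        · right
          refine ⟨fun i => tvec (L i.castSucc), fun i => ?_, hfr, L (Fin.last g), (hL _).1,
            (hL _).2.1, (hL _).2.2, fun hcon => hnf (free_snoc _ _ L hcon)⟩
          rw [hF1]
          exact ⟨L i.castSucc, (hL _).1, (hL _).2.1, (hL _).2.2, rfl⟩
        · left
          exact ⟨fun i => L i.castSucc, fun i => hL _, hfr⟩)
    refine key.trans ?_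
    have h1 : (Nat.card {p : Fin g → ℤ × ℤ // (∀ i, p i ∈ box X) ∧
        ∃ L : Fin g → PeriodPair, (∀ i, Reduced (L i) ∧ IsModel (L i) (p i).1 (p i).2 ∧
          (L i).ω₁ / (L i).ω₂ ∈ KM M) ∧ ¬ Free D1 (X ^ A1) (cvec L)} : ℝ) ≤
        |C2| * (X : ℝ) ^ (5 * g) / (X : ℝ) ^ 2 := by
      refine (hC2 X hX).trans ?_
      gcongr
      exact le_abs_self _
    have h2 : ((box X).card : ℝ) ^ g ≤ (9 * (X : ℝ) ^ 5) ^ g :=
      pow_le_pow_left₀ (by positivity) hbox g
    calc _ ≤ (|C2| * (X : ℝ) ^ (5 * g) / (X : ℝ) ^ 2) * (9 * (X : ℝ) ^ 5) +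
          (9 * (X : ℝ) ^ 5) ^ g * (C3 : ℝ) ^ g * (|C1| * (X : ℝ) ^ 3) := by
          gcongr
      _ = (9 * |C2| + 9 ^ g * (C3 : ℝ) ^ g * |C1|) * (X : ℝ) ^ (5 * (g + 1)) /
          (X : ℝ) ^ 2 := by
          rw [mul_pow, ← pow_mul]
          field_simp
          ring

end

end Pool.Agent.GPC.INDUC
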