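import Pool.Agent.GPC.Defs

/-!
# GPC, module LOCG: the local counting theorem from the absence of bad sequences
-/

open scoped BigOperators Topology
open Metric

namespace Pool.Agent.GPC.LOCG

noncomputable section

/-- exponents of degree at most `D` -/
def expo (σ : Type) [Finite σ] (D : ℕ) : Finset (σ →₀ ℕ) :=
  (Finsupp.finite_of_degree_le (σ := σ) D).toFinset

lemma mem_expo {σ : Type} [Finite σ] {D : ℕ} {m : σ →₀ ℕ} : m ∈ expo σ D ↔ m.degree ≤ D := by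
  simp [expo]

lemma degree_sumElim {n : ℕ} {ι : Type} [Fintype ι] (α : Fin n →₀ ℕ) (β : ι →₀ ℕ) :
    (α.sumElim β).degree = α.degree + β.degree := by
  rw [Finsupp.degree_eq_sum, Finsupp.degree_eq_sum, Finsupp.degree_eq_sum, Fintype.sum_sum_type]
  rfl

lemma sumElim_inj {n : ℕ} {ι : Type} {α α' : Fin n →₀ ℕ} {β β' : ι →₀ ℕ}
    (h : α.sumElim β = α'.sumElim β') : α = α' ∧ β = β' := by
  constructor
  · ext i; exact DFunLike.congr_fun h (Sum.inl i)
  · ext i; exact DFunLike.congr_fun h (Sum.inr i)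

lemma exists_sumElim {n : ℕ} {ι : Type} (m : Fin n ⊕ ι →₀ ℕ) :
    ∃ (α : Fin n →₀ ℕ) (β : ι →₀ ℕ), α.sumElim β = m :=
  ⟨_, _, Finsupp.comapDomain_sumElim_comapDomain m⟩

lemma degree_le_of_coeff {σ : Type} {P : MvPolynomial σ ℤ} {D : ℕ} (hP : P.totalDegree ≤ D)
    {m : σ →₀ ℕ} (hm : P.coeff m ≠ 0) : m.degree ≤ D :=
  (MvPolynomial.le_totalDegree (MvPolynomial.mem_support_iff.mpr hm)).trans hP

/-- decomposition of an evaluation -/
lemma aeval_eq {n : ℕ} {ι : Type} [Fintype ι] (P : MvPolynomial (Fin n ⊕ ι) ℤ) (D : ℕ)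
    (hP : P.totalDegree ≤ D) (φ : Fin n → ℂ) (c : ι → ℂ) :
    MvPolynomial.aeval (Sum.elim φ c) P =
      ∑ α ∈ expo (Fin n) D,
        (∑ β ∈ expo ι D, ((P.coeff (α.sumElim β) : ℤ) : ℂ) * ∏ k, c k ^ β k) * mono φ α := by
  classical
  have hsub : P.support ⊆
      ((expo (Fin n) D) ×ˢ (expo ι D)).image (fun p => p.1.sumElim p.2) := by
    intro m hm
    obtain ⟨α, β, rfl⟩ := exists_sumElim m
    have h1 := degree_le_of_coeff hP (MvPolynomial.mem_support_iff.mp hm)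
    rw [degree_sumElim] at h1
    have h2 : α.degree ≤ D := by omega
    have h3 : β.degree ≤ D := by omega
    exact Finset.mem_image.mpr ⟨(α, β), Finset.mem_product.mpr
      ⟨mem_expo.mpr h2, mem_expo.mpr h3⟩, rfl⟩
  rw [MvPolynomial.aeval_def, MvPolynomial.eval₂_eq', Finset.sum_subset hsub, Finset.sum_image,
    Finset.sum_product]
  · refine Finset.sum_congr rfl fun α _ => ?_
    rw [Finset.sum_mul]
    refine Finset.sum_congr rfl fun β _ => ?_
    rw [Fintype.prod_sum_type]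
    simp only [Finsupp.coe_sumElim, Sum.elim_inl, Sum.elim_inr, mono, algebraMap_int_eq,
      eq_intCast]
    ring
  · intro p _ p' _ h
    obtain ⟨h1, h2⟩ := sumElim_inj h
    exact Prod.ext h1 h2
  · intro m _ hm
    rw [MvPolynomial.notMem_support_iff.mp hm]
    simp

/-- the coefficient polynomial -/
def coefPoly {n : ℕ} {ι : Type} [Fintype ι] (P : MvPolynomial (Fin n ⊕ ι) ℤ) (D : ℕ)
    (α : Fin n →₀ ℕ) : MvPolynomial ι ℤ :=
  ∑ β ∈ expo ι D, MvPolynomial.monomial β (P.coeff (α.sumElim β))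

lemma coeff_coefPoly {n : ℕ} {ι : Type} [Fintype ι] (P : MvPolynomial (Fin n ⊕ ι) ℤ) (D : ℕ)
    (hP : P.totalDegree ≤ D) (α : Fin n →₀ ℕ) (β : ι →₀ ℕ) :
    (coefPoly P D α).coeff β = P.coeff (α.sumElim β) := by
  classical
  rw [coefPoly, MvPolynomial.coeff_sum]
  simp only [MvPolynomial.coeff_monomial]
  rw [Finset.sum_ite_eq' (expo ι D) β]
  split_ifs with h
  · rfl
  · by_contra hne
    refine h (mem_expo.mpr ?_)
    have h1 := degree_le_of_coeff hP (Ne.symm hne)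
    rw [degree_sumElim] at h1
    omega

lemma coefPoly_small {n : ℕ} {ι : Type} [Fintype ι] (P : MvPolynomial (Fin n ⊕ ι) ℤ) (D B : ℕ)
    (hP : IsSmall P D B) (α : Fin n →₀ ℕ) : IsSmall (coefPoly P D α) D B := by
  classical
  refine ⟨?_, fun β => ?_⟩
  · refine (MvPolynomial.totalDegree_finsetSum _ _).trans (Finset.sup_le fun β hβ => ?_)
    refine (MvPolynomial.totalDegree_monomial_le _ _).trans ?_
    exact mem_expo.mp hβ
  · rw [coeff_coefPoly P D hP.1]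
    exact hP.2 _

lemma aeval_coefPoly {n : ℕ} {ι : Type} [Fintype ι] (P : MvPolynomial (Fin n ⊕ ι) ℤ) (D : ℕ)
    (α : Fin n →₀ ℕ) (c : ι → ℂ) : MvPolynomial.aeval c (coefPoly P D α) =
      ∑ β ∈ expo ι D, ((P.coeff (α.sumElim β) : ℤ) : ℂ) * ∏ k, c k ^ β k := by
  rw [coefPoly, map_sum]
  refine Finset.sum_congr rfl fun β _ => ?_
  rw [MvPolynomial.aeval_monomial, Finsupp.prod_fintype]
  · simp
  · simp

lemma key {n : ℕ} {ι : Type} [Fintype ι] {z0 : ℂ} {ρ κ : ℝ} {s : ℂ → ℂ} {f : Fin n → ℂ → ℂ}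
    {D A : ℕ} (hbad : ∀ i : ℕ, ∃ H : ℕ, 1 ≤ H ∧ ∃ c : ι → ℂ, Free D (H ^ A) c ∧
      ∃ w ∈ closedBall z0 ρ, ∃ T : Finset ℚ, (∀ r ∈ T, r.num.natAbs ≤ H ∧ r.den ≤ H ∧
        IsBad z0 w ρ ((H : ℝ) ^ (-κ)) s f c D (H ^ A) r) ∧ i < T.card) :
    ∃ N, Nonempty (BadSeq n N A z0 ρ κ s f (expo (Fin n) D)) := by
  classical
  choose H hH c hc w hw T hT hcard using hbad
  have h1 : ∀ (i : ℕ) (r : ℚ), ∃ (z : ℂ) (P : MvPolynomial (Fin n ⊕ ι) ℤ), r ∈ T i →
      z ∈ closedBall z0 ρ ∧ ‖z - w i‖ ≤ (H i : ℝ) ^ (-κ) ∧ s z = r ∧ P ≠ 0 ∧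
        IsSmall P D (H i ^ A) ∧
        MvPolynomial.aeval (Sum.elim (fun j => f j z) (c i)) P = 0 := by
    intro i r
    by_cases hr : r ∈ T i
    · obtain ⟨z, hz, hz2, hz3, P, hP0, hP1, hP2⟩ := (hT i r hr).2.2
      exact ⟨z, P, fun _ => ⟨hz, hz2, hz3, hP0, hP1, hP2⟩⟩
    · exact ⟨0, 0, fun h => absurd h hr⟩
  choose z P hzP using h1
  let S : Finset ((Fin n →₀ ℕ) × (ι →₀ ℕ)) := (expo (Fin n) D) ×ˢ (expo ι D)
  let e : Fin S.card ≃ S := S.equivFin.symm
  have hHpos : ∀ i, (0 : ℚ) < (H i : ℚ) ^ A := fun i => pow_pos (by exact_mod_cast hH i) _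
  have hHne : ∀ i, ((H i : ℂ) ^ A) ≠ 0 := fun i => pow_ne_zero _ (by
    have := hH i
    exact_mod_cast (by omega : H i ≠ 0))
  let Γ : ℕ → (Fin n →₀ ℕ) → Fin S.card → ℂ := fun i α ν =>
    if (e ν).1.1 = α then ∏ k, c i k ^ (e ν).1.2 k else 0
  let x : ℕ → ℚ → Fin S.card → ℚ := fun i r ν =>
    (((P i r).coeff ((e ν).1.1.sumElim (e ν).1.2) : ℤ) : ℚ) / (H i : ℚ) ^ A
  have hsum : ∀ i r, ∀ α ∈ expo (Fin n) D, ∑ ν, Γ i α ν * (x i r ν : ℂ) =
      MvPolynomial.aeval (c i) (coefPoly (P i r) D α) / (H i : ℂ) ^ A := by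
    intro i r α hα
    rw [aeval_coefPoly, Finset.sum_div]
    have h2 : ∑ ν, Γ i α ν * (x i r ν : ℂ) = ∑ p : S, (if p.1.1 = α then
        ∏ k, c i k ^ p.1.2 k else 0) * ((((P i r).coeff (p.1.1.sumElim p.1.2) : ℤ) : ℂ) /
          (H i : ℂ) ^ A) := by
      rw [← Equiv.sum_comp e]
      refine Finset.sum_congr rfl fun ν _ => ?_
      simp only [Γ, x]
      push_cast
      rfl
    rw [h2, Finset.sum_coe_sort S (fun p => (if p.1 = α then
        ∏ k, c i k ^ p.2 k else 0) * ((((P i r).coeff (p.1.sumElim p.2) : ℤ) : ℂ) /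
          (H i : ℂ) ^ A)), Finset.sum_product, Finset.sum_eq_single α]
    · refine Finset.sum_congr rfl fun β _ => ?_
      rw [if_pos rfl]
      ring
    · intro α' _ hne
      refine Finset.sum_eq_zero fun β _ => ?_
      rw [if_neg hne, zero_mul]
    · intro h
      exact absurd hα h
  refine ⟨S.card, ⟨{
    H := H
    Γ := Γ
    w := w
    T := T
    z := z
    x := x
    q := fun i _ => H i ^ A
    card := hcard
    wmem := hw
    num := fun i r hr => (hT i r hr).1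
    den := fun i r hr => (hT i r hr).2.1
    zmem := fun i r hr => (hzP i r hr).1
    znear := fun i r hr => (hzP i r hr).2.1
    sz := fun i r hr => (hzP i r hr).2.2.1
    xle := ?_
    qpos := fun i r _ => pow_pos (hH i) _
    qle := fun i r _ => le_refl _
    xq := ?_
    ne := ?_
    rel := ?_ }⟩⟩
  · intro i r hr ν
    obtain ⟨-, -, -, -, hs, -⟩ := hzP i r hr
    simp only [x]
    rw [abs_div, abs_of_pos (hHpos i), div_le_one (hHpos i)]
    have h3 := hs.2 ((e ν).1.1.sumElim (e ν).1.2)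
    rw [← Int.cast_abs, Int.abs_eq_natAbs]
    exact_mod_cast h3
  · intro i r hr ν
    refine ⟨(P i r).coeff ((e ν).1.1.sumElim (e ν).1.2), ?_⟩
    simp only [x]
    push_cast
    rw [mul_div_cancel₀ _ (hHpos i).ne']
  · intro i r hr
    obtain ⟨-, -, -, hP0, hs, -⟩ := hzP i r hr
    by_contra hcon
    push Not at hcon
    apply hP0
    ext m
    obtain ⟨α, β, rfl⟩ := exists_sumElim m
    rw [MvPolynomial.coeff_zero]
    by_contra hm
    have hdeg := degree_le_of_coeff hs.1 hm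
    rw [degree_sumElim] at hdeg
    have hα : α ∈ expo (Fin n) D := mem_expo.mpr (by omega)
    have h4 := hcon α hα
    rw [hsum i r α hα, div_eq_zero_iff, or_iff_left (hHne i)] at h4
    have h5 := hc i _ (coefPoly_small _ _ _ hs α) h4
    apply hm
    rw [← coeff_coefPoly (P i r) D hs.1 α β, h5, MvPolynomial.coeff_zero]
  · intro i r hr
    obtain ⟨-, -, -, -, hs, h0⟩ := hzP i r hr
    have h6 : ∀ α ∈ expo (Fin n) D, (∑ ν, Γ i α ν * (x i r ν : ℂ)) *
        mono (fun j => f j (z i r)) α = ((∑ β ∈ expo ι D,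
          (((P i r).coeff (α.sumElim β) : ℤ) : ℂ) * ∏ k, c i k ^ β k) *
            mono (fun j => f j (z i r)) α) / (H i : ℂ) ^ A := by
      intro α hα
      rw [hsum i r α hα, aeval_coefPoly]
      ring
    rw [Finset.sum_congr rfl h6, ← Finset.sum_div, ← aeval_eq (P i r) D hs.1, h0, zero_div]

/-- LOCG from SEQ. -/
theorem thm (hseq : Stmt_Seq) : Stmt_LocG := by
  intro n ι _ z0 ρ κ s f hind hκ D A
  by_contra hcon
  push Not at hcon
  obtain ⟨N, ⟨S⟩⟩ := key (ι := ι) (z0 := z0) (ρ := ρ) (κ := κ) (s := s) (f := f) (D := D)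
    (A := A) (fun i => by
      obtain ⟨H, hH, c, hc, w, hw, T, hT, hcard⟩ := hcon i
      exact ⟨H, hH, c, hc, w, hw, T, hT, hcard⟩)
  exact hseq n N A z0 ρ κ s f _ hind hκ S

end

end Pool.Agent.GPC.LOCG
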