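import Pool.Agent.GPC.Defs

/-!
# GPC, module LOWDET: lower bound for a nonzero determinant of rational numbers
-/

open scoped BigOperators Topology
open Matrix

namespace Pool.Agent.GPC

noncomputable section

theorem lowdet_proof : Stmt_LowDet := by
  classical
  intro M E q B hq hint hdet
  choose K hK using hint
  have h1 : (Matrix.of fun l c => (q l : ℚ) * E l c).det = (∏ l, (q l : ℚ)) * E.det :=
    Matrix.det_mul_column (fun l => (q l : ℚ)) E
  have h2 : (Matrix.of fun l c => (q l : ℚ) * E l c) =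
      (Matrix.of K).map (Int.castRingHom ℚ) := by
    ext l c
    simp [hK l c]
  have h3 : (Matrix.of fun l c => (q l : ℚ) * E l c).det = (((Matrix.of K).det : ℤ) : ℚ) := by
    rw [h2]
    exact (RingHom.map_det (Int.castRingHom ℚ) (Matrix.of K)).symm
  have hprod : (∏ l, (q l : ℚ)) ≠ 0 := by
    rw [Finset.prod_ne_zero_iff]
    intro l _
    exact_mod_cast (hq l).1.ne'
  have h4 : (Matrix.of K).det ≠ 0 := by
    intro h0
    rw [h3, h0] at h1
    exact mul_ne_zero hprod hdet (by simpa using h1.symm)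
  have h5 : (1 : ℚ) ≤ |(((Matrix.of K).det : ℤ) : ℚ)| := by
    have := Int.one_le_abs h4
    exact_mod_cast this
  rw [← h3, h1, abs_mul] at h5
  have h6 : |∏ l, (q l : ℚ)| ≤ (B : ℚ) ^ M := by
    rw [Finset.abs_prod]
    calc ∏ l : Fin M, |(q l : ℚ)| ≤ ∏ _l : Fin M, (B : ℚ) := by
          refine Finset.prod_le_prod (fun l _ => abs_nonneg _) fun l _ => ?_
          rw [abs_of_nonneg (by positivity)]
          exact_mod_cast (hq l).2
      _ = (B : ℚ) ^ M := by simp
  have h7 : (1 : ℚ) ≤ (B : ℚ) ^ M * |E.det| :=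
    h5.trans (mul_le_mul_of_nonneg_right h6 (abs_nonneg _))
  have h8 : ‖(E.map (algebraMap ℚ ℂ)).det‖ = ((|E.det| : ℚ) : ℝ) := by
    have h9 : (E.map (algebraMap ℚ ℂ)).det = algebraMap ℚ ℂ E.det :=
      (RingHom.map_det (algebraMap ℚ ℂ) E).symm
    rw [h9]
    simp
  rw [h8]
  exact_mod_cast h7

end

end Pool.Agent.GPC
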