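import Pool.Agent.GPC.Defs

/-!
# A matrix over a domain with independent rows has a nonzero maximal minor
-/

open scoped BigOperators

namespace Pool.Agent.GPC.MINOR

theorem field {K : Type} [Field K] {a b : ℕ} (L : Matrix (Fin a) (Fin b) K)
    (h : LinearIndependent K L.row) : ∃ p : Fin a → Fin b, (L.submatrix id p).det ≠ 0 := by
  have h1 : L.rank = a := by simpa using h.rank_matrix
  rw [Matrix.rank_eq_finrank_span_cols] at h1
  have h2 : Submodule.span K (Set.range L.col) = ⊤ := by
    apply Submodule.eq_top_of_finrank_eq
    rw [h1]
    simp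
  obtain ⟨κ, f, hf, hs, hli⟩ := exists_linearIndependent' K L.col
  rw [h2] at hs
  have : Finite κ := Finite.of_injective f hf
  have := Fintype.ofFinite κ
  let B := Module.Basis.mk hli (by rw [hs])
  have hcard : Fintype.card κ = a := by
    have := Module.finrank_eq_card_basis B
    rw [← this]
    simp
  let e : Fin a ≃ κ := (Fintype.equivFinOfCardEq hcard).symm
  refine ⟨f ∘ e, ?_⟩
  have h3 : LinearIndependent K (L.submatrix id (f ∘ e)).col := hli.comp e e.injective
  have h4 := (Matrix.linearIndependent_cols_iff_isUnit.1 h3)
  rw [Matrix.isUnit_iff_isUnit_det] at h4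
  exact h4.ne_zero

theorem thm : Stmt_Minor := by
  intro R _ _ a b L h
  classical
  let K := FractionRing R
  have hinj : Function.Injective (algebraMap R K) := IsFractionRing.injective R K
  obtain ⟨p, hp⟩ := field (L.map (algebraMap R K)) (by
    rw [Fintype.linearIndependent_iff]
    intro c hc
    obtain ⟨d, hd⟩ := IsLocalization.exist_integer_multiples_of_finset (nonZeroDivisors R)
      (Finset.univ.image c)
    have hd' : ∀ i, ∃ z : R, algebraMap R K z = (d : R) • c i := fun i =>
      hd (c i) (Finset.mem_image_of_mem _ (Finset.mem_univ i))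
    choose z hz using hd'
    have hz0 : z = 0 := by
      apply h
      intro k
      apply hinj
      rw [map_sum, map_zero]
      have h1 := congrFun hc k
      simp only [Finset.sum_apply, Pi.smul_apply, smul_eq_mul, Pi.zero_apply] at h1
      have h2 : ∑ i, algebraMap R K (z i * L i k) =
          algebraMap R K d * ∑ i, c i * (L.map (algebraMap R K)).row i k := by
        rw [Finset.mul_sum]
        refine Finset.sum_congr rfl fun i _ => ?_
        rw [map_mul, hz i, Algebra.smul_def]
        simp only [Matrix.row, Matrix.map_apply]
        ring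
      rw [h2, h1, mul_zero]
    intro i
    have h3 := hz i
    rw [hz0, Pi.zero_apply, map_zero, Algebra.smul_def] at h3
    rcases mul_eq_zero.1 h3.symm with h4 | h4
    · exfalso
      exact nonZeroDivisors.coe_ne_zero d (hinj (by rw [h4, map_zero]))
    · exact h4)
  refine ⟨p, fun h0 => hp ?_⟩
  have : (L.map (algebraMap R K)).submatrix id p = (algebraMap R K).mapMatrix (L.submatrix id p) :=
    rfl
  rw [this, ← RingHom.map_det, h0, map_zero]

end Pool.Agent.GPC.MINOR
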