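import Pool.Agent.GPC.Ell

/-!
# GPC: module PERM (the period matrix in terms of `τ, ω₂, G2 τ`)
-/

open scoped BigOperators Topology
open Metric UpperHalfPlane ModularForm EisensteinSeries Filter

namespace Pool.Agent.GPC.PERM

/-- The lattice of `Lt τ`. -/
lemma mem_Lt (τ : ℍ) (z : ℂ) : z ∈ (Lt τ).lattice ↔ ∃ m n : ℤ, (m : ℂ) * τ + n = z := by
  rw [PeriodPair.mem_lattice]
  simp [Lt]

lemma G2_S (τ σ : ℍ) (h : (σ : ℂ) = -1 / τ) :
    G2 σ = (τ : ℂ) ^ 2 * G2 τ - 2 * Real.pi * Complex.I * τ := by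
  have hσ : ModularGroup.S • τ = σ := by
    ext1
    rw [modular_S_smul]
    rw [h]
    change (-(τ : ℂ))⁻¹ = -1 / τ
    rw [inv_neg, neg_div, one_div]
  have hτ : (τ : ℂ) ≠ 0 := τ.ne_zero
  have h2 := G2_S_transform τ
  rw [hσ] at h2
  rw [h2]
  field_simp
  ring

theorem thm (h1 : Stmt_Hom) (h2 : Stmt_IntG2) : Stmt_PerM := by
  intro L hL
  set w : ℂ := L.ω₁ / L.ω₂ with hw
  have hω2 : L.ω₂ ≠ 0 := by
    intro h
    rw [hw, h, div_zero] at hL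
    simp at hL
  have hω1 : L.ω₁ = L.ω₂ * w := by rw [hw]; field_simp
  obtain ⟨τ, hτ⟩ : ∃ τ : ℍ, (τ : ℂ) = w := ⟨⟨w, hL⟩, rfl⟩
  have hof : ofComplex w = τ := by rw [← hτ]; exact ofComplex_apply τ
  have hτ0 : (τ : ℂ) ≠ 0 := τ.ne_zero
  -- scaling by `ω₂`
  obtain ⟨-, hg2, hg3, hs⟩ := h1 (Lt τ) L L.ω₂ hω2 (by
    intro z
    rw [mem_Lt, PeriodPair.mem_lattice]
    constructor
    · rintro ⟨m, n, rfl⟩
      exact ⟨m, n, by rw [hω1, hτ]; ring⟩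
    · rintro ⟨m, n, h⟩
      refine ⟨m, n, ?_⟩
      have : L.ω₂ * (m * τ + n) = L.ω₂ * z := by rw [← h, hω1, hτ]; ring
      exact mul_left_cancel₀ hω2 this)
  have hG2c : G2c w = G2 τ := by rw [G2c, hof]
  -- the second period
  have e2 : sper L (L.ω₁ / 2) L.ω₂ = -(L.ω₂⁻¹ * G2c w) := by
    have h := hs (τ / 2) 1
    rw [h2 τ, mul_one] at h
    have h3 : L.ω₂ * ((τ : ℂ) / 2) = L.ω₁ / 2 := by rw [hω1, hτ]; ring
    rw [h3] at h
    rw [h, hG2c]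
    ring
  -- the first period of `Lt τ`
  obtain ⟨σ, hσ⟩ : ∃ σ : ℍ, (σ : ℂ) = -1 / τ := by
    refine ⟨⟨-1 / τ, ?_⟩, rfl⟩
    have := τ.im_inv_neg_coe_pos
    rwa [inv_neg, ← one_div, ← neg_div] at this
  have hσ0 : (τ : ℂ) * σ = -1 := by rw [hσ]; field_simp
  obtain ⟨-, -, -, hs'⟩ := h1 (Lt σ) (Lt τ) τ hτ0 (by
    intro z
    rw [mem_Lt, mem_Lt]
    constructor
    · rintro ⟨m, n, rfl⟩
      refine ⟨n, -m, ?_⟩
      push_cast
      linear_combination (-(m : ℂ)) * hσ0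
    · rintro ⟨m, n, h⟩
      refine ⟨-n, m, ?_⟩
      apply mul_left_cancel₀ hτ0
      rw [← h]
      push_cast
      linear_combination (-(n : ℂ)) * hσ0)
  have e1' : sper (Lt τ) (1 / 2) τ = 2 * Real.pi * Complex.I - τ * G2 τ := by
    have h := hs' (σ / 2) 1
    rw [h2 σ, mul_one] at h
    have h3 : (τ : ℂ) * (σ / 2) = -1 / 2 := by linear_combination (1 / 2 : ℂ) * hσ0
    rw [h3, G2_S τ σ hσ] at h
    have h4 : sper (Lt τ) (1 / 2) τ = sper (Lt τ) (-1 / 2) τ := by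
      unfold sper
      congr 1
      funext t
      have hm : (1 : ℂ) ∈ (Lt τ).lattice := (mem_Lt τ 1).2 ⟨0, 1, by simp⟩
      have := (Lt τ).weierstrassP_add_coe (-1 / 2 + t * τ) ⟨1, hm⟩
      rw [← this]
      congr 2
      simp only
      ring
    rw [h4, h]
    field_simp
    ring
  have e1 : sper L (L.ω₂ / 2) L.ω₁ = L.ω₂⁻¹ * (2 * Real.pi * Complex.I - w * G2c w) := by
    have h := hs (1 / 2) τ
    rw [e1'] at h
    have h3 : L.ω₂ * (1 / 2) = L.ω₂ / 2 := by ring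
    have h4 : L.ω₂ * (τ : ℂ) = L.ω₁ := by rw [hω1, hτ]
    rw [h3, h4] at h
    rw [h, hG2c, hτ]
  refine ⟨e1, e2, ?_, ?_, ?_⟩
  · rw [perMat, Matrix.det_fin_two_of, e1, e2, hω1]
    field_simp
    ring
  · rw [g2c, hof]; exact hg2
  · rw [g3c, hof]; exact hg3

end Pool.Agent.GPC.PERM
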