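import Pool.Agent.GPC.Defs

/-!
# GPC / RANKDET: determinants of power series with coefficients of small rank
-/

open scoped BigOperators Topology
open Metric Filter

namespace Pool.Agent.GPC.RANKDET

open Pool.Agent.GPC

noncomputable section

/-- If every fibre has at most `b` elements, the sum of the values is large. -/
theorem sum_large {M b : ℕ} (f : Fin M → ℕ)
    (h : ∀ j, (Finset.univ.filter fun l => f l = j).card ≤ b) :
    M * M ≤ 2 * b * ∑ l, f l + M * b := by
  classical
  have hlt : ∀ m : ℕ, (Finset.univ.filter fun l => f l < m).card ≤ b * m := by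
    intro m
    have h1 := Finset.card_le_mul_card_image_of_maps_to
      (s := Finset.univ.filter fun l => f l < m) (t := Finset.range m) (f := f)
      (fun a ha => by
        rw [Finset.mem_filter] at ha
        exact Finset.mem_range.2 ha.2) b
      (fun j _ => by
        refine le_trans (Finset.card_le_card ?_) (h j)
        intro a ha
        rw [Finset.mem_filter] at ha
        rw [Finset.mem_filter]
        exact ⟨Finset.mem_univ _, ha.2⟩)
    rw [Finset.card_range] at h1
    exact h1
  have e1 : M * M = ∑ l : Fin M, ∑ l' : Fin M, 1 := by simp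
  have e2 : ∑ l : Fin M, ∑ l' : Fin M, 1 = ∑ l : Fin M, ∑ l' : Fin M,
      ((if f l' < f l then 1 else 0) + (if f l < f l' then 1 else 0) +
        (if f l' = f l then 1 else 0)) := by
    refine Finset.sum_congr rfl fun l _ => Finset.sum_congr rfl fun l' _ => ?_
    rcases lt_trichotomy (f l') (f l) with h1 | h1 | h1
    · rw [if_pos h1, if_neg (by omega), if_neg (by omega)]
    · rw [if_neg (by omega), if_neg (by omega), if_pos h1]
    · rw [if_neg (by omega), if_pos h1, if_neg (by omega)]
  have c1 : ∑ l : Fin M, ∑ l' : Fin M, (if f l' < f l then 1 else 0) ≤ b * ∑ l, f l := by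
    rw [Finset.mul_sum]
    refine Finset.sum_le_sum fun l _ => ?_
    have := hlt (f l)
    rwa [Finset.card_filter] at this
  have c2 : ∑ l : Fin M, ∑ l' : Fin M, (if f l < f l' then 1 else 0) ≤ b * ∑ l, f l := by
    rw [Finset.sum_comm]
    exact c1
  have c3 : ∑ l : Fin M, ∑ l' : Fin M, (if f l' = f l then 1 else 0) ≤ M * b := by
    have : ∑ l : Fin M, ∑ l' : Fin M, (if f l' = f l then 1 else 0) ≤ ∑ l : Fin M, b := by
      refine Finset.sum_le_sum fun l _ => ?_
      have := h (f l)
      rwa [Finset.card_filter] at this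
    refine this.trans ?_
    simp
  rw [e1, e2]
  simp only [Finset.sum_add_distrib]
  have : 2 * b * ∑ l, f l = b * ∑ l, f l + b * ∑ l, f l := by ring
  omega

/-- More than `b` rows from a matrix of rank at most `b`. -/
theorem det_zero {M b : ℕ} (N : Matrix (Fin M) (Fin M) ℂ) (u v : Fin b → Fin M → ℂ)
    (S : Finset (Fin M)) (hS : b < S.card)
    (h : ∀ l ∈ S, ∀ c, N l c = ∑ k, u k l * v k c) : N.det = 0 := by
  classical
  rw [← Matrix.exists_vecMul_eq_zero_iff]
  let L : (S → ℂ) →ₗ[ℂ] (Fin b → ℂ) :=
    { toFun := fun c k => ∑ l : S, c l * u k l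
      map_add' := fun c d => by
        funext k
        simp only [Pi.add_apply, add_mul, Finset.sum_add_distrib]
      map_smul' := fun a c => by
        funext k
        simp only [Pi.smul_apply, smul_eq_mul, RingHom.id_apply, Finset.mul_sum]
        exact Finset.sum_congr rfl fun l _ => by ring }
  have hker : LinearMap.ker L ≠ ⊥ := by
    apply LinearMap.ker_ne_bot_of_finrank_lt
    rw [Module.finrank_fintype_fun_eq_card, Module.finrank_fintype_fun_eq_card, Fintype.card_fin,
      Fintype.card_coe]
    exact hS
  obtain ⟨c, hc, hc0⟩ := (Submodule.ne_bot_iff _).1 hker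
  rw [LinearMap.mem_ker] at hc
  let w : Fin M → ℂ := fun l => if hl : l ∈ S then c ⟨l, hl⟩ else 0
  have hw : ∀ l : S, w l = c l := fun l => by simp [w]
  refine ⟨w, ?_, ?_⟩
  · intro h0
    apply hc0
    funext l
    rw [← hw l, h0]
    rfl
  · funext j
    simp only [Matrix.vecMul, dotProduct, Pi.zero_apply]
    have e1 : ∑ l, w l * N l j = ∑ l ∈ S, w l * N l j := by
      symm
      apply Finset.sum_subset (Finset.subset_univ S)
      intro l _ hl
      simp [w, hl]
    have e2 : ∑ l ∈ S, w l * N l j = ∑ l : S, c l * ∑ k, u k l * v k j := by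
      rw [← Finset.sum_coe_sort]
      refine Finset.sum_congr rfl fun l _ => ?_
      rw [hw l, h l l.2 j]
    have e3 : ∑ l : S, c l * ∑ k, u k l * v k j = ∑ k, (∑ l : S, c l * u k l) * v k j := by
      simp only [Finset.mul_sum, Finset.sum_mul]
      rw [Finset.sum_comm]
      refine Finset.sum_congr rfl fun k _ => Finset.sum_congr rfl fun l _ => ?_
      ring
    rw [e1, e2, e3]
    apply Finset.sum_eq_zero
    intro k _
    have := congrFun hc k
    have h2 : ∑ l : S, c l * u k l = 0 := this
    rw [h2, zero_mul]

theorem thm : Stmt_RankDet := by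
  intro M b p hb hM A B hA hB
  classical
  let G : ℂ → ℕ → Matrix (Fin M) (Fin M) ℂ := fun t j => if j < p then A j else B t
  let T : (Fin M → Fin (p + 1)) → ℂ → ℂ :=
    fun r t => (Matrix.of fun l => G t (r l) l).det
  have hexp : ∀ t, (∑ j ∈ Finset.range p, t ^ j • A j + t ^ p • B t).det =
      ∑ r : Fin M → Fin (p + 1), (∏ l, t ^ (r l : ℕ)) * T r t := by
    intro t
    have e1 : (∑ j ∈ Finset.range p, t ^ j • A j + t ^ p • B t) =
        Matrix.of fun l => ∑ j : Fin (p + 1), t ^ (j : ℕ) • G t j l := by
      ext l c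
      rw [Matrix.of_apply, Fin.sum_univ_castSucc, Finset.sum_range]
      simp only [Matrix.add_apply, Matrix.sum_apply, Matrix.smul_apply, Pi.add_apply,
        Finset.sum_apply, Pi.smul_apply, Fin.val_castSucc, Fin.val_last, G, if_pos (Fin.is_lt _),
        lt_irrefl, if_false]
    rw [e1]
    have e2 := (Matrix.detRowAlternating (n := Fin M) (R := ℂ)).toMultilinearMap.map_sum
      (g := fun (l : Fin M) (j : Fin (p + 1)) => t ^ (j : ℕ) • G t j l)
    have e3 : (Matrix.of fun l => ∑ j : Fin (p + 1), t ^ (j : ℕ) • G t j l).det =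
        ∑ r : Fin M → Fin (p + 1), (Matrix.detRowAlternating (n := Fin M) (R := ℂ))
          (fun l => t ^ (r l : ℕ) • G t (r l) l) := e2
    rw [e3]
    refine Finset.sum_congr rfl fun r _ => ?_
    have e4 := (Matrix.detRowAlternating (n := Fin M) (R := ℂ)).toMultilinearMap.map_smul_univ
      (fun l => t ^ (r l : ℕ)) (fun l => G t (r l) l)
    exact e4
  have hT : ∀ r, ContinuousAt (T r) 0 := by
    intro r
    have h1 : ContinuousAt (fun t => Matrix.of fun l => G t (r l) l) 0 := by
      apply continuousAt_pi.2
      intro l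
      apply continuousAt_pi.2
      intro c
      simp only [Matrix.of_apply, G]
      by_cases h : (r l : ℕ) < p
      · simp only [if_pos h]
        exact continuousAt_const
      · simp only [if_neg h]
        exact hB l c
    have h2 : Continuous (fun N : Matrix (Fin M) (Fin M) ℂ => N.det) :=
      Continuous.matrix_det continuous_id
    exact h2.continuousAt.comp h1
  have hbd : ∀ r, ∃ C : ℝ, 0 ≤ C ∧ ∀ᶠ t in 𝓝 (0 : ℂ),
      ‖(∏ l, t ^ (r l : ℕ)) * T r t‖ ≤ C * ‖t‖ ^ p := by
    intro r
    by_cases hr : ∃ j < p, b < (Finset.univ.filter fun l => (r l : ℕ) = j).card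
    · obtain ⟨j, hj, hjb⟩ := hr
      obtain ⟨u, v, huv⟩ := hA j hj
      refine ⟨0, le_rfl, Filter.Eventually.of_forall fun t => ?_⟩
      have : T r t = 0 := by
        apply det_zero _ u v _ hjb
        intro l hl c
        rw [Finset.mem_filter] at hl
        simp only [Matrix.of_apply, G, hl.2, if_pos hj]
        exact huv l c
      rw [this]
      simp
    · push Not at hr
      have hsum : p ≤ ∑ l, (r l : ℕ) := by
        by_cases hp : ∃ l, (r l : ℕ) = p
        · obtain ⟨l, hl⟩ := hp
          refine hl.symm.le.trans ?_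
          exact Finset.single_le_sum (f := fun l => (r l : ℕ)) (fun _ _ => Nat.zero_le _)
            (Finset.mem_univ l)
        · push Not at hp
          have h1 := sum_large (fun l => (r l : ℕ)) (b := b) (by
            intro j
            by_cases hj : j < p
            · exact hr j hj
            · have : (Finset.univ.filter fun l => (r l : ℕ) = j) = ∅ := by
                rw [Finset.filter_eq_empty_iff]
                intro l _ h2
                have h3 := (r l).is_lt
                have h4 := hp l
                omega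
              rw [this]
              simp)
          have h2 : 2 * b * p ≤ 2 * b * ∑ l, (r l : ℕ) := by omega
          exact Nat.le_of_mul_le_mul_left h2 (by omega)
      have h1 : ∀ᶠ t in 𝓝 (0 : ℂ), ‖T r t‖ < ‖T r 0‖ + 1 :=
        (hT r).norm.eventually (gt_mem_nhds (by linarith))
      have h2 : ∀ᶠ t in 𝓝 (0 : ℂ), ‖t‖ < 1 := by
        have := (continuous_norm (E := ℂ)).continuousAt (x := (0 : ℂ))
        exact this.eventually (gt_mem_nhds (by simp))
      refine ⟨‖T r 0‖ + 1, by positivity, ?_⟩
      filter_upwards [h1, h2] with t ht1 ht2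
      rw [norm_mul, norm_prod]
      simp only [norm_pow]
      rw [Finset.prod_pow_eq_pow_sum, mul_comm]
      apply mul_le_mul ht1.le _ (by positivity) (by positivity)
      exact pow_le_pow_of_le_one (norm_nonneg _) ht2.le hsum
  choose C hC0 hC using hbd
  refine ⟨∑ r, C r, ?_⟩
  have hall : ∀ᶠ t in 𝓝 (0 : ℂ), ∀ r, ‖(∏ l, t ^ (r l : ℕ)) * T r t‖ ≤ C r * ‖t‖ ^ p :=
    Filter.eventually_all.2 hC
  filter_upwards [hall] with t ht
  rw [hexp, Finset.sum_mul]
  exact (norm_sum_le _ _).trans (Finset.sum_le_sum fun r _ => ht r)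

end

end Pool.Agent.GPC.RANKDET
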