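import Pool.Agent.GPC.Ell

/-!
# GPC, module REGION: few curves have `τ` outside of `KM M`
-/

open scoped BigOperators Topology
open Metric UpperHalfPlane ModularForm EisensteinSeries Filter

namespace Pool.Agent.GPC.REGION

noncomputable section

/-! ## Analysis -/

theorem E4_tendsto : Tendsto (fun z : ℍ => E₄ z) atImInfty (𝓝 1) := by
  have hval : valueAtInfty (E₄ : ℍ → ℂ) = 1 := by
    rw [← EisensteinSeries.E_qExpansion_coeff_zero (k := 4) (by norm_num) ⟨2, rfl⟩]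
    exact (UpperHalfPlane.qExpansion_coeff_zero one_pos
      (ModularFormClass.analyticAt_cuspFunction_zero E₄ one_pos one_mem_strictPeriods_SL)
      (SlashInvariantFormClass.periodic_comp_ofComplex E₄ one_mem_strictPeriods_SL)).symm
  obtain ⟨c, hc, h⟩ := ModularFormClass.exp_decay_sub_atImInfty' E₄
  have h2 : Tendsto (fun τ : ℍ => Real.exp (-c * τ.im)) atImInfty (𝓝 0) := by
    refine Real.tendsto_exp_atBot.comp ?_
    have h3 : Tendsto (fun τ : ℍ => τ.im) atImInfty atTop := tendsto_comap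
    exact (h3.const_mul_atTop_of_neg (by linarith : -c < 0))
  have h4 := h.trans_tendsto h2
  have h5 := h4.add_const (valueAtInfty (E₄ : ℍ → ℂ))
  rw [hval] at h5
  simpa using h5

theorem high (ε : ℝ) (he : 0 < ε) : ∃ A : ℝ, ∀ z : ℍ, A ≤ z.im →
    1728 * ‖discriminant z‖ ≤ ε * ‖E₄ z‖ ^ 3 := by
  have h1 : ∀ᶠ z : ℍ in atImInfty, 1 / 2 ≤ ‖E₄ z‖ := by
    have := E4_tendsto.norm
    rw [norm_one] at this
    exact (this.eventually (lt_mem_nhds (by norm_num : (1 / 2 : ℝ) < 1))).mono fun z hz => hz.le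
  have h2 : ∀ᶠ z : ℍ in atImInfty, ‖discriminant z‖ ≤ ε / 8 / 1728 := by
    have h3 : Tendsto discriminant atImInfty (𝓝 0) := discriminant_isZeroAtImInfty
    have h4 := h3.norm
    rw [norm_zero] at h4
    exact (h4.eventually (gt_mem_nhds (by positivity : (0 : ℝ) < ε / 8 / 1728))).mono
      fun z hz => hz.le
  obtain ⟨A, hA⟩ := (atImInfty_mem _).1 (h1.and h2)
  refine ⟨A, fun z hz => ?_⟩
  obtain ⟨h5, h6⟩ := hA z hz
  have h7 : (1 / 2 : ℝ) ^ 3 ≤ ‖E₄ z‖ ^ 3 := pow_le_pow_left₀ (by norm_num) h5 3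
  nlinarith

theorem compact_disc (A : ℝ) : ∃ c : ℝ, 0 < c ∧ ∀ z : ℂ, 0 < z.im → |z.re| ≤ 1 / 2 → 1 ≤ ‖z‖ →
    z.im ≤ A → c ≤ ‖discriminant (ofComplex z)‖ := by
  let K : Set ℂ := {z | 0 ≤ z.im ∧ |z.re| ≤ 1 / 2 ∧ 1 ≤ ‖z‖ ∧ z.im ≤ A}
  have hKim : ∀ z ∈ K, 0 < z.im := by
    rintro z ⟨h0, h1, h2, h3⟩
    have h4 : ‖z‖ ^ 2 = z.re ^ 2 + z.im ^ 2 := by
      rw [← Complex.normSq_eq_norm_sq, Complex.normSq_apply]; ring
    have h5 : z.re ^ 2 ≤ (1 / 2) ^ 2 := by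
      rw [← sq_abs]; exact pow_le_pow_left₀ (abs_nonneg _) h1 2
    have h6 : 1 ≤ ‖z‖ ^ 2 := one_le_pow₀ h2
    have h7 : 0 < z.im ^ 2 := by nlinarith
    exact lt_of_le_of_ne h0 (fun h => by rw [← h] at h7; norm_num at h7)
  have hKclosed : IsClosed K := by
    have c1 : IsClosed {z : ℂ | 0 ≤ z.im} := isClosed_le continuous_const Complex.continuous_im
    have c2 : IsClosed {z : ℂ | |z.re| ≤ 1 / 2} :=
      isClosed_le (Complex.continuous_re.abs) continuous_const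
    have c3 : IsClosed {z : ℂ | 1 ≤ ‖z‖} := isClosed_le continuous_const continuous_norm
    have c4 : IsClosed {z : ℂ | z.im ≤ A} := isClosed_le Complex.continuous_im continuous_const
    exact c1.inter (c2.inter (c3.inter c4))
  have hKb : Bornology.IsBounded K := by
    refine (Metric.isBounded_closedBall (x := (0 : ℂ)) (r := 1 / 2 + |A|)).subset ?_
    rintro z ⟨h0, h1, h2, h3⟩
    rw [mem_closedBall_zero_iff]
    calc ‖z‖ ≤ |z.re| + |z.im| := Complex.norm_le_abs_re_add_abs_im z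
      _ ≤ 1 / 2 + |A| := by
        have : |z.im| ≤ |A| := by rw [abs_of_nonneg h0]; exact h3.trans (le_abs_self A)
        linarith
  have hKc : IsCompact K := Metric.isCompact_of_isClosed_isBounded hKclosed hKb
  have hcont : ContinuousOn (fun z : ℂ => ‖discriminant (ofComplex z)‖) K := by
    have h1 := (UpperHalfPlane.mdifferentiable_iff.1 CuspForm.discriminant.holo').continuousOn
    exact (h1.mono fun z hz => hKim z hz).norm
  rcases K.eq_empty_or_nonempty with hE | hne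
  · refine ⟨1, one_pos, fun z h0 h1 h2 h3 => ?_⟩
    have : z ∈ K := ⟨h0.le, h1, h2, h3⟩
    rw [hE] at this
    exact absurd this (Set.notMem_empty z)
  · obtain ⟨z0, hz0, hmin⟩ := hKc.exists_isMinOn hne hcont
    refine ⟨‖discriminant (ofComplex z0)‖, norm_pos_iff.2 (discriminant_ne_zero _),
      fun z h0 h1 h2 h3 => hmin ⟨h0.le, h1, h2, h3⟩⟩

theorem disc_eq (hG : Stmt_GEis) (z : ℂ) :
    g2c z ^ 3 - 27 * g3c z ^ 2 = 4096 * (Real.pi : ℂ) ^ 12 * discriminant (ofComplex z) := by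
  rw [g2c, g3c, (hG _).1, (hG _).2, discriminant_eq_E₄_cube_sub_E₆_sq]
  ring

/-- The three exceptional regions. -/
theorem regions (hG : Stmt_GEis) (hP : Stmt_PerM) (ε : ℝ) (he : 0 < ε) (he1 : ε ≤ 1) :
    ∃ M : ℕ, ∀ L : PeriodPair, Reduced L → ∀ a b : ℤ, IsModel L a b → L.ω₁ / L.ω₂ ∉ KM M →
      |4 * (a : ℝ) ^ 3 + 27 * (b : ℝ) ^ 2| ≤ ε * |(a : ℝ)| ^ 3 ∨
      |(a : ℝ)| ^ 3 ≤ ε ^ 3 * (b : ℝ) ^ 2 ∨ (b : ℝ) ^ 2 ≤ ε ^ 2 * |(a : ℝ)| ^ 3 := by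
  obtain ⟨A, hA⟩ := high (ε / 4) (by positivity)
  obtain ⟨c, hc, hcz⟩ := compact_disc A
  set c' : ℝ := 4096 * Real.pi ^ 12 * c with hc'
  have hc'0 : 0 < c' := by positivity
  obtain ⟨M, hM⟩ := exists_nat_ge (max (max A 1) (max (27 / (2 * ε ^ 3 * c')) (32 / (ε ^ 2 * c'))))
  have hMA : A ≤ M := (le_max_left _ _).trans ((le_max_left _ _).trans hM)
  have hM1 : (1 : ℝ) ≤ M := (le_max_right _ _).trans ((le_max_left _ _).trans hM)
  have hMb : 27 / (2 * ε ^ 3 * c') ≤ M := (le_max_left _ _).trans ((le_max_right _ _).trans hM)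
  have hMc : 32 / (ε ^ 2 * c') ≤ M := (le_max_right _ _).trans ((le_max_right _ _).trans hM)
  refine ⟨M, fun L hL a b hab hK => ?_⟩
  obtain ⟨him, hre, hno⟩ := hL
  set τ : ℂ := L.ω₁ / L.ω₂ with hτ
  have hw : L.ω₂ ≠ 0 := by
    intro h0
    rw [hτ, h0, div_zero] at him
    simp at him
  obtain ⟨-, -, -, hg2, hg3⟩ := hP L him
  rw [← hτ] at hg2 hg3
  obtain ⟨ha, hb⟩ := hab
  rw [ha] at hg2
  rw [hb] at hg3
  set r : ℝ := ‖L.ω₂‖ ^ 12 with hr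
  have hwn : 0 < ‖L.ω₂‖ := norm_pos_iff.2 hw
  have hr0 : 0 < r := by positivity
  -- the three identities
  have hac : (4 * (a : ℂ)) * L.ω₂ ^ 4 = -g2c τ := by
    field_simp at hg2
    linear_combination -hg2
  have hbc : (4 * (b : ℂ)) * L.ω₂ ^ 6 = -g3c τ := by
    field_simp at hg3
    linear_combination -hg3
  have e1 : 64 * |(a : ℝ)| ^ 3 * r = ‖g2c τ‖ ^ 3 := by
    have h := congrArg (fun x => ‖x‖ ^ 3) hac
    simp only [norm_mul, norm_neg, norm_pow, Complex.norm_intCast, Complex.norm_ofNat] at h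
    rw [← h, hr]
    ring
  have e2 : 16 * (b : ℝ) ^ 2 * r = ‖g3c τ‖ ^ 2 := by
    have h := congrArg (fun x => ‖x‖ ^ 2) hbc
    simp only [norm_mul, norm_neg, norm_pow, Complex.norm_intCast, Complex.norm_ofNat] at h
    rw [← h, hr, ← sq_abs (b : ℝ)]
    ring
  have e3 : 16 * |4 * (a : ℝ) ^ 3 + 27 * (b : ℝ) ^ 2| * r = ‖g2c τ ^ 3 - 27 * g3c τ ^ 2‖ := by
    have h : g2c τ ^ 3 - 27 * g3c τ ^ 2 =
        -((16 : ℂ) * ((4 * (a : ℝ) ^ 3 + 27 * (b : ℝ) ^ 2 : ℝ) : ℂ) * L.ω₂ ^ 12) := by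
      have h1 : g2c τ = -((4 * (a : ℂ)) * L.ω₂ ^ 4) := by rw [hac, neg_neg]
      have h2 : g3c τ = -((4 * (b : ℂ)) * L.ω₂ ^ 6) := by rw [hbc, neg_neg]
      rw [h1, h2]
      push_cast
      ring
    rw [h, norm_neg, norm_mul, norm_mul, Complex.norm_real, norm_pow, Real.norm_eq_abs,
      Complex.norm_ofNat, hr]
  have hτH : ((ofComplex τ : ℍ) : ℂ) = τ := by rw [ofComplex_apply_of_im_pos him]
  by_cases hbig : A ≤ τ.im
  · left
    have h1 := hA (ofComplex τ) (by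
      have : (ofComplex τ).im = τ.im := by rw [← UpperHalfPlane.coe_im, hτH]
      rw [this]; exact hbig)
    have h2 : ‖g2c τ ^ 3 - 27 * g3c τ ^ 2‖ ≤ ε / 4 * ‖g2c τ‖ ^ 3 := by
      rw [disc_eq hG, g2c, (hG _).1]
      simp only [norm_mul, norm_div, norm_pow, Complex.norm_real, Complex.norm_ofNat,
        Real.norm_eq_abs, abs_of_pos Real.pi_pos]
      have h3 : (0 : ℝ) ≤ 64 * Real.pi ^ 12 / 27 := by positivity
      have h4 := mul_le_mul_of_nonneg_left h1 h3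
      calc 4096 * Real.pi ^ 12 * ‖discriminant (ofComplex τ)‖
          = 64 * Real.pi ^ 12 / 27 * (1728 * ‖discriminant (ofComplex τ)‖) := by ring
        _ ≤ 64 * Real.pi ^ 12 / 27 * (ε / 4 * ‖E₄ (ofComplex τ)‖ ^ 3) := h4
        _ = ε / 4 * (4 * Real.pi ^ 4 / 3 * ‖E₄ (ofComplex τ)‖) ^ 3 := by ring
    rw [← e3, ← e1] at h2
    have h5 : (16 * |4 * (a : ℝ) ^ 3 + 27 * (b : ℝ) ^ 2|) * r ≤ (16 * (ε * |(a : ℝ)| ^ 3)) * r := by
      calc (16 * |4 * (a : ℝ) ^ 3 + 27 * (b : ℝ) ^ 2|) * r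
          ≤ ε / 4 * (64 * |(a : ℝ)| ^ 3 * r) := h2
        _ = (16 * (ε * |(a : ℝ)| ^ 3)) * r := by ring
    have h6 := le_of_mul_le_mul_right h5 hr0
    linarith
  · push Not at hbig
    right
    have hdisc : c' ≤ ‖g2c τ ^ 3 - 27 * g3c τ ^ 2‖ := by
      rw [disc_eq hG]
      simp only [norm_mul, norm_pow, Complex.norm_real, Complex.norm_ofNat,
        Real.norm_eq_abs, abs_of_pos Real.pi_pos]
      rw [hc']
      exact mul_le_mul_of_nonneg_left (hcz τ him hre hno hbig.le) (by positivity)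
    have htri : ‖g2c τ ^ 3 - 27 * g3c τ ^ 2‖ ≤ ‖g2c τ‖ ^ 3 + 27 * ‖g3c τ‖ ^ 2 := by
      refine (norm_sub_le _ _).trans (le_of_eq ?_)
      simp only [norm_mul, norm_pow, Complex.norm_ofNat]
    have hor : (M : ℝ) * ‖g2c τ‖ < 1 ∨ (M : ℝ) * ‖g3c τ‖ < 1 := by
      by_contra hcon
      push Not at hcon
      exact hK ⟨him, hre, hno, hbig.le.trans hMA, hcon.1, hcon.2⟩
    have hM0 : (0 : ℝ) < M := by linarith
    rcases hor with h | h
    · left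
      have h1 : ‖g2c τ‖ < 1 / M := by rw [lt_div_iff₀ hM0]; linarith
      have h1' : ‖g2c τ‖ ≤ 1 := by
        refine h1.le.trans ?_
        rw [div_le_one hM0]; exact hM1
      have h2 : ‖g2c τ‖ ^ 3 ≤ 1 / M := by
        calc ‖g2c τ‖ ^ 3 = ‖g2c τ‖ ^ 2 * ‖g2c τ‖ := by ring
          _ ≤ 1 * ‖g2c τ‖ := mul_le_mul_of_nonneg_right (pow_le_one₀ (norm_nonneg _) h1')
              (norm_nonneg _)
          _ ≤ 1 / M := by rw [one_mul]; exact h1.le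
      have h3 : 27 / (2 * ε ^ 3 * c') ≤ M := hMb
      have h4 : 27 ≤ M * (2 * ε ^ 3 * c') := by
        rwa [div_le_iff₀ (by positivity)] at h3
      have h5 : 27 * (1 / (M : ℝ)) ≤ 2 * ε ^ 3 * c' := by
        rw [mul_one_div, div_le_iff₀ hM0]; linarith
      have h6 : ε ^ 3 ≤ 1 := pow_le_one₀ he.le he1
      have h7 : ‖g2c τ‖ ^ 3 ≤ 4 * ε ^ 3 * ‖g3c τ‖ ^ 2 := by
        have h8 : c' - 1 / M ≤ 27 * ‖g3c τ‖ ^ 2 := by linarith
        have h9 : ε ^ 3 * (c' - 1 / M) ≤ ε ^ 3 * (27 * ‖g3c τ‖ ^ 2) :=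
          mul_le_mul_of_nonneg_left h8 (by positivity)
        have h10 : ε ^ 3 * (1 / (M : ℝ)) ≤ 1 / M := by
          have : (0 : ℝ) ≤ 1 / M := by positivity
          nlinarith
        nlinarith
      rw [← e1, ← e2] at h7
      have h11 : (64 * |(a : ℝ)| ^ 3) * r ≤ (64 * (ε ^ 3 * (b : ℝ) ^ 2)) * r := by
        calc (64 * |(a : ℝ)| ^ 3) * r ≤ 4 * ε ^ 3 * (16 * (b : ℝ) ^ 2 * r) := h7
          _ = (64 * (ε ^ 3 * (b : ℝ) ^ 2)) * r := by ring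
      have h12 := le_of_mul_le_mul_right h11 hr0
      linarith
    · right
      have h1 : ‖g3c τ‖ < 1 / M := by rw [lt_div_iff₀ hM0]; linarith
      have h1' : ‖g3c τ‖ ≤ 1 := by
        refine h1.le.trans ?_
        rw [div_le_one hM0]; exact hM1
      have h2 : ‖g3c τ‖ ^ 2 ≤ 1 / M := by
        calc ‖g3c τ‖ ^ 2 = ‖g3c τ‖ * ‖g3c τ‖ := by ring
          _ ≤ 1 * ‖g3c τ‖ := mul_le_mul_of_nonneg_right h1' (norm_nonneg _)
          _ ≤ 1 / M := by rw [one_mul]; exact h1.le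
      have h4 : 32 ≤ M * (ε ^ 2 * c') := by
        have h3 : 32 / (ε ^ 2 * c') ≤ M := hMc
        rwa [div_le_iff₀ (by positivity)] at h3
      have h5 : 32 * (1 / (M : ℝ)) ≤ ε ^ 2 * c' := by
        rw [mul_one_div, div_le_iff₀ hM0]; linarith
      have h6 : ε ^ 2 ≤ 1 := pow_le_one₀ he.le he1
      have h7 : ‖g3c τ‖ ^ 2 ≤ ε ^ 2 / 4 * ‖g2c τ‖ ^ 3 := by
        have h8 : c' - 27 * (1 / M) ≤ ‖g2c τ‖ ^ 3 := by linarith
        have h9 : ε ^ 2 * (c' - 27 * (1 / M)) ≤ ε ^ 2 * ‖g2c τ‖ ^ 3 :=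
          mul_le_mul_of_nonneg_left h8 (by positivity)
        have h10 : ε ^ 2 * (1 / (M : ℝ)) ≤ 1 / M := by
          have : (0 : ℝ) ≤ 1 / M := by positivity
          nlinarith
        nlinarith
      rw [← e1, ← e2] at h7
      have h11 : (16 * (b : ℝ) ^ 2) * r ≤ (16 * (ε ^ 2 * |(a : ℝ)| ^ 3)) * r := by
        calc (16 * (b : ℝ) ^ 2) * r ≤ ε ^ 2 / 4 * (64 * |(a : ℝ)| ^ 3 * r) := h7
          _ = (16 * (ε ^ 2 * |(a : ℝ)| ^ 3)) * r := by ring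
      have h12 := le_of_mul_le_mul_right h11 hr0
      linarith

/-! ## Counting -/

theorem card_le_of_diff (s : Finset ℤ) (q : ℕ) (h : ∀ x ∈ s, ∀ y ∈ s, x - y ≤ q) :
    s.card ≤ q + 1 := by
  rcases s.eq_empty_or_nonempty with rfl | hne
  · simp
  · have hsub : s ⊆ Finset.Icc (s.min' hne) (s.min' hne + q) := by
      intro x hx
      rw [Finset.mem_Icc]
      refine ⟨s.min'_le x hx, ?_⟩
      have := h x hx _ (s.min'_mem hne)
      linarith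
    have h2 := Finset.card_le_card hsub
    rw [Int.card_Icc] at h2
    have h3 : (s.min' hne + q + 1 - s.min' hne).toNat = q + 1 := by
      have : s.min' hne + (q : ℤ) + 1 - s.min' hne = ((q + 1 : ℕ) : ℤ) := by push_cast; ring
      rw [this]
      exact Int.toNat_natCast _
    rwa [h3] at h2

/-- positive solutions differ by little -/
theorem diff_le (ε Y : ℝ) (he : 0 < ε) (he1 : ε ≤ 1) (a b b' : ℝ) (hb' : 0 < b') (hbb : b' ≤ b)
    (hbY : b' ≤ Y) (h1 : |4 * a ^ 3 + 27 * b ^ 2| ≤ ε * |a| ^ 3)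
    (h2 : |4 * a ^ 3 + 27 * b' ^ 2| ≤ ε * |a| ^ 3) : b - b' ≤ ε * Y := by
  have ha : a < 0 := by
    by_contra hcon
    push Not at hcon
    rw [abs_of_nonneg hcon] at h2
    have h3 := (abs_le.1 h2).2
    have h4 : 0 ≤ a ^ 3 := by positivity
    have h5 : ε * a ^ 3 ≤ a ^ 3 := by nlinarith
    have h6 : 0 < b' ^ 2 := by positivity
    linarith
  rw [abs_of_neg ha] at h1 h2
  set t : ℝ := (-a) ^ 3 with ht
  have hat : a ^ 3 = -t := by rw [ht]; ring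
  have ht0 : 0 ≤ t := by rw [ht]; exact pow_nonneg (by linarith) 3
  rw [hat] at h1 h2
  have h3 := (abs_le.1 h1).2
  have h4 := (abs_le.1 h2).1
  have h5 : ε * t ≤ t := by nlinarith
  have h6 : t ≤ 9 * b' ^ 2 := by linarith
  have h7 : 27 * (b ^ 2 - b' ^ 2) ≤ 2 * (ε * t) := by linarith
  have h8 : ε * t ≤ ε * (9 * b' ^ 2) := mul_le_mul_of_nonneg_left h6 he.le
  have h9 : 27 * ((b - b') * (b + b')) ≤ 18 * (ε * b') * (b + b') := by
    have : (b - b') * (b + b') = b ^ 2 - b' ^ 2 := by ring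
    rw [this]
    have h10 : ε * b' * b' ≤ ε * b' * (b + b') :=
      mul_le_mul_of_nonneg_left (by linarith) (by positivity)
    nlinarith
  have h10 : 0 < b + b' := by linarith
  have h11 : 27 * (b - b') ≤ 18 * (ε * b') := by
    have : (27 * (b - b')) * (b + b') ≤ (18 * (ε * b')) * (b + b') := by linarith
    exact le_of_mul_le_mul_right this h10
  have h12 : ε * b' ≤ ε * Y := mul_le_mul_of_nonneg_left hbY he.le
  have h13 : 0 < ε * b' := by positivity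
  linarith

/-- the fibre bound -/
theorem fibre (ε : ℝ) (he : 0 < ε) (he1 : ε ≤ 1) (X : ℕ) (a : ℤ) (s : Finset ℤ)
    (hs : ∀ b ∈ s, |b| ≤ (X : ℤ) ^ 3 ∧
      |4 * (a : ℝ) ^ 3 + 27 * (b : ℝ) ^ 2| ≤ ε * |(a : ℝ)| ^ 3) :
    s.card ≤ 2 * ⌊ε * (X : ℝ) ^ 3⌋₊ + 3 := by
  classical
  set q := ⌊ε * (X : ℝ) ^ 3⌋₊ with hq
  have hX : ∀ b ∈ s, |(b : ℝ)| ≤ (X : ℝ) ^ 3 := by
    intro b hb
    have h := (hs b hb).1
    have h2 : ((|b| : ℤ) : ℝ) ≤ (((X : ℤ) ^ 3 : ℤ) : ℝ) := by exact_mod_cast h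
    push_cast at h2
    exact h2
  have key : ∀ x ∈ s, ∀ y ∈ s, 0 < |x| → 0 < |y| → |x| - |y| ≤ q := by
    intro x hx y hy hx0 hy0
    rcases le_total |x| |y| with h | h
    · have : (0 : ℤ) ≤ q := Int.natCast_nonneg _
      linarith
    · have hyr : (0 : ℝ) < |(y : ℝ)| := by
        have : ((0 : ℤ) : ℝ) < ((|y| : ℤ) : ℝ) := by exact_mod_cast hy0
        push_cast at this
        exact this
      have hxy : |(y : ℝ)| ≤ |(x : ℝ)| := by
        have : ((|y| : ℤ) : ℝ) ≤ ((|x| : ℤ) : ℝ) := by exact_mod_cast h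
        push_cast at this
        exact this
      have h1 := (hs x hx).2
      have h2 := (hs y hy).2
      rw [← sq_abs (x : ℝ)] at h1
      rw [← sq_abs (y : ℝ)] at h2
      have h3 := diff_le ε ((X : ℝ) ^ 3) he he1 a |(x : ℝ)| |(y : ℝ)| hyr hxy (hX y hy) h1 h2
      have h4 : ((|x| - |y| : ℤ) : ℝ) ≤ ε * (X : ℝ) ^ 3 := by push_cast; exact h3
      have h5 : (|x| - |y|).toNat ≤ q := by
        rw [hq]
        apply Nat.le_floor
        have h6 : (0 : ℤ) ≤ |x| - |y| := by linarith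
        have h7 : (((|x| - |y|).toNat : ℕ) : ℝ) = ((|x| - |y| : ℤ) : ℝ) := by
          have := Int.toNat_of_nonneg h6
          exact_mod_cast this
        rw [h7]
        exact h4
      omega
  have hsplit : s ⊆ (s.filter fun b => 0 < b) ∪ ((s.filter fun b => b < 0) ∪ {0}) := by
    intro b hb
    simp only [Finset.mem_union, Finset.mem_filter, Finset.mem_singleton]
    rcases lt_trichotomy b 0 with h | h | h
    · right; left; exact ⟨hb, h⟩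
    · right; right; exact h
    · left; exact ⟨hb, h⟩
  have hpos : (s.filter fun b => 0 < b).card ≤ q + 1 := by
    refine card_le_of_diff _ q fun x hx y hy => ?_
    rw [Finset.mem_filter] at hx hy
    have := key x hx.1 y hy.1 (abs_pos.2 hx.2.ne') (abs_pos.2 hy.2.ne')
    rwa [abs_of_pos hx.2, abs_of_pos hy.2] at this
  have hneg : (s.filter fun b => b < 0).card ≤ q + 1 := by
    refine card_le_of_diff _ q fun x hx y hy => ?_
    rw [Finset.mem_filter] at hx hy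
    have := key y hy.1 x hx.1 (abs_pos.2 hy.2.ne) (abs_pos.2 hx.2.ne)
    rw [abs_of_neg hx.2, abs_of_neg hy.2] at this
    linarith
  have h1 := Finset.card_le_card hsplit
  have h2 := Finset.card_union_le (s.filter fun b => 0 < b) ((s.filter fun b => b < 0) ∪ {0})
  have h3 := Finset.card_union_le (s.filter fun b => b < 0) ({0} : Finset ℤ)
  rw [Finset.card_singleton] at h3
  omega

theorem card_Icc_sym (n : ℕ) : (Finset.Icc (-(n : ℤ)) n).card = 2 * n + 1 := by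
  rw [Int.card_Icc]
  have : (n : ℤ) + 1 - -(n : ℤ) = ((2 * n + 1 : ℕ) : ℤ) := by push_cast; ring
  rw [this]
  exact Int.toNat_natCast _

theorem abs_le_floor (x : ℤ) (y : ℝ) (h : |(x : ℝ)| ≤ y) : x ∈ Finset.Icc (-(⌊y⌋₊ : ℤ)) ⌊y⌋₊ := by
  have h1 : x.natAbs ≤ ⌊y⌋₊ := by
    apply Nat.le_floor
    rw [Nat.cast_natAbs]
    push_cast
    exact h
  rw [Finset.mem_Icc]
  omega

open Classical in
theorem count (ε : ℝ) (he : 0 < ε) (he1 : ε ≤ 1) (X : ℕ) (hX : 4 ≤ ε * X) (hX1 : 1 ≤ X) :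
    (((box X).filter fun p : ℤ × ℤ =>
      |4 * (p.1 : ℝ) ^ 3 + 27 * (p.2 : ℝ) ^ 2| ≤ ε * |(p.1 : ℝ)| ^ 3 ∨
      |(p.1 : ℝ)| ^ 3 ≤ ε ^ 3 * (p.2 : ℝ) ^ 2 ∨ (p.2 : ℝ) ^ 2 ≤ ε ^ 2 * |(p.1 : ℝ)| ^ 3).card : ℝ) ≤
      5 * ε * (box X).card := by
  set X2 : ℕ := X ^ 2 with hX2
  set X3 : ℕ := X ^ 3 with hX3
  have hbox : box X = Finset.Icc (-(X2 : ℤ)) X2 ×ˢ Finset.Icc (-(X3 : ℤ)) X3 := by
    rw [box, hX2, hX3]; push_cast; rfl
  have hboxc : ((box X).card : ℝ) = (2 * (X : ℝ) ^ 2 + 1) * (2 * (X : ℝ) ^ 3 + 1) := by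
    rw [hbox, Finset.card_product, card_Icc_sym, card_Icc_sym, hX2, hX3]
    push_cast
    ring
  set q2 := ⌊ε * (X : ℝ) ^ 2⌋₊ with hq2
  set q3 := ⌊ε * (X : ℝ) ^ 3⌋₊ with hq3
  have hmem : ∀ p ∈ box X, |(p.1 : ℝ)| ≤ (X : ℝ) ^ 2 ∧ |(p.2 : ℝ)| ≤ (X : ℝ) ^ 3 ∧
      |p.2| ≤ (X : ℤ) ^ 3 := by
    intro p hp
    rw [box, Finset.mem_product, Finset.mem_Icc, Finset.mem_Icc] at hp
    have h1 : |p.1| ≤ (X : ℤ) ^ 2 := abs_le.2 hp.1
    have h2 : |p.2| ≤ (X : ℤ) ^ 3 := abs_le.2 hp.2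
    refine ⟨?_, ?_, h2⟩
    · have : ((|p.1| : ℤ) : ℝ) ≤ (((X : ℤ) ^ 2 : ℤ) : ℝ) := by exact_mod_cast h1
      push_cast at this
      exact this
    · have : ((|p.2| : ℤ) : ℝ) ≤ (((X : ℤ) ^ 3 : ℤ) : ℝ) := by exact_mod_cast h2
      push_cast at this
      exact this
  have hsub : ((box X).filter fun p : ℤ × ℤ =>
      |4 * (p.1 : ℝ) ^ 3 + 27 * (p.2 : ℝ) ^ 2| ≤ ε * |(p.1 : ℝ)| ^ 3 ∨
      |(p.1 : ℝ)| ^ 3 ≤ ε ^ 3 * (p.2 : ℝ) ^ 2 ∨ (p.2 : ℝ) ^ 2 ≤ ε ^ 2 * |(p.1 : ℝ)| ^ 3) ⊆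
      ((box X).filter fun p : ℤ × ℤ =>
        |4 * (p.1 : ℝ) ^ 3 + 27 * (p.2 : ℝ) ^ 2| ≤ ε * |(p.1 : ℝ)| ^ 3) ∪
      (Finset.Icc (-(q2 : ℤ)) q2 ×ˢ Finset.Icc (-(X3 : ℤ)) X3 ∪
      Finset.Icc (-(X2 : ℤ)) X2 ×ˢ Finset.Icc (-(q3 : ℤ)) q3) := by
    intro p hp
    rw [Finset.mem_filter] at hp
    obtain ⟨hpb, hc⟩ := hp
    obtain ⟨h1, h2, -⟩ := hmem p hpb
    have hpb' := hpb
    rw [hbox, Finset.mem_product] at hpb'
    rw [Finset.mem_union, Finset.mem_union, Finset.mem_filter, Finset.mem_product,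
      Finset.mem_product]
    rcases hc with hc | hc | hc
    · left; exact ⟨hpb, hc⟩
    · right; left
      refine ⟨abs_le_floor _ _ ?_, hpb'.2⟩
      have h3 : |(p.1 : ℝ)| ^ 3 ≤ (ε * (X : ℝ) ^ 2) ^ 3 := by
        refine hc.trans ?_
        have h4 : (p.2 : ℝ) ^ 2 ≤ ((X : ℝ) ^ 3) ^ 2 := by
          rw [← sq_abs]; exact pow_le_pow_left₀ (abs_nonneg _) h2 2
        calc ε ^ 3 * (p.2 : ℝ) ^ 2 ≤ ε ^ 3 * ((X : ℝ) ^ 3) ^ 2 :=
              mul_le_mul_of_nonneg_left h4 (by positivity)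
          _ = (ε * (X : ℝ) ^ 2) ^ 3 := by ring
      exact le_of_pow_le_pow_left₀ (by norm_num) (by positivity) h3
    · right; right
      refine ⟨hpb'.1, abs_le_floor _ _ ?_⟩
      have h3 : |(p.2 : ℝ)| ^ 2 ≤ (ε * (X : ℝ) ^ 3) ^ 2 := by
        rw [sq_abs]
        refine hc.trans ?_
        have h4 : |(p.1 : ℝ)| ^ 3 ≤ ((X : ℝ) ^ 2) ^ 3 := pow_le_pow_left₀ (abs_nonneg _) h1 3
        calc ε ^ 2 * |(p.1 : ℝ)| ^ 3 ≤ ε ^ 2 * ((X : ℝ) ^ 2) ^ 3 :=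
              mul_le_mul_of_nonneg_left h4 (by positivity)
          _ = (ε * (X : ℝ) ^ 3) ^ 2 := by ring
      exact le_of_pow_le_pow_left₀ (by norm_num) (by positivity) h3
  have hF1 : ((box X).filter fun p : ℤ × ℤ =>
        |4 * (p.1 : ℝ) ^ 3 + 27 * (p.2 : ℝ) ^ 2| ≤ ε * |(p.1 : ℝ)| ^ 3).card ≤
      (2 * q3 + 3) * (2 * X2 + 1) := by
    rw [← card_Icc_sym X2]
    refine Finset.card_le_mul_card_image_of_maps_to (f := Prod.fst) ?_ _ ?_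
    · intro p hp
      rw [Finset.mem_filter, hbox, Finset.mem_product] at hp
      exact hp.1.1
    · intro a _
      set G := (((box X).filter fun p : ℤ × ℤ =>
        |4 * (p.1 : ℝ) ^ 3 + 27 * (p.2 : ℝ) ^ 2| ≤ ε * |(p.1 : ℝ)| ^ 3).filter
          fun p => p.1 = a) with hG
      have hinj : Set.InjOn Prod.snd (G : Set (ℤ × ℤ)) := by
        intro p hp p' hp' h
        have h1 := (Finset.mem_filter.1 (Finset.mem_coe.1 hp)).2
        have h2 := (Finset.mem_filter.1 (Finset.mem_coe.1 hp')).2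
        exact Prod.ext (h1.trans h2.symm) h
      rw [← Finset.card_image_of_injOn hinj]
      refine fibre ε he he1 X a _ fun b hb => ?_
      obtain ⟨p, hp, rfl⟩ := Finset.mem_image.1 hb
      obtain ⟨h1, h2⟩ := Finset.mem_filter.1 hp
      obtain ⟨h3, h4⟩ := Finset.mem_filter.1 h1
      rw [h2] at h4
      exact ⟨(hmem p h3).2.2, h4⟩
  have hcard := Finset.card_le_card hsub
  have hu1 := Finset.card_union_le ((box X).filter fun p : ℤ × ℤ =>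
        |4 * (p.1 : ℝ) ^ 3 + 27 * (p.2 : ℝ) ^ 2| ≤ ε * |(p.1 : ℝ)| ^ 3)
      (Finset.Icc (-(q2 : ℤ)) q2 ×ˢ Finset.Icc (-(X3 : ℤ)) X3 ∪
      Finset.Icc (-(X2 : ℤ)) X2 ×ˢ Finset.Icc (-(q3 : ℤ)) q3)
  have hu2 := Finset.card_union_le (Finset.Icc (-(q2 : ℤ)) q2 ×ˢ Finset.Icc (-(X3 : ℤ)) X3)
      (Finset.Icc (-(X2 : ℤ)) X2 ×ˢ Finset.Icc (-(q3 : ℤ)) q3)
  rw [Finset.card_product, Finset.card_product, card_Icc_sym, card_Icc_sym, card_Icc_sym,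
    card_Icc_sym] at hu2
  have hnat := hcard.trans (hu1.trans (add_le_add hF1 hu2))
  have hreal : (((box X).filter fun p : ℤ × ℤ =>
      |4 * (p.1 : ℝ) ^ 3 + 27 * (p.2 : ℝ) ^ 2| ≤ ε * |(p.1 : ℝ)| ^ 3 ∨
      |(p.1 : ℝ)| ^ 3 ≤ ε ^ 3 * (p.2 : ℝ) ^ 2 ∨ (p.2 : ℝ) ^ 2 ≤ ε ^ 2 * |(p.1 : ℝ)| ^ 3).card : ℝ) ≤
      (2 * (q3 : ℝ) + 3) * (2 * (X : ℝ) ^ 2 + 1) + ((2 * (q2 : ℝ) + 1) * (2 * (X : ℝ) ^ 3 + 1) +
        (2 * (X : ℝ) ^ 2 + 1) * (2 * (q3 : ℝ) + 1)) := by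
    have := (Nat.cast_le (α := ℝ)).2 hnat
    rw [hX2, hX3] at this
    push_cast at this
    exact this
  refine hreal.trans ?_
  rw [hboxc]
  have hXr : (1 : ℝ) ≤ X := by exact_mod_cast hX1
  have hq2' : (q2 : ℝ) ≤ ε * (X : ℝ) ^ 2 := Nat.floor_le (by positivity)
  have hq3' : (q3 : ℝ) ≤ ε * (X : ℝ) ^ 3 := Nat.floor_le (by positivity)
  have h2 : 4 ≤ ε * (X : ℝ) ^ 2 := by
    have : ε * (X : ℝ) ≤ ε * (X : ℝ) ^ 2 := by
      rw [sq]; exact mul_le_mul_of_nonneg_left (by nlinarith) he.le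
    linarith
  have h3 : 4 ≤ ε * (X : ℝ) ^ 3 := by
    have : ε * (X : ℝ) ^ 2 ≤ ε * (X : ℝ) ^ 3 := by
      refine mul_le_mul_of_nonneg_left ?_ he.le
      exact pow_le_pow_right₀ hXr (by norm_num)
    linarith
  have hA : (0 : ℝ) ≤ 2 * (X : ℝ) ^ 2 + 1 := by positivity
  have hB : (0 : ℝ) ≤ 2 * (X : ℝ) ^ 3 + 1 := by positivity
  have i1 : 4 * (q3 : ℝ) + 4 ≤ 3 * ε * (2 * (X : ℝ) ^ 3 + 1) := by linarith
  have i2 : 2 * (q2 : ℝ) + 1 ≤ 2 * ε * (2 * (X : ℝ) ^ 2 + 1) := by linarith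
  have j1 := mul_le_mul_of_nonneg_right i1 hA
  have j2 := mul_le_mul_of_nonneg_right i2 hB
  nlinarith

theorem thm (hG : Stmt_GEis) (hP : Stmt_PerM) : Stmt_Region := by
  classical
  intro δ hδ
  set ε : ℝ := min (δ / 5) 1 with hε
  have he : 0 < ε := lt_min (by positivity) one_pos
  have he1 : ε ≤ 1 := min_le_right _ _
  have heδ : 5 * ε ≤ δ := by
    have := min_le_left (δ / 5) (1 : ℝ)
    rw [← hε] at this
    linarith
  obtain ⟨M, hM⟩ := regions hG hP ε he he1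
  obtain ⟨X0, hX0⟩ := exists_nat_ge (max (4 / ε) 1)
  refine ⟨M, X0, fun X hX => ?_⟩
  have hXr : (X0 : ℝ) ≤ X := by exact_mod_cast hX
  have h4 : 4 ≤ ε * X := by
    have : 4 / ε ≤ X := (le_max_left _ _).trans (hX0.trans hXr)
    rw [div_le_iff₀ he] at this
    linarith
  have h1 : 1 ≤ X := by
    have : (1 : ℝ) ≤ X := (le_max_right _ _).trans (hX0.trans hXr)
    exact_mod_cast this
  have hc := count ε he he1 X h4 h1
  refine le_trans ?_ (hc.trans (mul_le_mul_of_nonneg_right heδ (by positivity)))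
  refine (Nat.cast_le (α := ℝ)).2 ?_
  rw [← Nat.card_eq_finsetCard]
  have hmem : ∀ p : {p : ℤ × ℤ // p ∈ box X ∧ ∃ L : PeriodPair, Reduced L ∧ IsModel L p.1 p.2 ∧
      L.ω₁ / L.ω₂ ∉ KM M}, p.1 ∈ (box X).filter fun p : ℤ × ℤ =>
      |4 * (p.1 : ℝ) ^ 3 + 27 * (p.2 : ℝ) ^ 2| ≤ ε * |(p.1 : ℝ)| ^ 3 ∨
      |(p.1 : ℝ)| ^ 3 ≤ ε ^ 3 * (p.2 : ℝ) ^ 2 ∨ (p.2 : ℝ) ^ 2 ≤ ε ^ 2 * |(p.1 : ℝ)| ^ 3 := by
    intro p
    obtain ⟨hpb, L, hL, hm, hK⟩ := p.2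
    rw [Finset.mem_filter]
    exact ⟨hpb, hM L hL _ _ hm hK⟩
  refine Nat.card_le_card_of_injective (fun p => ⟨p.1, hmem p⟩) ?_
  intro p p' h
  have := congrArg Subtype.val h
  exact Subtype.ext this

end

end Pool.Agent.GPC.REGION
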