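import Pool.Agent.GPC.Defs

/-!
# Module SEQ of squad GPC: there is no bad sequence
-/

set_option autoImplicit false

open scoped BigOperators Topology
open Metric

namespace Pool.Agent.GPC.SEQ

open Pool.Agent.GPC

/-- A holomorphic function is Lipschitz on a smaller closed ball. -/
theorem exists_lip (z0 : ℂ) (ρ : ℝ) (hρ : 0 < ρ) (s : ℂ → ℂ)
    (hs : DifferentiableOn ℂ s (ball z0 (10 * ρ))) :
    ∃ L : ℝ, 0 ≤ L ∧ ∀ x ∈ closedBall z0 ρ, ∀ y ∈ closedBall z0 ρ, ‖s y - s x‖ ≤ L * ‖y - x‖ := by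
  have hsub : closedBall z0 ρ ⊆ ball z0 (10 * ρ) := closedBall_subset_ball (by linarith)
  have hd : ContinuousOn (deriv s) (closedBall z0 ρ) :=
    ((hs.deriv isOpen_ball).continuousOn).mono hsub
  obtain ⟨L, hL⟩ := (isCompact_closedBall z0 ρ).exists_bound_of_continuousOn hd
  refine ⟨max L 0, le_max_right _ _, fun x hx y hy => ?_⟩
  refine Convex.norm_image_sub_le_of_norm_deriv_le (s := closedBall z0 ρ) ?_ ?_
    (convex_closedBall z0 ρ) hx hy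
  · intro z hz
    exact (hs z (hsub hz)).differentiableAt (isOpen_ball.mem_nhds (hsub hz))
  · intro z hz
    exact (hL z hz).trans (le_max_left _ _)

/-- Distinct rational numbers with small denominators are far apart. -/
theorem rat_sep (H : ℕ) (r r' : ℚ) (hr : r.den ≤ H) (hr' : r'.den ≤ H) (hne : r ≠ r') :
    1 ≤ ‖((r : ℂ) - (r' : ℂ))‖ * (H : ℝ) ^ 2 := by
  have h1 : ((r : ℂ) - (r' : ℂ)) = (((r - r' : ℚ) : ℝ) : ℂ) := by push_cast; ring
  rw [h1, Complex.norm_real, Real.norm_eq_abs]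
  have hd : (0 : ℚ) < r.den := by exact_mod_cast r.den_pos
  have hd' : (0 : ℚ) < r'.den := by exact_mod_cast r'.den_pos
  have h2 : (r - r') * (r.den * r'.den) = ((r.num * r'.den - r'.num * r.den : ℤ) : ℚ) := by
    have e1 : (r : ℚ) * r.den = r.num := Rat.mul_den_eq_num r
    have e2 : (r' : ℚ) * r'.den = r'.num := Rat.mul_den_eq_num r'
    push_cast
    rw [← e1, ← e2]
    ring
  have h3 : (r.num * r'.den - r'.num * r.den : ℤ) ≠ 0 := by
    intro h0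
    rw [h0] at h2
    push_cast at h2
    rcases mul_eq_zero.1 h2 with h | h
    · exact hne (sub_eq_zero.1 h)
    · exact (mul_pos hd hd').ne' h
  have h4 : (1 : ℚ) ≤ |r - r'| * (r.den * r'.den) := by
    rw [← abs_of_pos (mul_pos hd hd'), ← abs_mul, h2]
    exact_mod_cast Int.one_le_abs h3
  have h5 : |r - r'| * (r.den * r'.den) ≤ |r - r'| * (H : ℚ) ^ 2 := by
    apply mul_le_mul_of_nonneg_left _ (abs_nonneg _)
    rw [pow_two]
    have a1 : (r.den : ℚ) ≤ H := by exact_mod_cast hr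
    have a2 : (r'.den : ℚ) ≤ H := by exact_mod_cast hr'
    exact mul_le_mul a1 a2 hd'.le (hd.le.trans a1)
  have h6 := h4.trans h5
  have h7 : ((1 : ℚ) : ℝ) ≤ ((|r - r'| * (H : ℚ) ^ 2 : ℚ) : ℝ) := by exact_mod_cast h6
  push_cast at h7 ⊢
  exact h7

/-- The number of rationals of bounded height. -/
theorem card_rat (H : ℕ) (T : Finset ℚ) (hT : ∀ r ∈ T, r.num.natAbs ≤ H ∧ r.den ≤ H) :
    T.card ≤ (2 * H + 1) * (H + 1) := by
  classical
  have h1 : T.card ≤ ((Finset.Icc (-(H : ℤ)) H) ×ˢ (Finset.range (H + 1))).card := by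
    apply Finset.card_le_card_of_injOn (fun r : ℚ => (r.num, r.den))
    · intro r hr
      have := hT r hr
      simp only [Finset.coe_product, Set.mem_prod, Finset.coe_Icc, Set.mem_Icc,
        Finset.coe_range, Set.mem_Iio]
      omega
    · intro r _ r' _ h
      simp only [Prod.mk.injEq] at h
      exact Rat.ext h.1 h.2
  rw [Finset.card_product, Int.card_Icc, Finset.card_range] at h1
  have h2 : ((H : ℤ) + 1 - -(H : ℤ)).toNat = 2 * H + 1 := by omega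
  rw [h2] at h1
  exact h1

theorem thm (hUltra : Stmt_Ultra) (hKey : Stmt_Key) : Stmt_Seq := by
  classical
  intro n N A z0 ρ κ s f 𝒜 hI hκ S
  obtain ⟨L, hL0, hL⟩ := exists_lip z0 ρ hI.pos s hI.ds
  obtain ⟨c2, hc2⟩ : ∃ c2 : ℝ, c2 = 1 / (4 * L + 4) := ⟨_, rfl⟩
  have hc2pos : 0 < c2 := by rw [hc2]; positivity
  have hc2le : c2 ≤ 1 := by
    rw [hc2, div_le_one (by positivity)]
    linarith
  have hc2L : 2 * L * c2 < 1 := by
    rw [hc2, mul_one_div, div_lt_one (by positivity)]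
    linarith
  obtain ⟨q, hq⟩ := exists_nat_ge (8 / κ)
  have hq8 : 8 ≤ (q : ℝ) * κ := by
    rwa [div_le_iff₀ hκ] at hq
  obtain ⟨a, b, β, 𝒮, Λ, hb, hab, hqb, hsup, hU⟩ := hUltra n N A z0 ρ κ s f 𝒜 S q
  obtain ⟨J, Z, H0, hK⟩ := hKey n N A z0 ρ κ s f hI hκ a b q β 𝒮 c2 hq8 hb hab hqb hc2pos hc2le
  have hE : ∀ i, ∃ E : Finset ℂ, E.card ≤ Z ∧ (H0 ≤ S.H i →
      (∃ p : Fin a → Fin b, ((Λ i).submatrix id p).det ≠ 0) →
      ∀ (T : Finset ℚ) (z : ℚ → ℂ) (x : ℚ → Fin N → ℚ) (qq : ℚ → ℕ),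
      (∀ r ∈ T, r.num.natAbs ≤ S.H i ∧ r.den ≤ S.H i ∧ z r ∈ closedBall z0 ρ ∧
        ‖z r - S.w i‖ ≤ (S.H i : ℝ) ^ (-κ) ∧ s (z r) = r ∧ (∀ ν, |x r ν| ≤ 1) ∧
        0 < qq r ∧ qq r ≤ S.H i ^ A ∧ (∀ ν, ∃ k : ℤ, (qq r : ℚ) * x r ν = k) ∧
        (∀ g, ∑ k, MvPolynomial.eval (pt (r : ℂ) (fun j => f j (z r))) (Λ i g k) *
          ((mono (x r) (β k) : ℚ) : ℂ) = 0) ∧ ∀ e ∈ E, c2 / (S.H i : ℝ) ^ 2 ≤ ‖z r - e‖) →
      ∃ μ : Fin J → Fin b → ℂ, μ ≠ 0 ∧ ∀ r ∈ T,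
        ∑ j, ∑ k, μ j k * ((r : ℂ) ^ (j : ℕ) * ((mono (x r) (β k) : ℚ) : ℂ)) = 0) := by
    intro i
    by_cases h1 : H0 ≤ S.H i
    · by_cases h2 : ∃ p : Fin a → Fin b, ((Λ i).submatrix id p).det ≠ 0
      · obtain ⟨E, hE1, hE2⟩ := hK (S.H i) h1 (Λ i) (hsup i) h2 (S.w i) (S.wmem i)
        exact ⟨E, hE1, fun _ _ => hE2⟩
      · exact ⟨∅, by simp, fun _ h => absurd h h2⟩
    · exact ⟨∅, by simp, fun h => absurd h h1⟩
  choose E hEcard hEprop using hE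
  -- the excluded points
  let Ex : ℕ → Finset ℚ := fun i =>
    (S.T i).filter fun r => ∃ e ∈ E i, ‖S.z i r - e‖ < c2 / (S.H i : ℝ) ^ 2
  have hExcard : ∀ i, (Ex i).card ≤ Z := by
    intro i
    refine le_trans ?_ (hEcard i)
    have hch : ∀ r ∈ Ex i, ∃ e ∈ E i, ‖S.z i r - e‖ < c2 / (S.H i : ℝ) ^ 2 := fun r hr =>
      (Finset.mem_filter.1 hr).2
    choose! g hg1 hg2 using hch
    refine Finset.card_le_card_of_injOn g (fun r hr => hg1 r hr) ?_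
    intro r hr r' hr' hgr
    by_contra hne
    have hrT : r ∈ S.T i := (Finset.mem_filter.1 hr).1
    have hrT' : r' ∈ S.T i := (Finset.mem_filter.1 hr').1
    have hsep := rat_sep (S.H i) r r' (S.den i r hrT) (S.den i r' hrT') hne
    have hHpos : (0 : ℝ) < (S.H i : ℝ) ^ 2 := by
      have : 0 < S.H i := lt_of_lt_of_le r.den_pos (S.den i r hrT)
      positivity
    have h1 := hL (S.z i r') (S.zmem i r' hrT') (S.z i r) (S.zmem i r hrT)
    rw [S.sz i r hrT, S.sz i r' hrT'] at h1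
    have h2 : ‖S.z i r - S.z i r'‖ ≤ 2 * (c2 / (S.H i : ℝ) ^ 2) := by
      have e1 := hg2 r hr
      have e2 := hg2 r' hr'
      rw [← hgr] at e2
      have e3 : S.z i r - S.z i r' = (S.z i r - g r) - (S.z i r' - g r) := by ring
      rw [e3]
      refine (norm_sub_le _ _).trans ?_
      linarith
    have h3 : ‖((r : ℂ) - (r' : ℂ))‖ ≤ L * (2 * (c2 / (S.H i : ℝ) ^ 2)) :=
      h1.trans (mul_le_mul_of_nonneg_left h2 hL0)
    have h4 : ‖((r : ℂ) - (r' : ℂ))‖ * (S.H i : ℝ) ^ 2 ≤ 2 * L * c2 := by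
      calc ‖((r : ℂ) - (r' : ℂ))‖ * (S.H i : ℝ) ^ 2
          ≤ L * (2 * (c2 / (S.H i : ℝ) ^ 2)) * (S.H i : ℝ) ^ 2 :=
            mul_le_mul_of_nonneg_right h3 hHpos.le
        _ = 2 * L * c2 := by
            have hne0 : (S.H i : ℝ) ^ 2 ≠ 0 := hHpos.ne'
            calc L * (2 * (c2 / (S.H i : ℝ) ^ 2)) * (S.H i : ℝ) ^ 2
                = 2 * L * (c2 / (S.H i : ℝ) ^ 2 * (S.H i : ℝ) ^ 2) := by ring
              _ = 2 * L * c2 := by rw [div_mul_cancel₀ _ hne0]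
    linarith
  obtain ⟨i, hi0, hp, hμ⟩ := hU J Z ((2 * H0 + 1) * (H0 + 1)) Ex hExcard
  have hH : H0 ≤ S.H i := by
    by_contra hlt
    push Not at hlt
    have h1 := card_rat (S.H i) (S.T i) (fun r hr => ⟨S.num i r hr, S.den i r hr⟩)
    have h2 := S.card i
    have h3 : (2 * S.H i + 1) * (S.H i + 1) ≤ (2 * H0 + 1) * (H0 + 1) :=
      Nat.mul_le_mul (by omega) (by omega)
    omega
  let T' : Finset ℚ := (S.T i).filter fun r => r ∉ Ex i ∧
    ∀ g, ∑ k, MvPolynomial.eval (pt (r : ℂ) (fun j => f j (S.z i r))) (Λ i g k) *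
      ((mono (S.x i r) (β k) : ℚ) : ℂ) = 0
  obtain ⟨μ, hμ0, hμT⟩ := hEprop i hH hp T' (S.z i) (S.x i) (S.q i) (by
    intro r hr
    have hr2 := Finset.mem_filter.1 hr
    have hrT : r ∈ S.T i := hr2.1
    refine ⟨S.num i r hrT, S.den i r hrT, S.zmem i r hrT, S.znear i r hrT, S.sz i r hrT,
      S.xle i r hrT, S.qpos i r hrT, S.qle i r hrT, S.xq i r hrT, hr2.2.2, ?_⟩
    intro e he
    by_contra hlt
    push Not at hlt
    exact hr2.2.1 (Finset.mem_filter.2 ⟨hrT, e, he, hlt⟩))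
  apply hμ0
  apply hμ
  intro r hr hrE hsys
  exact hμT r (Finset.mem_filter.2 ⟨hr, hrE, hsys⟩)

end Pool.Agent.GPC.SEQ
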