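import Pool.Agent.GPC.Ell

/-!
# GPC module STEP: one more curve
-/

set_option autoImplicit false

open scoped BigOperators Topology
open Metric UpperHalfPlane ModularForm EisensteinSeries Filter

namespace Pool.Agent.GPC.STEP

noncomputable section

/-- the rational number attached to a pair -/
def rr (p : ℤ × ℤ) : ℚ := ((-4 * p.1 ^ 3 : ℤ) : ℚ) / ((p.2 ^ 2 : ℤ) : ℚ)

lemma rr_num (p : ℤ × ℤ) (hb : p.2 ≠ 0) (X : ℕ) (ha : p.1.natAbs ≤ X ^ 2) :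
    (rr p).num.natAbs ≤ 4 * X ^ 6 := by
  by_cases ha0 : p.1 = 0
  · simp [rr, ha0]
  have h1 : (rr p).num ∣ (-4 * p.1 ^ 3 : ℤ) := by
    unfold rr
    rw [← Rat.divInt_eq_div]
    exact Rat.num_dvd _ (pow_ne_zero 2 hb)
  have h2 : (-4 * p.1 ^ 3 : ℤ) ≠ 0 := mul_ne_zero (by norm_num) (pow_ne_zero 3 ha0)
  have h3 : (rr p).num.natAbs ≤ (-4 * p.1 ^ 3 : ℤ).natAbs :=
    Nat.le_of_dvd (Int.natAbs_pos.mpr h2) (Int.natAbs_dvd_natAbs.mpr h1)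
  refine h3.trans ?_
  rw [Int.natAbs_mul, Int.natAbs_pow]
  calc (-4 : ℤ).natAbs * p.1.natAbs ^ 3 ≤ 4 * (X ^ 2) ^ 3 :=
        Nat.mul_le_mul (by decide) (Nat.pow_le_pow_left ha 3)
    _ = 4 * X ^ 6 := by ring

lemma rr_den (p : ℤ × ℤ) (hb : p.2 ≠ 0) (X : ℕ) (hbX : p.2.natAbs ≤ X ^ 3) :
    (rr p).den ≤ 4 * X ^ 6 := by
  have h1 : ((rr p).den : ℤ) ∣ (p.2 ^ 2 : ℤ) := by
    unfold rr
    rw [← Rat.divInt_eq_div]
    exact Rat.den_dvd _ _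
  have h2 : (rr p).den ≤ (p.2 ^ 2 : ℤ).natAbs := by
    have h3 : (rr p).den ∣ (p.2 ^ 2 : ℤ).natAbs := by
      have := Int.natAbs_dvd_natAbs.mpr h1
      simpa using this
    exact Nat.le_of_dvd (Int.natAbs_pos.mpr (pow_ne_zero 2 hb)) h3
  refine h2.trans ?_
  rw [Int.natAbs_pow]
  calc p.2.natAbs ^ 2 ≤ (X ^ 3) ^ 2 := Nat.pow_le_pow_left hbX 2
    _ = X ^ 6 := by ring
    _ ≤ 4 * X ^ 6 := by omega

lemma mem_box (X : ℕ) (p : ℤ × ℤ) (hp : p ∈ box X) :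
    p.1.natAbs ≤ X ^ 2 ∧ p.2.natAbs ≤ X ^ 3 := by
  unfold box at hp
  rw [Finset.mem_product, Finset.mem_Icc, Finset.mem_Icc] at hp
  obtain ⟨⟨h1, h2⟩, h3, h4⟩ := hp
  constructor
  · have : |p.1| ≤ (X : ℤ) ^ 2 := abs_le.mpr ⟨h1, h2⟩
    zify
    exact this
  · have : |p.2| ≤ (X : ℤ) ^ 3 := abs_le.mpr ⟨h3, h4⟩
    zify
    exact this

lemma free_mono {ι : Type} {D B B' : ℕ} (h : B' ≤ B) {c : ι → ℂ} (hf : Free D B c) :
    Free D B' c := fun Q hQ h0 => hf Q ⟨hQ.1, fun m => (hQ.2 m).trans h⟩ h0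

lemma KM_ne {M : ℕ} {z : ℂ} (hz : z ∈ KM M) : 0 < z.im ∧ g2c z ≠ 0 ∧ g3c z ≠ 0 := by
  obtain ⟨h1, -, -, -, h2, h3⟩ := hz
  refine ⟨h1, fun h => ?_, fun h => ?_⟩
  · rw [h, norm_zero, mul_zero] at h2
    linarith
  · rw [h, norm_zero, mul_zero] at h3
    linarith

/-- the algebraic facts about one curve -/
lemma curve (hP : Stmt_PerM) (M : ℕ) (L : PeriodPair) (p : ℤ × ℤ)
    (hm : IsModel L p.1 p.2) (hK : L.ω₁ / L.ω₂ ∈ KM M) :
    p.1 ≠ 0 ∧ p.2 ≠ 0 ∧ sc (L.ω₁ / L.ω₂) = ((rr p : ℚ) : ℂ) ∧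
      (p.2 : ℂ) * L.ω₂ ^ 2 = p.1 * hc (L.ω₁ / L.ω₂) := by
  obtain ⟨him, h2, h3⟩ := KM_ne hK
  obtain ⟨-, -, -, hg2, hg3⟩ := hP L him
  obtain ⟨hm2, hm3⟩ := hm
  have hω : L.ω₂ ≠ 0 := by
    intro h
    rw [h, div_zero, Complex.zero_im] at him
    exact lt_irrefl _ him
  set τ := L.ω₁ / L.ω₂ with hτ
  have e2 : g2c τ = L.ω₂ ^ 4 * (-4 * (p.1 : ℂ)) := by
    rw [← hm2, hg2]; field_simp
  have e3 : g3c τ = L.ω₂ ^ 6 * (-4 * (p.2 : ℂ)) := by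
    rw [← hm3, hg3]; field_simp
  have ha : (p.1 : ℂ) ≠ 0 := by
    intro h
    rw [h] at e2
    exact h2 (by rw [e2]; ring)
  have hb : (p.2 : ℂ) ≠ 0 := by
    intro h
    rw [h] at e3
    exact h3 (by rw [e3]; ring)
  refine ⟨by exact_mod_cast ha, by exact_mod_cast hb, ?_, ?_⟩
  · unfold sc rr
    rw [e2, e3]
    push_cast
    field_simp
  · unfold hc
    rw [e2, e3]
    field_simp

end

open Classical in
/-- module STEP -/
theorem thm (hThmG : Stmt_ThmG) (hInd3 : Stmt_Ind3) (hCover : Stmt_Cover)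
    (hTransB : Stmt_TransB) (hPerM : Stmt_PerM) : Stmt_Step := by
  intro M ι _ D A
  obtain ⟨k, z0, ρ, hball, hcov⟩ := hCover M
  obtain ⟨D1, A1, hTB⟩ := hTransB ι D A
  have hT : ∀ i : Fin k, ∃ C : ℝ, ∀ H : ℕ, 1 ≤ H →
      ∀ c : ι → ℂ, Free D1 (H ^ A1) c → ∀ T : Finset ℚ,
      (∀ r ∈ T, r.num.natAbs ≤ H ∧ r.den ≤ H ∧
        IsBad (z0 i) (z0 i) (ρ i) (ρ i) sc fc c D1 (H ^ A1) r) →
        (T.card : ℝ) ≤ C * (H : ℝ) ^ (1 / 12 : ℝ) := fun i =>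
    hThmG 3 ι (z0 i) (ρ i) (1 / 12) sc fc (hInd3 (z0 i) (ρ i) (hball i).1 (hball i).2)
      (by norm_num) D1 A1
  choose CC hCC using hT
  set S0 : ℝ := ∑ i, |CC i| with hS0
  have hS0' : 0 ≤ S0 := Finset.sum_nonneg (fun _ _ => abs_nonneg _)
  refine ⟨D1, 8 * A1, 12 * S0, ?_⟩
  intro X hX c hcF
  have hXr : (2 : ℝ) ≤ X := by exact_mod_cast hX
  have hX0 : (0 : ℝ) < X := by linarith
  set H : ℕ := 4 * X ^ 6 with hH
  have hH1 : 1 ≤ H := by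
    have : 0 < X ^ 6 := Nat.pow_pos (by omega)
    omega
  have hHX : H ≤ X ^ 8 := by
    have h1 : 4 ≤ X ^ 2 := by nlinarith
    calc H = 4 * X ^ 6 := rfl
      _ ≤ X ^ 2 * X ^ 6 := Nat.mul_le_mul_right _ h1
      _ = X ^ 8 := by ring
  have hXH : X ≤ H := by
    have h1 : X ^ 1 ≤ X ^ 6 := Nat.pow_le_pow_right (by omega) (by norm_num)
    rw [pow_one] at h1
    omega
  have hcH : Free D1 (H ^ A1) c := by
    refine free_mono ?_ hcF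
    rw [pow_mul]
    exact Nat.pow_le_pow_left hHX A1
  set Q : ℤ × ℤ → Prop := fun p => ∃ L : PeriodPair, Reduced L ∧ IsModel L p.1 p.2 ∧
    L.ω₁ / L.ω₂ ∈ KM M ∧ ¬ Free D (X ^ A) (Sum.elim c (tvec L)) with hQ
  set S : Finset (ℤ × ℤ) := (box X).filter Q with hS
  have hcardS : Nat.card {p : ℤ × ℤ // p ∈ box X ∧ Q p} = S.card :=
    Nat.subtype_card S (fun p => by rw [hS, Finset.mem_filter])
  -- every bad pair gives a bad rational number on one of the discs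
  have hbad : ∀ p ∈ S, p.1 ≠ 0 ∧ p.2 ≠ 0 ∧ (rr p).num.natAbs ≤ H ∧ (rr p).den ≤ H ∧
      ∃ i : Fin k, IsBad (z0 i) (z0 i) (ρ i) (ρ i) sc fc c D1 (H ^ A1) (rr p) := by
    intro p hp
    rw [hS, Finset.mem_filter] at hp
    obtain ⟨hpb, L, hred, hmod, hK, hnf⟩ := hp
    obtain ⟨ha, hb, hsc, hh⟩ := curve hPerM M L p hmod hK
    obtain ⟨haX, hbX⟩ := mem_box X p hpb
    refine ⟨ha, hb, rr_num p hb X haX, rr_den p hb X hbX, ?_⟩
    obtain ⟨i, hi⟩ := Set.mem_iUnion.mp (hcov hK)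
    obtain ⟨P, hP0, hPs, hPv⟩ := hTB X hX c p.1 p.2 ha hb
      (haX.trans (Nat.pow_le_pow_right (by omega) (by norm_num))) hbX
      (L.ω₁ / L.ω₂) L.ω₂ (hc (L.ω₁ / L.ω₂)) (G2c (L.ω₁ / L.ω₂)) hh hnf
    refine ⟨i, L.ω₁ / L.ω₂, hi, ?_, hsc, P, hP0, ⟨hPs.1, fun m => (hPs.2 m).trans
      (Nat.pow_le_pow_left hXH A1)⟩, ?_⟩
    · rw [← dist_eq_norm]
      exact mem_closedBall.mp hi
    · have : (fun j => fc j (L.ω₁ / L.ω₂))
          = ![L.ω₁ / L.ω₂, hc (L.ω₁ / L.ω₂), G2c (L.ω₁ / L.ω₂)] := by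
        funext j
        fin_cases j <;> rfl
      rw [this]
      exact hPv
  -- number of bad rational numbers
  set R : Finset ℚ := S.image rr with hR
  have hRcard : (R.card : ℝ) ≤ S0 * (H : ℝ) ^ (1 / 12 : ℝ) := by
    set Ri : Fin k → Finset ℚ := fun i =>
      R.filter (fun r => IsBad (z0 i) (z0 i) (ρ i) (ρ i) sc fc c D1 (H ^ A1) r) with hRi
    have h1 : R ⊆ Finset.univ.biUnion Ri := by
      intro r hr
      have hr' := hr
      rw [hR, Finset.mem_image] at hr'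
      obtain ⟨p, hp, rfl⟩ := hr'
      obtain ⟨-, -, -, -, i, hi⟩ := hbad p hp
      rw [Finset.mem_biUnion]
      exact ⟨i, Finset.mem_univ _, Finset.mem_filter.mpr ⟨hr, hi⟩⟩
    have h2 : ∀ i, ((Ri i).card : ℝ) ≤ |CC i| * (H : ℝ) ^ (1 / 12 : ℝ) := by
      intro i
      refine (hCC i H hH1 c hcH (Ri i) ?_).trans
        (mul_le_mul_of_nonneg_right (le_abs_self _) (by positivity))
      intro r hr
      obtain ⟨hrR, hrb⟩ := Finset.mem_filter.mp hr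
      rw [hR, Finset.mem_image] at hrR
      obtain ⟨p, hp, rfl⟩ := hrR
      obtain ⟨-, -, h3, h4, -⟩ := hbad p hp
      exact ⟨h3, h4, hrb⟩
    calc (R.card : ℝ) ≤ ((Finset.univ.biUnion Ri).card : ℝ) := by
          exact_mod_cast Finset.card_le_card h1
      _ ≤ ((∑ i, (Ri i).card : ℕ) : ℝ) := by exact_mod_cast Finset.card_biUnion_le
      _ = ∑ i, ((Ri i).card : ℝ) := by push_cast; rfl
      _ ≤ ∑ i, |CC i| * (H : ℝ) ^ (1 / 12 : ℝ) := Finset.sum_le_sum (fun i _ => h2 i)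
      _ = S0 * (H : ℝ) ^ (1 / 12 : ℝ) := by rw [← Finset.sum_mul]
  -- fibres
  have hfib : ∀ r ∈ S.image rr, (S.filter (fun p => rr p = r)).card ≤ 2 * (2 * X ^ 2 + 1) := by
    intro r hr
    have hcardI : (Finset.Icc (-(X : ℤ) ^ 2) ((X : ℤ) ^ 2) ×ˢ (Finset.univ : Finset Bool)).card
        = 2 * (2 * X ^ 2 + 1) := by
      rw [Finset.card_product, Int.card_Icc, Finset.card_univ, Fintype.card_bool]
      have : ((X : ℤ) ^ 2 + 1 - -(X : ℤ) ^ 2).toNat = 2 * X ^ 2 + 1 := by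
        have h1 : ((X : ℤ) ^ 2 + 1 - -(X : ℤ) ^ 2) = ((2 * X ^ 2 + 1 : ℕ) : ℤ) := by
          push_cast; ring
        rw [h1, Int.toNat_natCast]
      rw [this]
      ring
    rw [← hcardI]
    refine Finset.card_le_card_of_injOn (fun p => (p.1, decide (0 < p.2))) ?_ ?_
    · intro p hp
      have hpS := (Finset.mem_filter.mp (Finset.mem_coe.mp hp)).1
      rw [hS, Finset.mem_filter] at hpS
      have hpb := hpS.1
      unfold box at hpb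
      rw [Finset.mem_product] at hpb
      rw [Finset.mem_coe, Finset.mem_product]
      exact ⟨hpb.1, Finset.mem_univ _⟩
    · intro p hp p' hp' heq
      obtain ⟨hpS, hpr⟩ := Finset.mem_filter.mp (Finset.mem_coe.mp hp)
      obtain ⟨hpS', hpr'⟩ := Finset.mem_filter.mp (Finset.mem_coe.mp hp')
      obtain ⟨ha, hb, -⟩ := hbad p hpS
      obtain ⟨ha', hb', -⟩ := hbad p' hpS'
      simp only [Prod.mk.injEq] at heq
      obtain ⟨h1, h2⟩ := heq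
      have h3 : rr p = rr p' := hpr.trans hpr'.symm
      have haq : ((p.1 : ℤ) : ℚ) ≠ 0 := by exact_mod_cast ha
      have hbq : ((p.2 : ℤ) : ℚ) ≠ 0 := by exact_mod_cast hb
      have hbq' : ((p'.2 : ℤ) : ℚ) ≠ 0 := by exact_mod_cast hb'
      have h4 : ((p.2 : ℤ) : ℚ) ^ 2 = ((p'.2 : ℤ) : ℚ) ^ 2 := by
        unfold rr at h3
        rw [← h1] at h3
        push_cast at h3
        rw [div_eq_div_iff (pow_ne_zero 2 hbq) (pow_ne_zero 2 hbq')] at h3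
        have h5 : (-4 * ((p.1 : ℤ) : ℚ) ^ 3) ≠ 0 := mul_ne_zero (by norm_num) (pow_ne_zero 3 haq)
        exact (mul_left_cancel₀ h5 h3).symm
      have h5 : p.2 ^ 2 = p'.2 ^ 2 := by exact_mod_cast h4
      have h6 : p.2 = p'.2 := by
        rcases sq_eq_sq_iff_eq_or_eq_neg.mp h5 with h | h
        · exact h
        · exfalso
          have h7 : (0 < p.2 ↔ 0 < p'.2) := by
            simpa using h2
          omega
      exact Prod.ext h1 h6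
  have hScard : S.card ≤ 2 * (2 * X ^ 2 + 1) * R.card :=
    Finset.card_le_mul_card_image S _ hfib
  -- final estimate
  have hHpow : (H : ℝ) ^ (1 / 12 : ℝ) ≤ 2 * (X : ℝ) ^ (1 / 2 : ℝ) := by
    have h1 : (H : ℝ) = 4 * (X : ℝ) ^ (6 : ℝ) := by
      rw [hH]
      push_cast
      rw [show (6 : ℝ) = ((6 : ℕ) : ℝ) by norm_num, Real.rpow_natCast]
    rw [h1, Real.mul_rpow (by norm_num) (by positivity), ← Real.rpow_mul hX0.le]
    have h2 : (4 : ℝ) ^ (1 / 12 : ℝ) ≤ 2 := by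
      calc (4 : ℝ) ^ (1 / 12 : ℝ) ≤ (4 : ℝ) ^ (1 / 2 : ℝ) :=
            Real.rpow_le_rpow_of_exponent_le (by norm_num) (by norm_num)
        _ = 2 := by
            rw [← Real.sqrt_eq_rpow, show (4 : ℝ) = 2 ^ 2 by norm_num,
              Real.sqrt_sq (by norm_num)]
    have h3 : (6 : ℝ) * (1 / 12) = 1 / 2 := by norm_num
    rw [h3]
    exact mul_le_mul_of_nonneg_right h2 (by positivity)
  have hXpow : (X : ℝ) ^ 2 * (X : ℝ) ^ (1 / 2 : ℝ) ≤ (X : ℝ) ^ 3 := by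
    have h1 : (X : ℝ) ^ (1 / 2 : ℝ) ≤ X := by
      calc (X : ℝ) ^ (1 / 2 : ℝ) ≤ (X : ℝ) ^ (1 : ℝ) :=
            Real.rpow_le_rpow_of_exponent_le (by linarith) (by norm_num)
        _ = X := Real.rpow_one _
    calc (X : ℝ) ^ 2 * (X : ℝ) ^ (1 / 2 : ℝ) ≤ (X : ℝ) ^ 2 * X :=
          mul_le_mul_of_nonneg_left h1 (by positivity)
      _ = (X : ℝ) ^ 3 := by ring
  have hgoal : (S.card : ℝ) ≤ 12 * S0 * (X : ℝ) ^ 3 := by
    have h1 : (2 * (2 * (X : ℝ) ^ 2 + 1)) ≤ 6 * (X : ℝ) ^ 2 := by nlinarith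
    calc (S.card : ℝ) ≤ ((2 * (2 * X ^ 2 + 1) * R.card : ℕ) : ℝ) := by exact_mod_cast hScard
      _ = (2 * (2 * (X : ℝ) ^ 2 + 1)) * R.card := by push_cast; ring
      _ ≤ (6 * (X : ℝ) ^ 2) * (S0 * (H : ℝ) ^ (1 / 12 : ℝ)) :=
          mul_le_mul h1 hRcard (by positivity) (by positivity)
      _ ≤ (6 * (X : ℝ) ^ 2) * (S0 * (2 * (X : ℝ) ^ (1 / 2 : ℝ))) := by
          refine mul_le_mul_of_nonneg_left ?_ (by positivity)
          exact mul_le_mul_of_nonneg_left hHpow hS0'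
      _ = 12 * S0 * ((X : ℝ) ^ 2 * (X : ℝ) ^ (1 / 2 : ℝ)) := by ring
      _ ≤ 12 * S0 * (X : ℝ) ^ 3 := mul_le_mul_of_nonneg_left hXpow (by positivity)
  have hfinal : (Nat.card {p : ℤ × ℤ // p ∈ box X ∧ Q p} : ℝ) ≤ 12 * S0 * (X : ℝ) ^ 3 := by
    rw [hcardS]
    exact hgoal
  exact hfinal

end Pool.Agent.GPC.STEP
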