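import Pool.Agent.GPC.Ell

/-!
# TRANSA: relations between periods give relations between the coordinates
-/

open scoped BigOperators Topology
open Metric UpperHalfPlane Filter

namespace Pool.Agent.GPC.TRANSA

noncomputable section

/-- the finite set of exponents all of whose entries are at most `D` -/
def Sx (σ : Type) [Fintype σ] (D : ℕ) : Finset (σ →₀ ℕ) :=
  Set.Finite.toFinset (s := {m : σ →₀ ℕ | ∀ i, m i ≤ D}) (by
    have h : {m : σ →₀ ℕ | ∀ i, m i ≤ D} = Set.Iic (Finsupp.equivFunOnFinite.symm fun _ => D) := by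
      ext m
      simp only [Set.mem_setOf_eq, Set.mem_Iic]
      exact Iff.rfl
    rw [h]
    classical
    exact Set.finite_Iic _)

theorem mem_Sx {σ : Type} [Fintype σ] {D : ℕ} {m : σ →₀ ℕ} : m ∈ Sx σ D ↔ ∀ i, m i ≤ D := by
  simp [Sx]

theorem support_subset {σ : Type} [Fintype σ] {D : ℕ} {P : MvPolynomial σ ℤ}
    (h : P.totalDegree ≤ D) : P.support ⊆ Sx σ D := by
  intro m hm
  rw [mem_Sx]
  intro i
  exact ((MvPolynomial.monomial_le_degreeOf i hm).trans
    (MvPolynomial.degreeOf_le_totalDegree P i)).trans h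

/-- replace every monomial by a polynomial -/
def Sub {σ τ : Type} [Fintype σ] (D : ℕ) (T : (σ →₀ ℕ) → MvPolynomial τ ℤ)
    (P : MvPolynomial σ ℤ) : MvPolynomial τ ℤ :=
  ∑ m ∈ Sx σ D, MvPolynomial.C (P.coeff m) * T m

theorem isSmall_sub {σ τ : Type} [Fintype σ] (D A : ℕ) (T : (σ →₀ ℕ) → MvPolynomial τ ℤ) :
    ∃ D1 A1 : ℕ, ∀ X : ℕ, 2 ≤ X → ∀ P : MvPolynomial σ ℤ, IsSmall P D (X ^ A) →
      IsSmall (Sub D T P) D1 (X ^ A1) := by
  refine ⟨(Sx σ D).sup (fun m => (T m).totalDegree),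
    A + ∑ m ∈ Sx σ D, ∑ n ∈ (T m).support, ((T m).coeff n).natAbs, ?_⟩
  intro X hX P hP
  constructor
  · unfold Sub
    refine (MvPolynomial.totalDegree_finsetSum _ _).trans ?_
    apply Finset.sup_mono_fun
    intro m _
    refine (MvPolynomial.totalDegree_mul _ _).trans ?_
    rw [MvPolynomial.totalDegree_C, zero_add]
  · intro n
    unfold Sub
    rw [MvPolynomial.coeff_sum]
    have h1 : ∀ m ∈ Sx σ D, (MvPolynomial.coeff n (MvPolynomial.C (P.coeff m) * T m)).natAbs ≤
        X ^ A * ∑ n ∈ (T m).support, ((T m).coeff n).natAbs := by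
      intro m _
      rw [MvPolynomial.coeff_C_mul, Int.natAbs_mul]
      apply Nat.mul_le_mul (hP.2 m)
      by_cases hn : n ∈ (T m).support
      · exact Finset.single_le_sum (f := fun n => ((T m).coeff n).natAbs)
          (fun _ _ => Nat.zero_le _) hn
      · rw [MvPolynomial.notMem_support_iff.1 hn]; simp
    have h2 := (Int.natAbs_sum_le (Sx σ D)
      (fun m => MvPolynomial.coeff n (MvPolynomial.C (P.coeff m) * T m))).trans
      (Finset.sum_le_sum h1)
    rw [← Finset.mul_sum] at h2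
    refine h2.trans ?_
    rw [pow_add]
    apply Nat.mul_le_mul_left
    exact (Nat.lt_two_pow_self).le.trans (Nat.pow_le_pow_left hX _)

theorem aeval_sub {σ τ : Type} [Fintype σ] (D : ℕ) (T : (σ →₀ ℕ) → MvPolynomial τ ℤ)
    (P : MvPolynomial σ ℤ) (hP : P.totalDegree ≤ D) (x : τ → ℂ) (y : σ → ℂ) (c : ℂ)
    (h : ∀ m ∈ Sx σ D, MvPolynomial.aeval x (T m) = c * ∏ i, y i ^ m i) :
    MvPolynomial.aeval x (Sub D T P) = c * MvPolynomial.aeval y P := by
  have h1 : MvPolynomial.aeval y P = ∑ m ∈ Sx σ D, ((P.coeff m : ℤ) : ℂ) * ∏ i, y i ^ m i := by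
    rw [MvPolynomial.aeval_def, MvPolynomial.eval₂_eq']
    refine Finset.sum_subset (support_subset hP) ?_
    intro m _ hm
    rw [MvPolynomial.notMem_support_iff.1 hm]; simp
  rw [h1, Sub, map_sum, Finset.mul_sum]
  apply Finset.sum_congr rfl
  intro m hm
  rw [map_mul, h m hm, MvPolynomial.aeval_C]
  simp only [algebraMap_int_eq, eq_intCast]
  ring

open MvPolynomial in
/-- the polynomial which replaces the monomial `m` -/
def Tm (g D : ℕ) (m : Option (Fin g × Fin 2 × Fin 2) →₀ ℕ) :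
    MvPolynomial (Option (Fin g × Fin 3)) ℤ :=
  X none ^ m none * ∏ i : Fin g,
    ((X (some (i, 0)) * X (some (i, 1))) ^ m (some (i, 0, 0)) *
      X (some (i, 1)) ^ m (some (i, 0, 1)) *
      (-(X none + X (some (i, 0)) * X (some (i, 2)))) ^ m (some (i, 1, 0)) *
      (-X (some (i, 2))) ^ m (some (i, 1, 1)) *
      X (some (i, 1)) ^ (2 * D - (m (some (i, 1, 0)) + m (some (i, 1, 1)))))

/-- the point with the given coordinates -/
def cpt {g : ℕ} (lam : ℂ) (t : Fin g → Fin 3 → ℂ) (o : Option (Fin g × Fin 3)) : ℂ :=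
  o.elim lam (fun p => t p.1 p.2)

/-- the matrix with the given coordinates -/
def mat (lam : ℂ) (t : Fin 3 → ℂ) : Matrix (Fin 2) (Fin 2) ℂ :=
  !![t 0 * t 1, t 1; -(lam + t 0 * t 2) / t 1, -t 2 / t 1]

theorem aeval_Tm {g D : ℕ} (lam : ℂ) (t : Fin g → Fin 3 → ℂ) (ht : ∀ i, t i 1 ≠ 0)
    (m : Option (Fin g × Fin 2 × Fin 2) →₀ ℕ) (hm : m ∈ Sx _ D) :
    MvPolynomial.aeval (cpt lam t) (Tm g D m) =
      (∏ i, t i 1 ^ (2 * D)) * ∏ o, tpt lam (fun i => mat lam (t i)) o ^ m o := by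
  rw [mem_Sx] at hm
  rw [Fintype.prod_option, Fintype.prod_prod_type]
  simp only [Fintype.prod_prod_type, Fin.prod_univ_two]
  unfold Tm
  simp only [map_mul, map_pow, map_prod, map_neg, map_add, MvPolynomial.aeval_X]
  rw [mul_left_comm, ← Finset.prod_mul_distrib]
  simp only [tpt, cpt, Option.elim]
  congr 1
  apply Finset.prod_congr rfl
  intro i _
  have h1 := hm (some (i, 1, 0))
  have h2 := hm (some (i, 1, 1))
  have h3 : 2 * D = (2 * D - (m (some (i, 1, 0)) + m (some (i, 1, 1)))) +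
      (m (some (i, 1, 0)) + m (some (i, 1, 1))) := by omega
  have h4 : t i 1 ^ (2 * D) = t i 1 ^ (2 * D - (m (some (i, 1, 0)) + m (some (i, 1, 1)))) *
      (t i 1 ^ m (some (i, 1, 0)) * t i 1 ^ m (some (i, 1, 1))) := by
    rw [← pow_add, ← pow_add, ← h3]
  rw [h4]
  simp only [mat, Matrix.cons_val_zero, Matrix.cons_val_one, Matrix.of_apply, Matrix.cons_val',
    Matrix.cons_val_fin_one]
  rw [div_pow, div_pow]
  have h5 := pow_ne_zero (m (some (i, 1, 0))) (ht i)
  have h6 := pow_ne_zero (m (some (i, 1, 1))) (ht i)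
  field_simp

theorem exists_good {g : ℕ} (P : MvPolynomial (Option (Fin g × Fin 2 × Fin 2)) ℤ)
    (hP : NonTrivial P) : ∃ (lam : ℂ) (M : Fin g → Matrix (Fin 2) (Fin 2) ℂ), lam ≠ 0 ∧
    (∀ i, (M i).det = lam) ∧ (∀ i, M i 0 1 ≠ 0) ∧ MvPolynomial.aeval (tpt lam M) P ≠ 0 := by
  obtain ⟨lam, M, hlam, hdet, hne⟩ := hP
  let N : ℂ → Fin g → Matrix (Fin 2) (Fin 2) ℂ := fun t i => M i * !![1, t; 0, 1]
  have hN0 : N 0 = M := by
    funext i
    have : (!![1, (0 : ℂ); 0, 1] : Matrix (Fin 2) (Fin 2) ℂ) = 1 := by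
      ext a b; fin_cases a <;> fin_cases b <;> rfl
    simp only [N, this, Matrix.mul_one]
  have hNdet : ∀ t i, (N t i).det = lam := by
    intro t i
    simp only [N, Matrix.det_mul, hdet, Matrix.det_fin_two_of]
    ring
  have hN01 : ∀ t i, N t i 0 1 = M i 0 0 * t + M i 0 1 := by
    intro t i
    simp [N, Matrix.mul_apply, Fin.sum_univ_two]
  have hc : Continuous fun t : ℂ => MvPolynomial.aeval (tpt lam (N t)) P := by
    have h1 : ∀ x : Option (Fin g × Fin 2 × Fin 2) → ℂ, MvPolynomial.aeval x P =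
        MvPolynomial.eval x (MvPolynomial.map (Int.castRingHom ℂ) P) := by
      intro x
      rw [MvPolynomial.eval_map, MvPolynomial.aeval_def]; rfl
    simp only [h1]
    refine (MvPolynomial.continuous_eval _).comp ?_
    rw [continuous_pi_iff]
    intro o
    rcases o with _ | ⟨i, a, b⟩
    · exact continuous_const
    · simp only [tpt, Option.elim, N, Matrix.mul_apply, Fin.sum_univ_two]
      fin_cases b <;> simp <;> fun_prop
  have h1 : ∀ᶠ t in 𝓝[≠] (0 : ℂ), MvPolynomial.aeval (tpt lam (N t)) P ≠ 0 := by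
    apply eventually_nhdsWithin_of_eventually_nhds
    apply hc.continuousAt.eventually_ne
    rw [hN0]; exact hne
  have h2 : ∀ i, ∀ᶠ t in 𝓝[≠] (0 : ℂ), N t i 0 1 ≠ 0 := by
    intro i
    simp only [hN01]
    by_cases h : M i 0 1 = 0
    · have h00 : M i 0 0 ≠ 0 := by
        intro h0
        apply hlam
        rw [← hdet i, Matrix.det_fin_two, h, h0]; ring
      filter_upwards [self_mem_nhdsWithin] with t ht
      rw [h, add_zero]
      exact mul_ne_zero h00 ht
    · apply eventually_nhdsWithin_of_eventually_nhds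
      have hc : Continuous fun t : ℂ => M i 0 0 * t + M i 0 1 := by fun_prop
      apply hc.continuousAt.eventually_ne
      simpa using h
  obtain ⟨t, ht1, ht2⟩ := (h1.and (eventually_all.2 h2)).exists
  exact ⟨lam, N t, hlam, hNdet t, ht2, ht1⟩

theorem mat_eq {lam : ℂ} {M : Matrix (Fin 2) (Fin 2) ℂ} (hdet : M.det = lam) (h : M 0 1 ≠ 0) :
    mat lam ![M 0 0 / M 0 1, M 0 1, -(M 1 1 * M 0 1)] = M := by
  rw [Matrix.det_fin_two] at hdet
  ext a b
  fin_cases a <;> fin_cases b
  · simp [mat, h]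
  · simp [mat]
  · simp only [mat]
    simp
    rw [← hdet]
    field_simp
    ring
  · simp only [mat]
    simp
    field_simp

theorem thm (hPerM : Stmt_PerM) : Stmt_TransA := by
  intro g D A
  obtain ⟨D1, A1, h⟩ := isSmall_sub D A (Tm g D)
  refine ⟨D1, A1, ?_⟩
  intro X hX L hL P hP hnt hz hfree
  have hQ0 : Sub D (Tm g D) P = 0 := by
    apply hfree _ (h X hX P hP)
    have e1 : cvec L = cpt (-(2 * Real.pi * Complex.I)) (fun i => tvec (L i)) := rfl
    have hw : ∀ i, tvec (L i) 1 ≠ 0 := by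
      intro i h0
      have h1 := (hL i).1
      have h2 : (L i).ω₂ = 0 := h0
      rw [h2] at h1
      simp at h1
    rw [e1, aeval_sub D (Tm g D) P hP.1 _ _ _ (fun m hm => aeval_Tm _ _ hw m hm)]
    have e2 : (fun i => mat (-(2 * Real.pi * Complex.I)) (tvec (L i))) =
        fun i => perMat (L i) := by
      funext i
      obtain ⟨h1, h2, -⟩ := hPerM (L i) (hL i).1
      have hw' : (L i).ω₂ ≠ 0 := hw i
      unfold perMat mat
      rw [h1, h2]
      have e3 : tvec (L i) 0 * tvec (L i) 1 = (L i).ω₁ := by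
        simp [tvec, hw']
      have e4 : tvec (L i) 1 = (L i).ω₂ := rfl
      rw [e3, e4]
      ext a b
      fin_cases a <;> fin_cases b
      · rfl
      · rfl
      · simp [tvec]
        field_simp
        ring
      · simp [tvec]
        field_simp
    rw [e2, hz, mul_zero]
  obtain ⟨lam, M, hlam, hdet, h01, hne⟩ := exists_good P hnt
  apply hne
  have hw : ∀ i, (fun i => ![M i 0 0 / M i 0 1, M i 0 1, -(M i 1 1 * M i 0 1)]) i 1 ≠ 0 := by
    intro i; exact h01 i
  have h3 := aeval_sub D (Tm g D) P hP.1 (cpt lam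
    (fun i => ![M i 0 0 / M i 0 1, M i 0 1, -(M i 1 1 * M i 0 1)])) _ _
    (fun m hm => aeval_Tm _ _ hw m hm)
  rw [hQ0, map_zero] at h3
  have e2 : (fun i => mat lam ((fun i => ![M i 0 0 / M i 0 1, M i 0 1, -(M i 1 1 * M i 0 1)]) i))
      = M := by
    funext i
    exact mat_eq (hdet i) (h01 i)
  rw [e2] at h3
  rcases mul_eq_zero.1 h3.symm with h4 | h4
  · exact absurd h4 (Finset.prod_ne_zero_iff.2 fun i _ => pow_ne_zero _ (hw i))
  · exact h4

end

end Pool.Agent.GPC.TRANSA
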