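import Pool.Agent.GPC.Ell

/-!
# GPC, module TRANSB: elimination of the lattice constant
-/

set_option autoImplicit false

open scoped BigOperators

namespace Pool.Agent.GPC.TRANSB

noncomputable section

open MvPolynomial

section General

variable {σ : Type}

/-- Change of sign of the variable `w`. -/
def neg (w : σ) (Q : MvPolynomial σ ℤ) : MvPolynomial σ ℤ :=
  ∑ m ∈ Q.support, monomial m ((-1) ^ (m w) * coeff m Q)

theorem coeff_neg (w : σ) (Q : MvPolynomial σ ℤ) (m : σ →₀ ℕ) :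
    coeff m (neg w Q) = (-1) ^ (m w) * coeff m Q := by
  classical
  rw [neg, coeff_sum]
  simp only [coeff_monomial]
  rw [Finset.sum_ite_eq']
  split_ifs with h
  · rfl
  · rw [notMem_support_iff.1 h, mul_zero]

theorem neg_ne_zero (w : σ) (Q : MvPolynomial σ ℤ) (hQ : Q ≠ 0) : neg w Q ≠ 0 := by
  obtain ⟨m, hm⟩ := ne_zero_iff.1 hQ
  rw [ne_zero_iff]
  refine ⟨m, ?_⟩
  rw [coeff_neg]
  exact mul_ne_zero (pow_ne_zero _ (by norm_num)) hm

theorem support_neg (w : σ) (Q : MvPolynomial σ ℤ) : (neg w Q).support = Q.support := by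
  ext m
  rw [mem_support_iff, mem_support_iff, coeff_neg]
  have : ((-1 : ℤ)) ^ (m w) ≠ 0 := pow_ne_zero _ (by norm_num)
  simp [this]

theorem even_mul_neg (w : σ) (Q : MvPolynomial σ ℤ) (m : σ →₀ ℕ) (hm : Odd (m w)) :
    coeff m (Q * neg w Q) = 0 := by
  classical
  rw [coeff_mul]
  simp only [coeff_neg]
  set S := ∑ x ∈ Finset.HasAntidiagonal.antidiagonal m, coeff x.1 Q * ((-1) ^ (x.2 w) * coeff x.2 Q) with hS
  have h1 : S = ∑ x ∈ Finset.HasAntidiagonal.antidiagonal m, coeff x.2 Q * ((-1) ^ (x.1 w) * coeff x.1 Q) := by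
    rw [hS]
    refine Finset.sum_nbij' Prod.swap Prod.swap ?_ ?_ ?_ ?_ ?_
    · intro x hx
      rw [Finset.HasAntidiagonal.mem_antidiagonal] at hx ⊢
      rw [← hx]
      exact add_comm _ _
    · intro x hx
      rw [Finset.HasAntidiagonal.mem_antidiagonal] at hx ⊢
      rw [← hx]
      exact add_comm _ _
    · intro x _
      rfl
    · intro x _
      rfl
    · intro x _
      rfl
  have h2 : S = -S := by
    conv_lhs => rw [h1]
    rw [hS, ← Finset.sum_neg_distrib]
    refine Finset.sum_congr rfl fun x hx => ?_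
    rw [Finset.HasAntidiagonal.mem_antidiagonal] at hx
    have h3 : x.1 w + x.2 w = m w := by rw [← hx]; rfl
    have h4 : ((-1 : ℤ)) ^ (x.1 w) = -(-1) ^ (x.2 w) := by
      rw [← h3] at hm
      rcases Nat.even_or_odd (x.1 w) with h5 | h5
      · have h6 : Odd (x.2 w) := by
          rw [Nat.odd_add] at hm
          by_contra h7
          rw [Nat.not_odd_iff_even] at h7
          exact (Nat.not_odd_iff_even.2 h5) (hm.2 h7)
        rw [h5.neg_one_pow, h6.neg_one_pow]
        norm_num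
      · have h6 : Even (x.2 w) := by
          rw [Nat.odd_add] at hm
          exact hm.1 h5
        rw [h5.neg_one_pow, h6.neg_one_pow]
    rw [h4]
    ring
  omega

theorem card_anti [Fintype σ] [DecidableEq σ] (m : σ →₀ ℕ) (D : ℕ) (hm : ∀ v, m v ≤ D) :
    (Finset.HasAntidiagonal.antidiagonal m).card ≤ (D + 1) ^ Fintype.card σ := by
  have h1 : (Finset.HasAntidiagonal.antidiagonal m).card ≤ (Finset.Iic m).card := by
    refine Finset.card_le_card_of_injOn Prod.fst ?_ ?_
    · intro x hx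
      have hx' := Finset.HasAntidiagonal.mem_antidiagonal.1 (Finset.mem_coe.1 hx)
      rw [Finset.coe_Iic, Set.mem_Iic, ← hx']
      exact le_self_add
    · intro x hx y hy hxy
      have hx' := Finset.HasAntidiagonal.mem_antidiagonal.1 (Finset.mem_coe.1 hx)
      have hy' := Finset.HasAntidiagonal.mem_antidiagonal.1 (Finset.mem_coe.1 hy)
      refine Prod.ext hxy ?_
      have : x.1 + x.2 = x.1 + y.2 := by
        rw [hx', ← hy', hxy]
      exact add_left_cancel this
  refine h1.trans ?_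
  rw [Finsupp.card_Iic]
  have h2 : ∀ i ∈ m.support, (Finset.Iic (m i)).card ≤ D + 1 := by
    intro i _
    rw [Nat.card_Iic]
    exact Nat.succ_le_succ (hm i)
  refine (Finset.prod_le_prod' h2).trans ?_
  rw [Finset.prod_const]
  exact Nat.pow_le_pow_right (Nat.succ_pos D) (Finset.card_le_univ _)

theorem coeff_mul_le [Fintype σ] (P Q : MvPolynomial σ ℤ) (D B : ℕ) (hP : IsSmall P D B)
    (hQ : IsSmall Q D B) (m : σ →₀ ℕ) :
    (coeff m (P * Q)).natAbs ≤ (2 * D + 1) ^ Fintype.card σ * (B * B) := by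
  classical
  by_cases hm : coeff m (P * Q) = 0
  · rw [hm]
    simp
  have h1 : ∀ v, m v ≤ 2 * D := by
    intro v
    have h2 : m v ≤ (P * Q).degreeOf v := monomial_le_degreeOf v (mem_support_iff.2 hm)
    have h3 := degreeOf_le_totalDegree (P * Q) v
    have h4 := totalDegree_mul P Q
    have h5 := hP.1
    have h6 := hQ.1
    omega
  rw [coeff_mul]
  have h7 : (∑ x ∈ Finset.HasAntidiagonal.antidiagonal m, coeff x.1 P * coeff x.2 Q).natAbs ≤
      ∑ x ∈ Finset.HasAntidiagonal.antidiagonal m, (coeff x.1 P * coeff x.2 Q).natAbs := by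
    exact Int.natAbs_sum_le _ _
  refine h7.trans ?_
  refine (Finset.sum_le_card_nsmul _ _ (B * B) ?_).trans ?_
  · intro x _
    rw [Int.natAbs_mul]
    exact Nat.mul_le_mul (hP.2 _) (hQ.2 _)
  · rw [smul_eq_mul]
    exact Nat.mul_le_mul_right _ (card_anti m (2 * D) h1)

end General

section Main

variable {ι : Type} [Fintype ι]

/-- The new exponents. -/
def phi (m : (ι ⊕ Fin 3) →₀ ℕ) : (Fin 3 ⊕ ι) →₀ ℕ :=
  Finsupp.equivFunOnFinite.symm
    (Sum.elim ![m (Sum.inr 0), m (Sum.inr 1) / 2, m (Sum.inr 2)] (fun i => m (Sum.inl i)))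

theorem phi_inj (m m' : (ι ⊕ Fin 3) →₀ ℕ) (h : Even (m (Sum.inr 1))) (h' : Even (m' (Sum.inr 1)))
    (he : phi m = phi m') : m = m' := by
  have h0 : ∀ v, phi m v = phi m' v := fun v => by rw [he]
  have e0 := h0 (Sum.inl 0)
  have e1 := h0 (Sum.inl 1)
  have e2 := h0 (Sum.inl 2)
  simp only [phi, Finsupp.equivFunOnFinite_symm_apply_apply, Sum.elim_inl, Matrix.cons_val_zero,
    Matrix.cons_val_one, Matrix.cons_val_two, Matrix.cons_val] at e0 e1 e2
  ext v
  rcases v with i | j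
  · have e3 := h0 (Sum.inr i)
    simpa [phi] using e3
  · fin_cases j
    · exact e0
    · obtain ⟨k, hk⟩ := h
      obtain ⟨k', hk'⟩ := h'
      simp only [Fin.mk_one, Fin.isValue]
      omega
    · exact e2

theorem sum_phi_le (m : (ι ⊕ Fin 3) →₀ ℕ) :
    ((phi m).sum fun _ e => e) ≤ m.sum fun _ e => e := by
  rw [Finsupp.sum_fintype _ _ (fun _ => rfl), Finsupp.sum_fintype _ _ (fun _ => rfl),
    Fintype.sum_sum_type, Fintype.sum_sum_type, Fin.sum_univ_three, Fin.sum_univ_three]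
  simp only [phi, Finsupp.equivFunOnFinite_symm_apply_apply, Sum.elim_inl, Sum.elim_inr,
    Matrix.cons_val_zero, Matrix.cons_val_one, Matrix.cons_val]
  have := Nat.div_le_self (m (Sum.inr 1)) 2
  omega

/-- The new polynomial. -/
def newP (N : MvPolynomial (ι ⊕ Fin 3) ℤ) (a b : ℤ) (D : ℕ) : MvPolynomial (Fin 3 ⊕ ι) ℤ :=
  ∑ m ∈ N.support, monomial (phi m)
    (coeff m N * (a ^ (m (Sum.inr 1) / 2) * b ^ (D - m (Sum.inr 1) / 2)))

theorem coeff_newP_zero_or (N : MvPolynomial (ι ⊕ Fin 3) ℤ) (a b : ℤ) (D : ℕ)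
    (hN : ∀ m ∈ N.support, Even (m (Sum.inr 1))) (d : (Fin 3 ⊕ ι) →₀ ℕ) :
    coeff d (newP N a b D) = 0 ∨ ∃ m ∈ N.support, coeff d (newP N a b D) =
      coeff m N * (a ^ (m (Sum.inr 1) / 2) * b ^ (D - m (Sum.inr 1) / 2)) := by
  classical
  by_cases h : ∃ m ∈ N.support, phi m = d
  · right
    obtain ⟨m, hm, rfl⟩ := h
    refine ⟨m, hm, ?_⟩
    rw [newP, coeff_sum]
    simp only [coeff_monomial]
    rw [Finset.sum_eq_single m]
    · simp
    · intro m' hm' hne
      rw [if_neg]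
      intro he
      exact hne (phi_inj m' m (hN m' hm') (hN m hm) he)
    · intro h
      exact absurd hm h
  · left
    push Not at h
    rw [newP, coeff_sum]
    refine Finset.sum_eq_zero fun m hm => ?_
    rw [coeff_monomial, if_neg (h m hm)]

theorem coeff_newP (N : MvPolynomial (ι ⊕ Fin 3) ℤ) (a b : ℤ) (D : ℕ)
    (hN : ∀ m ∈ N.support, Even (m (Sum.inr 1))) (m : (ι ⊕ Fin 3) →₀ ℕ) (hm : m ∈ N.support) :
    coeff (phi m) (newP N a b D) =
      coeff m N * (a ^ (m (Sum.inr 1) / 2) * b ^ (D - m (Sum.inr 1) / 2)) := by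
  classical
  rw [newP, coeff_sum]
  simp only [coeff_monomial]
  rw [Finset.sum_eq_single m]
  · simp
  · intro m' hm' hne
    rw [if_neg]
    intro he
    exact hne (phi_inj m' m (hN m' hm') (hN m hm) he)
  · intro h
    exact absurd hm h

theorem eval_newP (N : MvPolynomial (ι ⊕ Fin 3) ℤ) (a b : ℤ) (D : ℕ)
    (hN : ∀ m ∈ N.support, Even (m (Sum.inr 1))) (hD : ∀ m ∈ N.support, m (Sum.inr 1) ≤ 2 * D)
    (c : ι → ℂ) (τ Ω h G : ℂ) (hb : (b : ℂ) * Ω ^ 2 = a * h)
    (h0 : aeval (Sum.elim c ![τ, Ω, G]) N = 0) :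
    aeval (Sum.elim ![τ, h, G] c) (newP N a b D) = 0 := by
  have h1 : aeval (Sum.elim ![τ, h, G] c) (newP N a b D) =
      (b : ℂ) ^ D * aeval (Sum.elim c ![τ, Ω, G]) N := by
    rw [newP, map_sum]
    conv_rhs => rw [N.as_sum, map_sum]
    rw [Finset.mul_sum]
    refine Finset.sum_congr rfl fun m hm => ?_
    rw [aeval_monomial, aeval_monomial, Finsupp.prod_fintype _ _ (fun _ => pow_zero _),
      Finsupp.prod_fintype _ _ (fun _ => pow_zero _), Fintype.prod_sum_type, Fintype.prod_sum_type,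
      Fin.prod_univ_three, Fin.prod_univ_three]
    simp only [phi, Finsupp.equivFunOnFinite_symm_apply_apply, Sum.elim_inl, Sum.elim_inr,
      Matrix.cons_val_zero, Matrix.cons_val_one, Matrix.cons_val]
    obtain ⟨k, hk⟩ := hN m hm
    have hk2 : m (Sum.inr 1) / 2 = k := by omega
    have hkD : k ≤ D := by have := hD m hm; omega
    have hk3 : m (Sum.inr 1) = 2 * k := by omega
    rw [hk2, hk3]
    have h2 : (b : ℂ) ^ D = (b : ℂ) ^ (D - k) * (b : ℂ) ^ k := by
      rw [← pow_add, Nat.sub_add_cancel hkD]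
    have h3 : (a : ℂ) ^ k * h ^ k = (b : ℂ) ^ k * Ω ^ (2 * k) := by
      rw [← mul_pow, ← hb, mul_pow, ← pow_mul]
    simp only [algebraMap_int_eq, eq_intCast, Int.cast_mul, Int.cast_pow]
    rw [h2]
    linear_combination ((coeff m N : ℤ) : ℂ) * (b : ℂ) ^ (D - k) * τ ^ m (Sum.inr 0) *
      G ^ m (Sum.inr 2) * (∏ x, c x ^ m (Sum.inl x)) * h3
  rw [h1, h0, mul_zero]

end Main

end

open MvPolynomial in
theorem thm : Stmt_TransB := by
  intro ι _ D A
  classical
  set K := (2 * D + 1) ^ Fintype.card (ι ⊕ Fin 3) with hK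
  refine ⟨2 * D, K + 2 * A + 3 * D, ?_⟩
  intro X hX c a b ha hb hab hbb τ Ω h G hrel hfree
  rw [Free] at hfree
  push Not at hfree
  obtain ⟨Q, hQs, hQ0, hQne⟩ := hfree
  set w : ι ⊕ Fin 3 := Sum.inr 1 with hw
  set N := Q * neg w Q with hN
  have hnegs : IsSmall (neg w Q) D (X ^ A) := by
    refine ⟨?_, ?_⟩
    · have : (neg w Q).totalDegree = Q.totalDegree := by
        rw [totalDegree, totalDegree, support_neg]
      rw [this]
      exact hQs.1
    · intro m
      rw [coeff_neg, Int.natAbs_mul, Int.natAbs_pow]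
      simpa using hQs.2 m
  have hNne : N ≠ 0 := mul_ne_zero hQne (neg_ne_zero w Q hQne)
  have hNdeg : N.totalDegree ≤ 2 * D := by
    have h1 := totalDegree_mul Q (neg w Q)
    have h2 := hQs.1
    have h3 := hnegs.1
    rw [← hN] at h1
    omega
  have hNev : ∀ m ∈ N.support, Even (m (Sum.inr 1)) := by
    intro m hm
    by_contra hodd
    rw [Nat.not_even_iff_odd] at hodd
    exact (mem_support_iff.1 hm) (even_mul_neg w Q m hodd)
  have hNw : ∀ m ∈ N.support, m (Sum.inr 1) ≤ 2 * D := by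
    intro m hm
    exact (monomial_le_degreeOf _ hm).trans ((degreeOf_le_totalDegree N _).trans hNdeg)
  have hNc : ∀ m, (coeff m N).natAbs ≤ K * (X ^ A * X ^ A) := fun m =>
    coeff_mul_le Q (neg w Q) D (X ^ A) hQs hnegs m
  refine ⟨newP N a b D, ?_, ⟨?_, ?_⟩, ?_⟩
  · obtain ⟨m, hm⟩ := ne_zero_iff.1 hNne
    rw [ne_zero_iff]
    refine ⟨phi m, ?_⟩
    rw [coeff_newP N a b D hNev m (mem_support_iff.2 hm)]
    exact mul_ne_zero hm (mul_ne_zero (pow_ne_zero _ ha) (pow_ne_zero _ hb))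
  · rw [newP]
    refine totalDegree_finsetSum_le fun m hm => ?_
    refine (totalDegree_monomial_le _ _).trans ?_
    refine (sum_phi_le m).trans ?_
    exact (le_totalDegree hm).trans hNdeg
  · intro d
    rcases coeff_newP_zero_or N a b D hNev d with h1 | ⟨m, hm, h1⟩
    · rw [h1]
      simp
    · rw [h1, Int.natAbs_mul, Int.natAbs_mul, Int.natAbs_pow, Int.natAbs_pow]
      set k := m (Sum.inr 1) / 2 with hk
      have hkD : k ≤ D := by have := hNw m hm; omega
      have h2 : a.natAbs ^ k * b.natAbs ^ (D - k) ≤ X ^ (3 * D) := by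
        calc a.natAbs ^ k * b.natAbs ^ (D - k) ≤ (X ^ 3) ^ k * (X ^ 3) ^ (D - k) :=
              Nat.mul_le_mul (Nat.pow_le_pow_left hab k) (Nat.pow_le_pow_left hbb _)
          _ = X ^ (3 * D) := by
              rw [← pow_add, ← pow_mul, Nat.add_sub_cancel' hkD]
      have h3 : K ≤ X ^ K := by
        calc K ≤ 2 ^ K := Nat.lt_two_pow_self.le
          _ ≤ X ^ K := Nat.pow_le_pow_left hX K
      calc (coeff m N).natAbs * (a.natAbs ^ k * b.natAbs ^ (D - k))
          ≤ (K * (X ^ A * X ^ A)) * X ^ (3 * D) := Nat.mul_le_mul (hNc m) h2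
        _ ≤ (X ^ K * (X ^ A * X ^ A)) * X ^ (3 * D) :=
              Nat.mul_le_mul_right _ (Nat.mul_le_mul_right _ h3)
        _ = X ^ (K + 2 * A + 3 * D) := by ring
  · refine eval_newP N a b D hNev hNw c τ Ω h G hrel ?_
    rw [hN, map_mul, hQ0, zero_mul]

end Pool.Agent.GPC.TRANSB
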