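import Pool.Agent.GPC.Defs

open scoped BigOperators

namespace Pool.Agent.GPC.ULTF

open Pool.Agent.GPC

/-- the filter of the sets with complement of bounded size in the `T i` -/
def flt (T : ℕ → Finset ℚ) : Filter (ℕ × ℚ) where
  sets := {S | ∃ m i0 : ℕ, ∀ i, i0 ≤ i → ∀ E : Finset ℚ, (∀ r ∈ E, r ∈ T i ∧ (i, r) ∉ S) →
    E.card ≤ m}
  univ_sets := by
    refine ⟨0, 0, fun i _ E hE => ?_⟩
    rcases E.eq_empty_or_nonempty with h | ⟨r, hr⟩
    · simp [h]
    · exact absurd (Set.mem_univ _) (hE r hr).2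
  sets_of_superset := by
    rintro S S' ⟨m, i0, h⟩ hSS'
    exact ⟨m, i0, fun i hi E hE => h i hi E fun r hr => ⟨(hE r hr).1, fun hc => (hE r hr).2 (hSS' hc)⟩⟩
  inter_sets := by
    classical
    rintro S S' ⟨m, i0, h⟩ ⟨m', i0', h'⟩
    refine ⟨m + m', max i0 i0', fun i hi E hE => ?_⟩
    have h1 := h i ((le_max_left _ _).trans hi) (E.filter fun r => (i, r) ∉ S) (by
      intro r hr
      rw [Finset.mem_filter] at hr
      exact ⟨(hE r hr.1).1, hr.2⟩)
    have h2 := h' i ((le_max_right _ _).trans hi) (E.filter fun r => ¬ (i, r) ∉ S) (by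
      intro r hr
      rw [Finset.mem_filter, not_not] at hr
      exact ⟨(hE r hr.1).1, fun hc => (hE r hr.1).2 ⟨hr.2, hc⟩⟩)
    have h3 := Finset.card_filter_add_card_filter_not (s := E) (fun r => (i, r) ∉ S)
    omega

theorem thm : Stmt_UltF := by
  intro T hT
  have hne : (flt T).NeBot := by
    rw [Filter.neBot_iff]
    intro hbot
    have h : (∅ : Set (ℕ × ℚ)) ∈ flt T := by rw [hbot]; exact Filter.mem_bot
    obtain ⟨m, i0, h⟩ := h
    have h1 := h (max i0 m) (le_max_left _ _) (T (max i0 m)) (fun r hr => ⟨hr, by simp⟩)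
    have h2 := hT (max i0 m)
    have h3 := le_max_right i0 m
    omega
  refine ⟨Ultrafilter.of (flt T), fun S m i0 h => ?_⟩
  exact Ultrafilter.of_le (flt T) ⟨m, i0, h⟩

end Pool.Agent.GPC.ULTF
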