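import Pool.Agent.Lib70.PiTranscendental
import Pool.Agent.GPC.ALG
import Pool.Agent.GPC.ALGA
import Pool.Agent.GPC.CIRC
import Pool.Agent.GPC.COVER
import Pool.Agent.GPC.Cram
import Pool.Agent.GPC.FIB
import Pool.Agent.GPC.FIBER
import Pool.Agent.GPC.FINAL
import Pool.Agent.GPC.GEIS
import Pool.Agent.GPC.Grow
import Pool.Agent.GPC.HOM
import Pool.Agent.GPC.ID
import Pool.Agent.GPC.IND3
import Pool.Agent.GPC.IND4
import Pool.Agent.GPC.INDDET
import Pool.Agent.GPC.INDUC
import Pool.Agent.GPC.INTG2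
import Pool.Agent.GPC.KEY
import Pool.Agent.GPC.KREP
import Pool.Agent.GPC.LOCG
import Pool.Agent.GPC.LowDet
import Pool.Agent.GPC.MINOR
import Pool.Agent.GPC.PERM
import Pool.Agent.GPC.RANKDET
import Pool.Agent.GPC.REGION
import Pool.Agent.GPC.SEQ
import Pool.Agent.GPC.STEP
import Pool.Agent.GPC.THMG
import Pool.Agent.GPC.TRANSA
import Pool.Agent.GPC.TRANSB
import Pool.Agent.GPC.ULTF
import Pool.Agent.GPC.ULTRA

namespace Pool.Agent.GPC.Main

open Pool.Agent.GPC

theorem circ : Stmt_Circ := CIRC.thm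
theorem krep : Stmt_KRep := KREP.thm circ cram_proof
theorem id' : Stmt_ID := ID.thm RANKDET.thm
theorem key : Stmt_Key := KEY.thm krep id' lowdet_proof INDDET.thm
theorem alg : Stmt_Alg := ALG.thm ALGA.thm grow_proof MINOR.thm
theorem ultra : Stmt_Ultra := ULTRA.thm alg ULTF.thm
theorem seq : Stmt_Seq := SEQ.thm ultra key
theorem locG : Stmt_LocG := LOCG.thm seq
theorem thmG : Stmt_ThmG := THMG.thm locG
theorem fib : Stmt_Fib := FIB.thm circ

theorem permat : Stmt_PerM := PERM.thm HOM.thm INTG2.thm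
theorem geis : Stmt_GEis := GEIS.thm
theorem ind3 : Stmt_Ind3 := IND3.thm (IND4.thm geis) geis
theorem cover : Stmt_Cover := COVER.thm geis
theorem fiber : Stmt_Fiber := FIBER.thm cover fib ind3 permat
theorem step : Stmt_Step := STEP.thm thmG ind3 cover TRANSB.thm permat
theorem induc : Stmt_Induc := INDUC.thm step fiber Lib70.PiTr.transcendental_pi
theorem region : Stmt_Region := REGION.thm geis permat
theorem transA : Stmt_TransA := TRANSA.thm permat
theorem final : Stmt_Final := FINAL.thm induc region transA permat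

end Pool.Agent.GPC.Main
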