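import Pool.Agent.GPC.Sealed

/-!
# GPC: relations between values of algebraically independent holomorphic functions

Common definitions and the exact statements of the modules of part I (the counting theorem).
-/

open scoped BigOperators Topology
open Metric

namespace Pool.Agent.GPC

noncomputable section

/-- The point with coordinates `a` (index `none`) and `f j` (index `some j`). -/
def pt {n : ℕ} {R : Type} (a : R) (f : Fin n → R) (o : Option (Fin n)) : R := o.elim a f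

/-- The monomial `∏ ν, x ν ^ β ν`. -/
def mono {N : ℕ} {R : Type} [CommRing R] (x : Fin N → R) (β : Fin N →₀ ℕ) : R :=
  ∏ ν, x ν ^ β ν

/-- `s, f 1, …, f n` are holomorphic on the ball of radius `10 ρ` around `z0` and algebraically
independent over `ℂ`. -/
structure Indep (n : ℕ) (z0 : ℂ) (ρ : ℝ) (s : ℂ → ℂ) (f : Fin n → ℂ → ℂ) : Prop where
  pos : 0 < ρ
  ds : DifferentiableOn ℂ s (ball z0 (10 * ρ))
  df : ∀ j, DifferentiableOn ℂ (f j) (ball z0 (10 * ρ))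
  ind : ∀ Q : MvPolynomial (Option (Fin n)) ℂ,
    (∀ z ∈ ball z0 (10 * ρ), MvPolynomial.eval (pt (s z) (fun j => f j z)) Q = 0) → Q = 0

/-! ## Analysis -/

/-- CIRC: uniform lower bound on a circle and uniform factorization for the nonzero elements of
a finite dimensional space of holomorphic functions. -/
def Stmt_Circ : Prop := ∀ (z0 : ℂ) (ρ : ℝ), 0 < ρ → ∀ (ι : Type) [Fintype ι] (g : ι → ℂ → ℂ),
  (∀ k, DifferentiableOn ℂ (g k) (ball z0 (10 * ρ))) →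
  (∀ d : ι → ℂ, (∀ z ∈ ball z0 (10 * ρ), ∑ k, d k * g k z = 0) → d = 0) →
  ∃ (c : ℝ) (Z : ℕ), 0 < c ∧ ∀ (d : ι → ℂ) (N : ℝ), 0 < N → (∃ k, ‖d k‖ = N) →
    (∀ k, ‖d k‖ ≤ N) →
    ∃ (R : ℝ) (k : ℕ) (w : Fin k → ℂ) (u : ℂ → ℂ), 2 * ρ < R ∧ R < 3 * ρ ∧ k ≤ Z ∧
      (∀ j, w j ∈ ball z0 R) ∧ DifferentiableOn ℂ u (ball z0 (10 * ρ)) ∧
      (∀ z ∈ closedBall z0 R, u z ≠ 0) ∧
      (∀ z ∈ ball z0 (10 * ρ), ∑ k, d k * g k z = (∏ j, (z - w j)) * u z) ∧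
      ∀ z ∈ sphere z0 R, c * N ≤ ‖∑ k, d k * g k z‖

/-- RANKDET: a matrix which is a power series in `t` with coefficients of rank at most `b` has
a determinant of large order (finite form: multilinear expansion). -/
def Stmt_RankDet : Prop := ∀ (M b p : ℕ), 0 < b → 2 * b * p + M * b ≤ M * M →
  ∀ (A : ℕ → Matrix (Fin M) (Fin M) ℂ) (B : ℂ → Matrix (Fin M) (Fin M) ℂ),
  (∀ j < p, ∃ (u : Fin b → Fin M → ℂ) (v : Fin b → Fin M → ℂ),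
    ∀ l c, A j l c = ∑ k, u k l * v k c) →
  (∀ l c, ContinuousAt (fun t => B t l c) 0) →
  ∃ (C : ℝ), ∀ᶠ t in 𝓝 (0 : ℂ),
    ‖(∑ j ∈ Finset.range p, t ^ j • A j + t ^ p • B t).det‖ ≤ C * ‖t‖ ^ p

/-- ID: upper bound for interpolation determinants. -/
def Stmt_ID : Prop := ∀ (M b p : ℕ), 0 < b → 2 * b * p + M * b ≤ M * M →
  ∀ (w : ℂ) (r R Θ : ℝ), 0 < r → r < R → ∀ (z : Fin M → ℂ), (∀ l, ‖z l - w‖ ≤ r) →
  ∀ (h : Fin M → Fin b → ℂ → ℂ), (∀ c k, DifferentiableOn ℂ (h c k) (ball w R)) →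
  (∀ c k, ∀ z ∈ ball w R, ‖h c k z‖ ≤ Θ) → ∀ (y : Fin M → Fin b → ℂ), (∀ l k, ‖y l k‖ ≤ 1) →
  ‖(Matrix.of fun l c => ∑ k, y l k * h c k (z l)).det‖ ≤
    M.factorial * (b * Θ) ^ M * (r / R) ^ p

/-! ## Linear algebra -/

/-- CRAM: Cramer's rule for a vector in the kernel of a matrix `L` with an invertible maximal
minor (columns `p`). -/
def Stmt_Cram : Prop := ∀ (a b : ℕ) (L : Matrix (Fin a) (Fin b) ℂ) (p : Fin a → Fin b),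
  (L.submatrix id p).det ≠ 0 → Function.Injective p ∧
  ∀ v : Fin b → ℂ, L.mulVec v = 0 → ∀ i : Fin a,
    v (p i) = - ∑ k ∈ Finset.univ.filter (fun k => ∀ j, p j ≠ k),
      (L.submatrix id (Function.update p i k)).det / (L.submatrix id p).det * v k

/-- MINOR: a matrix over a domain with linearly independent rows has a nonzero maximal minor. -/
def Stmt_Minor : Prop := ∀ (R : Type) [CommRing R] [IsDomain R] (a b : ℕ)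
  (L : Matrix (Fin a) (Fin b) R),
  (∀ c : Fin a → R, (∀ k, ∑ i, c i * L i k = 0) → c = 0) →
  ∃ p : Fin a → Fin b, (L.submatrix id p).det ≠ 0

/-- GROW: a sequence of positive integers of polynomial growth has a small relative increment. -/
def Stmt_Grow : Prop := ∀ (n : ℕ → ℕ) (N q : ℕ), (∀ e, 0 < n e) → (∀ e, n e ≤ n (e + 1)) →
  (∀ e, n e ≤ (e + 1) ^ N) → ∃ e, q * (n (e + 1) - n e) ≤ n (e + 1)

/-- LOWDET: lower bound for a nonzero determinant of rational numbers. -/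
def Stmt_LowDet : Prop := ∀ (M : ℕ) (E : Matrix (Fin M) (Fin M) ℚ) (q : Fin M → ℕ) (B : ℕ),
  (∀ l, 0 < q l ∧ q l ≤ B) → (∀ l c, ∃ k : ℤ, (q l : ℚ) * E l c = k) → E.det ≠ 0 →
  1 ≤ (B : ℝ) ^ M * ‖(E.map (algebraMap ℚ ℂ)).det‖

/-- INDDET: linearly independent functions have a nonzero interpolation determinant. -/
def Stmt_IndDet : Prop := ∀ (α ι : Type) [Fintype ι] [DecidableEq ι] (T : Finset α)
  (g : ι → α → ℂ), (∀ c : ι → ℂ, (∀ a ∈ T, ∑ i, c i * g i a = 0) → c = 0) →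
  ∃ pts : ι → α, (∀ i, pts i ∈ T) ∧ (Matrix.of fun l c => g c (pts l)).det ≠ 0

/-! ## The algebraic core -/

/-- ALGA: monomial bases, over the field of fractions of `F[t]`, of the spaces spanned by the
monomials of degree at most `e`. -/
def Stmt_AlgA : Prop := ∀ (K : Type) [Field K] (F : Subfield K) (t : K), Transcendental F t →
  ∀ (N : ℕ) (x : Fin N → K), ∃ (b : ℕ → ℕ) (β : ∀ e, Fin (b e) → (Fin N →₀ ℕ)),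
    (∀ e, 0 < b e ∧ b e ≤ b (e + 1) ∧ b e ≤ (e + 1) ^ N) ∧
    (∀ e k, ∑ ν, β e k ν ≤ e) ∧
    (∀ e, ∀ P : Fin (b e) → Polynomial F,
      ∑ k, Polynomial.aeval t (P k) * mono x (β e k) = 0 → ∀ k, P k = 0) ∧
    ∀ e, ∀ γ : Fin N →₀ ℕ, ∑ ν, γ ν ≤ e → ∃ (d : Polynomial F) (P : Fin (b e) → Polynomial F),
      d ≠ 0 ∧ Polynomial.aeval t d * mono x γ =
        ∑ k, Polynomial.aeval t (P k) * mono x (β e k)

/-- ALG -/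
def Stmt_Alg : Prop := ∀ (K : Type) [Field K] (F : Subfield K) (t : K), Transcendental F t →
  ∀ (N n : ℕ) (x : Fin N → K) (𝒜 : Finset (Fin n →₀ ℕ)) (c : (Fin n →₀ ℕ) → Fin N → F),
  (∃ α ∈ 𝒜, ∑ ν, (c α ν : K) * x ν ≠ 0) → ∀ q : ℕ,
  ∃ (a b : ℕ) (β : Fin b → (Fin N →₀ ℕ))
    (Λ : Matrix (Fin a) (Fin b) (MvPolynomial (Option (Fin n)) F)) (p : Fin a → Fin b),
    0 < b ∧ a ≤ b ∧ q * (b - a) ≤ b ∧
    (∀ P : Fin b → Polynomial F, ∑ k, Polynomial.aeval t (P k) * mono x (β k) = 0 →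
      ∀ k, P k = 0) ∧
    (∀ φ : Fin n → K, ∑ α ∈ 𝒜, (∑ ν, (c α ν : K) * x ν) * mono φ α = 0 → ∀ g,
      ∑ k, MvPolynomial.aeval (pt t φ) (Λ g k) * mono x (β k) = 0) ∧
    (Λ.submatrix id p).det ≠ 0

/-! ## Transfer -/

/-- The data of a sequence of configurations which violates the counting theorem. -/
structure BadSeq (n N A : ℕ) (z0 : ℂ) (ρ κ : ℝ) (s : ℂ → ℂ) (f : Fin n → ℂ → ℂ)
    (𝒜 : Finset (Fin n →₀ ℕ)) where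
  H : ℕ → ℕ
  Γ : ℕ → (Fin n →₀ ℕ) → Fin N → ℂ
  w : ℕ → ℂ
  T : ℕ → Finset ℚ
  z : ℕ → ℚ → ℂ
  x : ℕ → ℚ → Fin N → ℚ
  q : ℕ → ℚ → ℕ
  card : ∀ i, i < (T i).card
  wmem : ∀ i, w i ∈ closedBall z0 ρ
  num : ∀ i, ∀ r ∈ T i, r.num.natAbs ≤ H i
  den : ∀ i, ∀ r ∈ T i, r.den ≤ H i
  zmem : ∀ i, ∀ r ∈ T i, z i r ∈ closedBall z0 ρ
  znear : ∀ i, ∀ r ∈ T i, ‖z i r - w i‖ ≤ (H i : ℝ) ^ (-κ)
  sz : ∀ i, ∀ r ∈ T i, s (z i r) = r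
  xle : ∀ i, ∀ r ∈ T i, ∀ ν, |x i r ν| ≤ 1
  qpos : ∀ i, ∀ r ∈ T i, 0 < q i r
  qle : ∀ i, ∀ r ∈ T i, q i r ≤ H i ^ A
  xq : ∀ i, ∀ r ∈ T i, ∀ ν, ∃ k : ℤ, (q i r : ℚ) * x i r ν = k
  ne : ∀ i, ∀ r ∈ T i, ∃ α ∈ 𝒜, ∑ ν, Γ i α ν * (x i r ν : ℂ) ≠ 0
  rel : ∀ i, ∀ r ∈ T i,
    ∑ α ∈ 𝒜, (∑ ν, Γ i α ν * (x i r ν : ℂ)) * mono (fun j => f j (z i r)) α = 0

/-- ULTF: an ultrafilter on the set of pairs which avoids the sets of bounded size. -/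
def Stmt_UltF : Prop := ∀ T : ℕ → Finset ℚ, (∀ i, i < (T i).card) →
  ∃ 𝒱 : Ultrafilter (ℕ × ℚ), ∀ (S : Set (ℕ × ℚ)) (m i0 : ℕ),
    (∀ i, i0 ≤ i → ∀ E : Finset ℚ, (∀ r ∈ E, r ∈ T i ∧ (i, r) ∉ S) → E.card ≤ m) → S ∈ 𝒱

/-- ULTRA: the algebraic core applied to a field of germs. -/
def Stmt_Ultra : Prop := ∀ (n N A : ℕ) (z0 : ℂ) (ρ κ : ℝ) (s : ℂ → ℂ) (f : Fin n → ℂ → ℂ)
  (𝒜 : Finset (Fin n →₀ ℕ)) (S : BadSeq n N A z0 ρ κ s f 𝒜) (q : ℕ),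
  ∃ (a b : ℕ) (β : Fin b → (Fin N →₀ ℕ)) (𝒮 : Finset (Option (Fin n) →₀ ℕ))
    (Λ : ℕ → Matrix (Fin a) (Fin b) (MvPolynomial (Option (Fin n)) ℂ)),
    0 < b ∧ a ≤ b ∧ q * (b - a) ≤ b ∧ (∀ i g k, (Λ i g k).support ⊆ 𝒮) ∧
    ∀ (J Z i0 : ℕ) (Ex : ℕ → Finset ℚ), (∀ i, (Ex i).card ≤ Z) → ∃ i, i0 ≤ i ∧
      (∃ p : Fin a → Fin b, ((Λ i).submatrix id p).det ≠ 0) ∧
      ∀ μ : Fin J → Fin b → ℂ,
        (∀ r ∈ S.T i, r ∉ Ex i →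
          (∀ g, ∑ k, MvPolynomial.eval (pt (r : ℂ) (fun j => f j (S.z i r))) (Λ i g k) *
            ((mono (S.x i r) (β k) : ℚ) : ℂ) = 0) →
          ∑ j, ∑ k, μ j k * ((r : ℂ) ^ (j : ℕ) * ((mono (S.x i r) (β k) : ℚ) : ℂ)) = 0) → μ = 0

/-! ## The analytic key estimate -/

/-- KREP: the vectors in the kernel of the linear system depend, up to a factor with few zeros,
on `b - a` of their coordinates, with uniformly bounded holomorphic coefficients. -/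
def Stmt_KRep : Prop := ∀ (n : ℕ) (z0 : ℂ) (ρ : ℝ) (s : ℂ → ℂ) (f : Fin n → ℂ → ℂ),
  Indep n z0 ρ s f → ∀ (a b : ℕ) (𝒮 : Finset (Option (Fin n) →₀ ℕ)), a ≤ b →
  ∃ (Z : ℕ) (Θ : ℝ), 0 < Θ ∧
    ∀ (Λ : Matrix (Fin a) (Fin b) (MvPolynomial (Option (Fin n)) ℂ)),
    (∀ g k, (Λ g k).support ⊆ 𝒮) → (∃ p : Fin a → Fin b, (Λ.submatrix id p).det ≠ 0) →
    ∃ (k : ℕ) (w : Fin k → ℂ) (h : Fin b → Fin (b - a) → ℂ → ℂ) (e : Fin (b - a) → Fin b),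
      k ≤ Z ∧ (∀ i l, DifferentiableOn ℂ (h i l) (ball z0 (2 * ρ))) ∧
      (∀ i l, ∀ z ∈ ball z0 (2 * ρ), ‖h i l z‖ ≤ Θ) ∧
      ∀ z ∈ ball z0 (2 * ρ), (∀ j, z ≠ w j) → ∀ v : Fin b → ℂ,
        (∀ g, ∑ k, MvPolynomial.eval (pt (s z) (fun j => f j z)) (Λ g k) * v k = 0) →
        ∀ i, (∏ j, (z - w j)) * v i = ∑ l, h i l z * v (e l)

/-- KEY: in a small disc the functions `r ^ j x ^ β` are dependent on the points which satisfy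
the linear system, if the heights are large. -/
def Stmt_Key : Prop := ∀ (n N A : ℕ) (z0 : ℂ) (ρ κ : ℝ) (s : ℂ → ℂ) (f : Fin n → ℂ → ℂ),
  Indep n z0 ρ s f → 0 < κ → ∀ (a b q : ℕ) (β : Fin b → (Fin N →₀ ℕ))
  (𝒮 : Finset (Option (Fin n) →₀ ℕ)) (c2 : ℝ), 8 ≤ q * κ → 0 < b → a ≤ b →
  q * (b - a) ≤ b → 0 < c2 → c2 ≤ 1 →
  ∃ (J Z H0 : ℕ), ∀ H : ℕ, H0 ≤ H →
    ∀ (Λ : Matrix (Fin a) (Fin b) (MvPolynomial (Option (Fin n)) ℂ)),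
    (∀ g k, (Λ g k).support ⊆ 𝒮) → (∃ p : Fin a → Fin b, (Λ.submatrix id p).det ≠ 0) →
    ∀ w ∈ closedBall z0 ρ, ∃ E : Finset ℂ, E.card ≤ Z ∧
      ∀ (T : Finset ℚ) (z : ℚ → ℂ) (x : ℚ → Fin N → ℚ) (qq : ℚ → ℕ),
      (∀ r ∈ T, r.num.natAbs ≤ H ∧ r.den ≤ H ∧ z r ∈ closedBall z0 ρ ∧
        ‖z r - w‖ ≤ (H : ℝ) ^ (-κ) ∧ s (z r) = r ∧ (∀ ν, |x r ν| ≤ 1) ∧
        0 < qq r ∧ qq r ≤ H ^ A ∧ (∀ ν, ∃ k : ℤ, (qq r : ℚ) * x r ν = k) ∧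
        (∀ g, ∑ k, MvPolynomial.eval (pt (r : ℂ) (fun j => f j (z r))) (Λ g k) *
          ((mono (x r) (β k) : ℚ) : ℂ) = 0) ∧ ∀ e ∈ E, c2 / (H : ℝ) ^ 2 ≤ ‖z r - e‖) →
      ∃ μ : Fin J → Fin b → ℂ, μ ≠ 0 ∧ ∀ r ∈ T,
        ∑ j, ∑ k, μ j k * ((r : ℂ) ^ (j : ℕ) * ((mono (x r) (β k) : ℚ) : ℂ)) = 0

/-! ## The counting theorem -/

/-- SEQ: there is no bad sequence. -/
def Stmt_Seq : Prop := ∀ (n N A : ℕ) (z0 : ℂ) (ρ κ : ℝ) (s : ℂ → ℂ) (f : Fin n → ℂ → ℂ)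
  (𝒜 : Finset (Fin n →₀ ℕ)), Indep n z0 ρ s f → 0 < κ →
  BadSeq n N A z0 ρ κ s f 𝒜 → False

/-- `r` is the value of `s` at a point near `w` where the values of the `f j` and the numbers
`c k` satisfy a nontrivial relation of bounded complexity. -/
def IsBad {n : ℕ} {ι : Type} (z0 w : ℂ) (ρ δ : ℝ) (s : ℂ → ℂ) (f : Fin n → ℂ → ℂ) (c : ι → ℂ)
    (D B : ℕ) (r : ℚ) : Prop :=
  ∃ z ∈ closedBall z0 ρ, ‖z - w‖ ≤ δ ∧ s z = r ∧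
    ∃ P : MvPolynomial (Fin n ⊕ ι) ℤ, P ≠ 0 ∧ IsSmall P D B ∧
      MvPolynomial.aeval (Sum.elim (fun j => f j z) c) P = 0

/-- The numbers `c k` satisfy no nontrivial integral relation of complexity `(D, B)`. -/
def Free {ι : Type} (D B : ℕ) (c : ι → ℂ) : Prop :=
  ∀ Q : MvPolynomial ι ℤ, IsSmall Q D B → MvPolynomial.aeval c Q = 0 → Q = 0

/-- LOCG: the local counting theorem. -/
def Stmt_LocG : Prop := ∀ (n : ℕ) (ι : Type) [Fintype ι] (z0 : ℂ) (ρ κ : ℝ) (s : ℂ → ℂ)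
  (f : Fin n → ℂ → ℂ), Indep n z0 ρ s f → 0 < κ → ∀ D A : ℕ, ∃ C : ℕ, ∀ H : ℕ, 1 ≤ H →
  ∀ c : ι → ℂ, Free D (H ^ A) c →
  ∀ w ∈ closedBall z0 ρ, ∀ T : Finset ℚ, (∀ r ∈ T, r.num.natAbs ≤ H ∧ r.den ≤ H ∧
    IsBad z0 w ρ ((H : ℝ) ^ (-κ)) s f c D (H ^ A) r) → T.card ≤ C

/-- THMG: the counting theorem. -/
def Stmt_ThmG : Prop := ∀ (n : ℕ) (ι : Type) [Fintype ι] (z0 : ℂ) (ρ ε : ℝ) (s : ℂ → ℂ)
  (f : Fin n → ℂ → ℂ), Indep n z0 ρ s f → 0 < ε → ∀ D A : ℕ, ∃ C : ℝ, ∀ H : ℕ, 1 ≤ H →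
  ∀ c : ι → ℂ, Free D (H ^ A) c → ∀ T : Finset ℚ, (∀ r ∈ T, r.num.natAbs ≤ H ∧ r.den ≤ H ∧
    IsBad z0 z0 ρ ρ s f c D (H ^ A) r) → (T.card : ℝ) ≤ C * (H : ℝ) ^ ε

/-- FIB: the fibres of `s` are uniformly finite. -/
def Stmt_Fib : Prop := ∀ (z0 : ℂ) (ρ : ℝ) (s : ℂ → ℂ), 0 < ρ →
  DifferentiableOn ℂ s (ball z0 (10 * ρ)) →
  (∀ c : ℂ, ∃ z ∈ ball z0 (10 * ρ), s z ≠ c) → ∃ C : ℕ, ∀ (c : ℂ) (T : Finset ℂ),
  (∀ z ∈ T, z ∈ closedBall z0 ρ ∧ s z = c) → T.card ≤ C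

end

end Pool.Agent.GPC
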