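import Pool.Agent.GPC.Defs

/-!
# GPC part II: elliptic curves, definitions and exact statements
-/

open scoped BigOperators Topology
open Metric UpperHalfPlane ModularForm EisensteinSeries Filter

namespace Pool.Agent.GPC

noncomputable section

/-- FINAL -/
def Stmt_Final : Prop := ∀ g D A : ℕ,
  (∀ L : PeriodPair, Reduced L → (perMat L).det = -(2 * Real.pi * Complex.I)) ∧
  Tendsto (fun X : ℕ =>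
    (Nat.card {p : Fin g → ℤ × ℤ // (∀ i, p i ∈ box X) ∧ Bad D (X ^ A) p} : ℝ) /
      ((box X).card : ℝ) ^ g) atTop (𝓝 0)

/-! ## Lattice functions -/

lemma indep_tau (τ : ℍ) : LinearIndependent ℝ ![(τ : ℂ), 1] := by
  rw [LinearIndependent.pair_iff]
  intro s t h
  have h1 := congrArg Complex.im h
  have h2 := congrArg Complex.re h
  simp at h1 h2
  have him := τ.im_pos
  have hs : s = 0 := by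
    rcases h1 with h1 | h1
    · exact h1
    · exact absurd h1 him.ne'
  subst hs
  simpa using h2

/-- The period pair `(τ, 1)`. -/
def Lt (τ : ℍ) : PeriodPair := ⟨τ, 1, indep_tau τ⟩

/-- `g₂` as a function of `τ`. -/
def g2c (z : ℂ) : ℂ := (Lt (ofComplex z)).g₂
/-- `g₃` as a function of `τ`. -/
def g3c (z : ℂ) : ℂ := (Lt (ofComplex z)).g₃
/-- `G2` as a function of `τ`. -/
def G2c (z : ℂ) : ℂ := G2 (ofComplex z)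
/-- `g₂ ^ 3 / g₃ ^ 2` -/
def sc (z : ℂ) : ℂ := g2c z ^ 3 / g3c z ^ 2
/-- `g₃ / g₂` -/
def hc (z : ℂ) : ℂ := g3c z / g2c z
/-- the three functions `τ, g₃ / g₂, G2` -/
def fc : Fin 3 → ℂ → ℂ := ![fun z => z, hc, G2c]

/-- The coordinates `τ, ω₂, G2 τ` of a period pair. -/
def tvec (L : PeriodPair) : Fin 3 → ℂ := ![L.ω₁ / L.ω₂, L.ω₂, G2c (L.ω₁ / L.ω₂)]

/-- The vector of constants attached to `L 1, …, L g`. -/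
def cvec {g : ℕ} (L : Fin g → PeriodPair) : Option (Fin g × Fin 3) → ℂ :=
  fun o => o.elim (-(2 * Real.pi * Complex.I)) (fun p => tvec (L p.1) p.2)

/-- HOM: homogeneity. -/
def Stmt_Hom : Prop := ∀ (L L' : PeriodPair) (c : ℂ), c ≠ 0 →
  (∀ z : ℂ, z ∈ L.lattice ↔ c * z ∈ L'.lattice) →
  (∀ z, L'.weierstrassP (c * z) = (c ^ 2)⁻¹ * L.weierstrassP z) ∧ L'.g₂ = (c ^ 4)⁻¹ * L.g₂ ∧
  L'.g₃ = (c ^ 6)⁻¹ * L.g₃ ∧ ∀ z ω, sper L' (c * z) (c * ω) = c⁻¹ * sper L z ω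

/-- INTG2: the second period of `℘ dz` for the lattice `ℤ τ + ℤ`. -/
def Stmt_IntG2 : Prop := ∀ τ : ℍ, sper (Lt τ) (τ / 2) 1 = -G2 τ

/-- PERM: the period matrix in terms of `τ, ω₂, G2 τ`. -/
def Stmt_PerM : Prop := ∀ L : PeriodPair, 0 < (L.ω₁ / L.ω₂).im →
  sper L (L.ω₂ / 2) L.ω₁ = L.ω₂⁻¹ * (2 * Real.pi * Complex.I -
    L.ω₁ / L.ω₂ * G2c (L.ω₁ / L.ω₂)) ∧
  sper L (L.ω₁ / 2) L.ω₂ = -(L.ω₂⁻¹ * G2c (L.ω₁ / L.ω₂)) ∧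
  (perMat L).det = -(2 * Real.pi * Complex.I) ∧
  L.g₂ = (L.ω₂ ^ 4)⁻¹ * g2c (L.ω₁ / L.ω₂) ∧ L.g₃ = (L.ω₂ ^ 6)⁻¹ * g3c (L.ω₁ / L.ω₂)

/-- GEIS: `g₂, g₃` are multiples of `E₄, E₆`. -/
def Stmt_GEis : Prop := ∀ τ : ℍ, (Lt τ).g₂ = 4 * (Real.pi : ℂ) ^ 4 / 3 * E₄ τ ∧
  (Lt τ).g₃ = 8 * (Real.pi : ℂ) ^ 6 / 27 * E₆ τ

/-- IND4: Mahler's theorem on the algebraic independence of `τ, G2, g₂, g₃`. -/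
def Stmt_Ind4 : Prop := ∀ (z0 : ℂ) (ρ : ℝ), 0 < ρ → (∀ z ∈ ball z0 ρ, 0 < z.im) →
  ∀ Q : MvPolynomial (Fin 4) ℂ,
  (∀ z ∈ ball z0 ρ, MvPolynomial.eval ![z, G2c z, g2c z, g3c z] Q = 0) → Q = 0

/-- IND3 -/
def Stmt_Ind3 : Prop := ∀ (z0 : ℂ) (ρ : ℝ), 0 < ρ →
  (∀ z ∈ ball z0 (10 * ρ), 0 < z.im ∧ g2c z ≠ 0 ∧ g3c z ≠ 0) → Indep 3 z0 ρ sc fc

/-- The compact part of the fundamental domain. -/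
def KM (M : ℕ) : Set ℂ := {z | 0 < z.im ∧ |z.re| ≤ 1 / 2 ∧ 1 ≤ ‖z‖ ∧ z.im ≤ M ∧
  1 ≤ M * ‖g2c z‖ ∧ 1 ≤ M * ‖g3c z‖}

/-- COVER -/
def Stmt_Cover : Prop := ∀ M : ℕ, ∃ (k : ℕ) (z0 : Fin k → ℂ) (ρ : Fin k → ℝ),
  (∀ i, 0 < ρ i ∧ ∀ z ∈ ball (z0 i) (10 * ρ i), 0 < z.im ∧ g2c z ≠ 0 ∧ g3c z ≠ 0) ∧
  KM M ⊆ ⋃ i, closedBall (z0 i) (ρ i)

/-- REGION: few curves have `τ` outside of `KM M`. -/
def Stmt_Region : Prop := ∀ δ : ℝ, 0 < δ → ∃ M X0 : ℕ, ∀ X : ℕ, X0 ≤ X →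
  (Nat.card {p : ℤ × ℤ // p ∈ box X ∧ ∃ L : PeriodPair, Reduced L ∧ IsModel L p.1 p.2 ∧
    L.ω₁ / L.ω₂ ∉ KM M} : ℝ) ≤ δ * (box X).card

/-! ## Relations -/

/-- TRANSA -/
def Stmt_TransA : Prop := ∀ g D A : ℕ, ∃ D1 A1 : ℕ, ∀ X : ℕ, 2 ≤ X →
  ∀ L : Fin g → PeriodPair, (∀ i, Reduced (L i)) →
  ∀ P : MvPolynomial (Option (Fin g × Fin 2 × Fin 2)) ℤ, IsSmall P D (X ^ A) → NonTrivial P →
  MvPolynomial.aeval (tpt (-(2 * Real.pi * Complex.I)) (fun i => perMat (L i))) P = 0 →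
  ¬ Free D1 (X ^ A1) (cvec L)

/-- TRANSB -/
def Stmt_TransB : Prop := ∀ (ι : Type) [Fintype ι] (D A : ℕ), ∃ D1 A1 : ℕ, ∀ X : ℕ, 2 ≤ X →
  ∀ (c : ι → ℂ) (a b : ℤ), a ≠ 0 → b ≠ 0 → a.natAbs ≤ X ^ 3 → b.natAbs ≤ X ^ 3 →
  ∀ τ Ω h G : ℂ, (b : ℂ) * Ω ^ 2 = a * h → ¬ Free D (X ^ A) (Sum.elim c ![τ, Ω, G]) →
  ∃ P : MvPolynomial (Fin 3 ⊕ ι) ℤ, P ≠ 0 ∧ IsSmall P D1 (X ^ A1) ∧
    MvPolynomial.aeval (Sum.elim ![τ, h, G] c) P = 0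

/-! ## Counting -/

/-- FIBER: few models. -/
def Stmt_Fiber : Prop := ∀ M : ℕ, ∃ C : ℕ, ∀ (a b : ℤ) (T : Finset (Fin 3 → ℂ)),
  (∀ v ∈ T, ∃ L : PeriodPair, Reduced L ∧ IsModel L a b ∧ L.ω₁ / L.ω₂ ∈ KM M ∧
    v = tvec L) → T.card ≤ C

/-- STEP -/
def Stmt_Step : Prop := ∀ (M : ℕ) (ι : Type) [Fintype ι] (D A : ℕ), ∃ (D1 A1 : ℕ) (C : ℝ),
  ∀ X : ℕ, 2 ≤ X → ∀ c : ι → ℂ, Free D1 (X ^ A1) c →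
  (Nat.card {p : ℤ × ℤ // p ∈ box X ∧ ∃ L : PeriodPair, Reduced L ∧ IsModel L p.1 p.2 ∧
    L.ω₁ / L.ω₂ ∈ KM M ∧ ¬ Free D (X ^ A) (Sum.elim c (tvec L))} : ℝ) ≤ C * (X : ℝ) ^ 3

/-- INDUC -/
def Stmt_Induc : Prop := ∀ M g D A : ℕ, ∃ C : ℝ, ∀ X : ℕ, 2 ≤ X →
  (Nat.card {p : Fin g → ℤ × ℤ // (∀ i, p i ∈ box X) ∧ ∃ L : Fin g → PeriodPair,
    (∀ i, Reduced (L i) ∧ IsModel (L i) (p i).1 (p i).2 ∧ (L i).ω₁ / (L i).ω₂ ∈ KM M) ∧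
    ¬ Free D (X ^ A) (cvec L)} : ℝ) ≤ C * (X : ℝ) ^ (5 * g) / (X : ℝ) ^ 2

end

end Pool.Agent.GPC
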