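import Pool.Agent.GPC.Ell

/-!
# GPC, module INTG2: the second period of `℘ dz` for the lattice `ℤ τ + ℤ` is `-G2 τ`
-/

open scoped BigOperators Topology
open Metric UpperHalfPlane ModularForm EisensteinSeries Filter SummationFilter

namespace Pool.Agent.GPC.INTG2

noncomputable section

/-- the path avoids the lattice -/
lemma path_ne (τ : ℍ) (t : ℝ) (m n : ℤ) :
    (τ : ℂ) / 2 + t - ((m : ℂ) * τ + n) ≠ 0 := by
  intro h
  have h2 := congrArg Complex.im h
  simp at h2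
  have him := τ.im_pos
  have : ((1 : ℝ) / 2 - m) * τ.im = 0 := by
    have : (τ : ℂ).im = τ.im := rfl
    linarith
  rcases mul_eq_zero.1 this with h3 | h3
  · have : (1 : ℝ) = 2 * m := by linarith
    have h4 : (1 : ℤ) = 2 * m := by exact_mod_cast this
    omega
  · exact him.ne' h3

lemma lattice_form (τ : ℍ) (l : (Lt τ).lattice) : ∃ m n : ℤ, (l : ℂ) = (m : ℂ) * τ + n := by
  obtain ⟨x, hx⟩ : ∃ x, (Lt τ).latticeEquivProd.symm x = l :=
    ⟨_, LinearEquiv.symm_apply_apply _ _⟩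
  refine ⟨x.1, x.2, ?_⟩
  rw [← hx, PeriodPair.latticeEquiv_symm_apply]
  simp [Lt]

/-- the integral of one term -/
lemma term_integral (τ : ℍ) (m n : ℤ) :
    ∫ t in (0 : ℝ)..1, (1 / ((τ : ℂ) / 2 + t - ((m : ℂ) * τ + n)) ^ 2 -
        1 / ((m : ℂ) * τ + n) ^ 2) =
      1 / ((τ : ℂ) / 2 - ((m : ℂ) * τ + n)) - 1 / ((τ : ℂ) / 2 + 1 - ((m : ℂ) * τ + n)) -
        1 / ((m : ℂ) * τ + n) ^ 2 := by
  have hd : ∀ t ∈ Set.uIcc (0 : ℝ) 1, HasDerivAt
      (fun t : ℝ => -((τ : ℂ) / 2 + t - ((m : ℂ) * τ + n))⁻¹ - t * (1 / ((m : ℂ) * τ + n) ^ 2))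
      (1 / ((τ : ℂ) / 2 + t - ((m : ℂ) * τ + n)) ^ 2 - 1 / ((m : ℂ) * τ + n) ^ 2) t := by
    intro t _
    have h0 : HasDerivAt (fun t : ℝ => (t : ℂ)) 1 t := Complex.ofRealCLM.hasDerivAt
    have h1 : HasDerivAt (fun t : ℝ => (τ : ℂ) / 2 + t - ((m : ℂ) * τ + n)) 1 t :=
      (h0.const_add _).sub_const _
    have h2 := (h1.inv (path_ne τ t m n)).neg
    have h3 := h0.mul_const (1 / ((m : ℂ) * τ + n) ^ 2)
    refine (h2.sub h3).congr_deriv ?_
    rw [one_mul, neg_div, neg_neg]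
  have hc : ContinuousOn (fun t : ℝ => 1 / ((τ : ℂ) / 2 + t - ((m : ℂ) * τ + n)) ^ 2 -
      1 / ((m : ℂ) * τ + n) ^ 2) (Set.uIcc (0 : ℝ) 1) := by
    apply ContinuousOn.sub _ continuousOn_const
    apply ContinuousOn.div continuousOn_const
    · fun_prop
    · intro t _
      exact pow_ne_zero _ (path_ne τ t m n)
  rw [intervalIntegral.integral_eq_sub_of_hasDerivAt hd (hc.intervalIntegrable)]
  simp
  ring

lemma hasSum_int (τ : ℍ) : HasSum (fun l : (Lt τ).lattice =>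
    ∫ t in (0 : ℝ)..1, (1 / ((τ : ℂ) / 2 + t - l) ^ 2 - 1 / (l : ℂ) ^ 2))
    (∫ t in (0 : ℝ)..1, (Lt τ).weierstrassP ((τ : ℂ) / 2 + t)) := by
  have h1 := (Lt τ).hasSumLocallyUniformly_weierstrassP
  rw [hasSumLocallyUniformly_iff_tendstoLocallyUniformly] at h1
  have h2 : TendstoLocallyUniformlyOn
      (fun (s : Finset (Lt τ).lattice) (t : ℝ) =>
        ∑ l ∈ s, (1 / ((τ : ℂ) / 2 + t - l) ^ 2 - 1 / (l : ℂ) ^ 2))
      (fun t : ℝ => (Lt τ).weierstrassP ((τ : ℂ) / 2 + t)) atTop (Set.uIcc (0 : ℝ) 1) := by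
    have := (h1.comp (fun t : ℝ => (τ : ℂ) / 2 + t) (by fun_prop)).tendstoLocallyUniformlyOn
      (s := Set.uIcc (0 : ℝ) 1)
    exact this
  have h3 := (tendstoLocallyUniformlyOn_iff_tendstoUniformlyOn_of_compact isCompact_uIcc).1 h2
  have : Countable (Lt τ).lattice := (Lt τ).latticeEquivProd.toEquiv.countable_iff.2 inferInstance
  have hcont : ∀ l : (Lt τ).lattice, ContinuousOn
      (fun t : ℝ => (1 / ((τ : ℂ) / 2 + t - l) ^ 2 - 1 / (l : ℂ) ^ 2)) (Set.uIcc (0 : ℝ) 1) := by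
    intro l
    obtain ⟨m, n, hl⟩ := lattice_form τ l
    apply ContinuousOn.sub _ continuousOn_const
    apply ContinuousOn.div continuousOn_const
    · fun_prop
    · intro t _
      rw [hl]
      exact pow_ne_zero _ (path_ne τ t m n)
  have h4 := h3.tendsto_intervalIntegral_of_continuousOn (μ := MeasureTheory.volume)
    (Filter.Eventually.of_forall fun s => continuousOn_finsetSum s fun l _ => hcont l)
  have h5 : ∀ s : Finset (Lt τ).lattice,
      ∫ t in (0 : ℝ)..1, ∑ l ∈ s, (1 / ((τ : ℂ) / 2 + t - l) ^ 2 - 1 / (l : ℂ) ^ 2) =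
      ∑ l ∈ s, ∫ t in (0 : ℝ)..1, (1 / ((τ : ℂ) / 2 + t - l) ^ 2 - 1 / (l : ℂ) ^ 2) := by
    intro s
    exact intervalIntegral.integral_finsetSum fun l _ => (hcont l).intervalIntegrable
  simp only [h5] at h4
  exact h4

/-- the double series -/
def T (τ : ℍ) (x : ℤ × ℤ) : ℂ :=
  1 / ((τ : ℂ) / 2 - ((x.1 : ℂ) * τ + x.2)) - 1 / ((τ : ℂ) / 2 + 1 - ((x.1 : ℂ) * τ + x.2)) -
        1 / ((x.1 : ℂ) * τ + x.2) ^ 2

lemma hasSum_T (τ : ℍ) :
    HasSum (T τ) (∫ t in (0 : ℝ)..1, (Lt τ).weierstrassP ((τ : ℂ) / 2 + t)) := by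
  have h := ((Lt τ).latticeEquivProd.symm.toEquiv.hasSum_iff).2 (hasSum_int τ)
  convert h using 1
  ext x
  have hx : (((Lt τ).latticeEquivProd.symm.toEquiv x : (Lt τ).lattice) : ℂ) =
      (x.1 : ℂ) * τ + x.2 := by
    have h2 := (Lt τ).latticeEquiv_symm_apply x
    have h3 : (((Lt τ).latticeEquivProd.symm x : (Lt τ).lattice) : ℂ) =
      (x.1 : ℂ) * τ + x.2 := by rw [h2]; simp [Lt]
    exact h3
  simp only [Function.comp_apply, hx]
  rw [term_integral]
  rfl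

/-- the telescoping part -/
def S (a : ℂ) (n : ℤ) : ℂ := 1 / (a - n) - 1 / (a + 1 - n)

lemma sum_S (a : ℂ) (N : ℕ) : ∑ n ∈ Finset.Icc (-(N : ℤ)) N, S a n =
    1 / (a - N) - 1 / (a + 1 + N) := by
  induction N with
  | zero => simp [S]
  | succ N ih =>
    have h1 : Finset.Icc (-((N + 1 : ℕ) : ℤ)) ((N + 1 : ℕ) : ℤ) =
        insert (-((N + 1 : ℕ) : ℤ)) (insert ((N + 1 : ℕ) : ℤ) (Finset.Icc (-(N : ℤ)) N)) := by
      ext k
      simp only [Finset.mem_Icc, Finset.mem_insert]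
      push_cast
      omega
    rw [h1, Finset.sum_insert, Finset.sum_insert, ih]
    · unfold S
      push_cast
      have e1 : a + 1 - (-((N : ℂ) + 1)) = a + 1 + ((N : ℂ) + 1) := by ring
      have e2 : a - (-((N : ℂ) + 1)) = a + 1 + N := by ring
      have e3 : a + 1 - ((N : ℂ) + 1) = a - N := by ring
      rw [e1, e2, e3]
      ring
    · simp only [Finset.mem_Icc, not_and, not_le]
      push_cast
      omega
    · simp only [Finset.mem_Icc, Finset.mem_insert, not_or, not_and, not_le]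
      push_cast
      omega

lemma tendsto_S (a : ℂ) : Tendsto (fun N : ℕ => ∑ n ∈ Finset.Icc (-(N : ℤ)) N, S a n) atTop
    (𝓝 0) := by
  simp only [sum_S]
  have h1 : Tendsto (fun N : ℕ => 1 / (a - N)) atTop (𝓝 0) := by
    simp only [one_div]
    apply tendsto_inv₀_cobounded.comp
    rw [tendsto_norm_atTop_iff_cobounded.symm]
    have : ∀ N : ℕ, (N : ℝ) - ‖a‖ ≤ ‖a - N‖ := by
      intro N
      have := norm_sub_norm_le (N : ℂ) a
      rw [norm_sub_rev, Complex.norm_natCast] at this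
      linarith
    refine tendsto_atTop_mono this ?_
    exact tendsto_atTop_add_const_right _ _ tendsto_natCast_atTop_atTop
  have h2 : Tendsto (fun N : ℕ => 1 / (a + 1 + N)) atTop (𝓝 0) := by
    simp only [one_div]
    apply tendsto_inv₀_cobounded.comp
    rw [tendsto_norm_atTop_iff_cobounded.symm]
    have : ∀ N : ℕ, (N : ℝ) - ‖a + 1‖ ≤ ‖a + 1 + N‖ := by
      intro N
      have := norm_sub_norm_le (N : ℂ) (-(a + 1))
      rw [norm_neg, Complex.norm_natCast, sub_neg_eq_add, add_comm (N : ℂ)] at this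
      linarith
    refine tendsto_atTop_mono this ?_
    exact tendsto_atTop_add_const_right _ _ tendsto_natCast_atTop_atTop
  simpa using h1.sub h2

lemma fiber (τ : ℍ) (m : ℤ) (hs : Summable (fun n : ℤ => T τ (m, n))) :
    HasSum (fun n : ℤ => T τ (m, n)) (-e2Summand m τ) := by
  have he := e2Summand_summable m τ
  have he' : ∀ n : ℤ, eisSummand 2 ![m, n] τ = 1 / ((m : ℂ) * τ + n) ^ 2 := by
    intro n
    simp only [eisSummand, Matrix.cons_val_zero, Matrix.cons_val_one, one_div]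
    rw [zpow_neg]
    norm_cast
  set a : ℂ := (τ : ℂ) / 2 - m * τ with ha
  have hSe : ∀ n : ℤ, S a n = T τ (m, n) + eisSummand 2 ![m, n] τ := by
    intro n
    rw [he', T, S, ha]
    simp only
    have e1 : (τ : ℂ) / 2 - ((m : ℂ) * τ + n) = (τ : ℂ) / 2 - m * τ - n := by ring
    have e2 : (τ : ℂ) / 2 + 1 - ((m : ℂ) * τ + n) = (τ : ℂ) / 2 - m * τ + 1 - n := by ring
    rw [e1, e2]
    ring
  have hSs : Summable (S a) := by
    have := hs.add he
    exact this.congr fun n => (hSe n).symm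
  have hS0 : ∑' n, S a n = 0 := by
    have h1 : HasSum (S a) (∑' n, S a n) (symmetricIcc ℤ) :=
      hSs.hasSum.mono_left (symmetricIcc ℤ).le_atTop
    rw [hasSum_symmetricIcc_iff] at h1
    exact tendsto_nhds_unique h1 (tendsto_S a)
  have h2 := hSs.hasSum.sub he.hasSum
  rw [hS0, zero_sub] at h2
  have h3 : (fun n : ℤ => T τ (m, n)) = fun b => S a b - eisSummand 2 ![m, b] τ := by
    funext n
    rw [hSe]
    ring
  rw [h3]
  exact h2

theorem thm : Stmt_IntG2 := by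
  intro τ
  have hI : sper (Lt τ) (τ / 2) 1 =
      ∫ t in (0 : ℝ)..1, (Lt τ).weierstrassP ((τ : ℂ) / 2 + t) := by
    unfold sper
    simp
  rw [hI]
  have h1 := hasSum_T τ
  have h2 : HasSum (fun m : ℤ => -e2Summand m τ)
      (∫ t in (0 : ℝ)..1, (Lt τ).weierstrassP ((τ : ℂ) / 2 + t)) :=
    h1.prod_fiberwise fun m => fiber τ m (h1.summable.prod_factor m)
  have h3 := h2.neg
  simp only [neg_neg] at h3
  have h4 : HasSum (fun m : ℤ => e2Summand m τ)
      (-∫ t in (0 : ℝ)..1, (Lt τ).weierstrassP ((τ : ℂ) / 2 + t)) (symmetricIcc ℤ) :=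
    h3.mono_left (symmetricIcc ℤ).le_atTop
  have h5 : G2 τ = _ := h4.tsum_eq
  rw [h5, neg_neg]

end

end Pool.Agent.GPC.INTG2
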