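import Mathlib

/-!
# Period matrices of elliptic curves over the rational numbers: definitions of the statement

The elliptic curve `y ^ 2 = x ^ 3 + a x + b` is parametrised by `x = ℘ z`, `y = ℘' z / 2`, where
`℘` belongs to the lattice `ℤ ω₁ + ℤ ω₂` with `g₂ = -4 a`, `g₃ = -4 b`. The algebraic de Rham
cohomology `H¹` has the basis `dx / (2 y) = dz`, `x dx / (2 y) = ℘ dz`.
-/

open scoped BigOperators

namespace Pool.Agent.GPC

noncomputable section

/-- An integral polynomial of total degree at most `D` with all coefficients of absolute value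
at most `B`. -/
def IsSmall {σ : Type} (P : MvPolynomial σ ℤ) (D B : ℕ) : Prop :=
  P.totalDegree ≤ D ∧ ∀ m, (P.coeff m).natAbs ≤ B

/-- The integral of `℘ dz` over the path `z + t ω`, `0 ≤ t ≤ 1`: for `ω` in the lattice this is
the period of the differential of the second kind `x dx / (2 y)` of the curve
`y ^ 2 = x ^ 3 - (g₂ / 4) x - g₃ / 4`, `x = ℘`, `y = ℘' / 2`. -/
def sper (L : PeriodPair) (z ω : ℂ) : ℂ := ∫ t in (0 : ℝ)..1, L.weierstrassP (z + t * ω) * ω

/-- The period matrix: first row the periods of `dx / (2 y) = dz`, second row the periods of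
`x dx / (2 y) = ℘ dz`, for the two basic cycles. -/
def perMat (L : PeriodPair) : Matrix (Fin 2) (Fin 2) ℂ :=
  !![L.ω₁, L.ω₂; sper L (L.ω₂ / 2) L.ω₁, sper L (L.ω₁ / 2) L.ω₂]

/-- The basis `ω₁, ω₂` is reduced: `ω₁ / ω₂` lies in the standard fundamental domain. -/
def Reduced (L : PeriodPair) : Prop :=
  0 < (L.ω₁ / L.ω₂).im ∧ |(L.ω₁ / L.ω₂).re| ≤ 1 / 2 ∧ 1 ≤ ‖L.ω₁ / L.ω₂‖

/-- `L` is a basis of the period lattice of `dx / (2 y)` on `y ^ 2 = x ^ 3 + a x + b`. -/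
def IsModel (L : PeriodPair) (a b : ℤ) : Prop := L.g₂ = -4 * a ∧ L.g₃ = -4 * b

/-- The point `(lam, M)` of the space of pairs of one number and a `g`-tuple of `2 x 2`
matrices. -/
def tpt {g : ℕ} (lam : ℂ) (M : Fin g → Matrix (Fin 2) (Fin 2) ℂ) :
    Option (Fin g × Fin 2 × Fin 2) → ℂ :=
  fun o => o.elim lam (fun p => M p.1 p.2.1 p.2.2)

/-- `P` does not vanish identically on the torsor `det (M i) = lam` (all `i`), `lam ≠ 0`. -/
def NonTrivial {g : ℕ} (P : MvPolynomial (Option (Fin g × Fin 2 × Fin 2)) ℤ) : Prop :=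
  ∃ (lam : ℂ) (M : Fin g → Matrix (Fin 2) (Fin 2) ℂ), lam ≠ 0 ∧ (∀ i, (M i).det = lam) ∧
    MvPolynomial.aeval (tpt lam M) P ≠ 0

/-- The tuple of curves `y ^ 2 = x ^ 3 + (p i).1 x + (p i).2` has reduced period matrices which
satisfy a polynomial relation of complexity `(D, B)` that does not hold on the torsor. -/
def Bad {g : ℕ} (D B : ℕ) (p : Fin g → ℤ × ℤ) : Prop :=
  ∃ L : Fin g → PeriodPair, (∀ i, Reduced (L i) ∧ IsModel (L i) (p i).1 (p i).2) ∧
    ∃ P : MvPolynomial (Option (Fin g × Fin 2 × Fin 2)) ℤ, IsSmall P D B ∧ NonTrivial P ∧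
      MvPolynomial.aeval (tpt (-(2 * Real.pi * Complex.I)) (fun i => perMat (L i))) P = 0

/-- The pairs `(a, b)` with `|a| ≤ X ^ 2`, `|b| ≤ X ^ 3`. -/
def box (X : ℕ) : Finset (ℤ × ℤ) :=
  Finset.Icc (-(X : ℤ) ^ 2) ((X : ℤ) ^ 2) ×ˢ Finset.Icc (-(X : ℤ) ^ 3) ((X : ℤ) ^ 3)

end

end Pool.Agent.GPC
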